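import Pool.Agent.Lib_MP_af4de1_Bethe.Data00
import Pool.Agent.Lib_MP_af4de1_Bethe.Data01
import Pool.Agent.Lib_MP_af4de1_Bethe.Data02
import Pool.Agent.Lib_MP_af4de1_Bethe.Data03
import Pool.Agent.Lib_MP_af4de1_Bethe.Data04
import Pool.Agent.Lib_MP_af4de1_Bethe.Data05
import Pool.Agent.Lib_MP_af4de1_Bethe.Data06
import Pool.Agent.Lib_MP_af4de1_Bethe.Data07

/-!
# All cells
-/

namespace SokalBethe

/-- The cells. -/
def cellList : List CellT := [
  cc0, cc1, cc2, cc3, cc4, cc5, cc6, cc7, cc8, cc9, cc10, cc11, cc12, cc13, cc14, cc15, cc16,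
  cc17, cc18, cc19, cc20, cc21, cc22, cc23, cc24, cc25, cc26, cc27, cc28, cc29, cc30, cc31,
  cc32, cc33, cc34, cc35, cc36, cc37, cc38, cc39, cc40, cc41, cc42, cc43, cc44, cc45, cc46,
  cc47, cc48, cc49, cc50, cc51, cc52, cc53, cc54, cc55, cc56, cc57, cc58, cc59, cc60, cc61,
  cc62, cc63, cc64, cc65, cc66, cc67, cc68, cc69, cc70, cc71, cc72, cc73, cc74, cc75, cc76,
  cc77, cc78, cc79, cc80, cc81, cc82, cc83, cc84, cc85, cc86, cc87, cc88, cc89, cc90, cc91,
  cc92, cc93, cc94, cc95, cc96, cc97, cc98, cc99, cc100, cc101, cc102, cc103, cc104, cc105,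
  cc106, cc107]

theorem all_ok : ∀ c ∈ cellList, ok c = true := by
  unfold cellList
  simp only [List.forall_mem_cons, List.not_mem_nil, false_imp_iff, implies_true, and_true]
  exact ⟨ok0, ok1, ok2, ok3, ok4, ok5, ok6, ok7, ok8, ok9,
    ok10, ok11, ok12, ok13, ok14, ok15, ok16, ok17, ok18, ok19,
    ok20, ok21, ok22, ok23, ok24, ok25, ok26, ok27, ok28, ok29,
    ok30, ok31, ok32, ok33, ok34, ok35, ok36, ok37, ok38, ok39,
    ok40, ok41, ok42, ok43, ok44, ok45, ok46, ok47, ok48, ok49,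
    ok50, ok51, ok52, ok53, ok54, ok55, ok56, ok57, ok58, ok59,
    ok60, ok61, ok62, ok63, ok64, ok65, ok66, ok67, ok68, ok69,
    ok70, ok71, ok72, ok73, ok74, ok75, ok76, ok77, ok78, ok79,
    ok80, ok81, ok82, ok83, ok84, ok85, ok86, ok87, ok88, ok89,
    ok90, ok91, ok92, ok93, ok94, ok95, ok96, ok97, ok98, ok99,
    ok100, ok101, ok102, ok103, ok104, ok105, ok106, ok107⟩

theorem chain_ok : chain (-851968) cellList 851968 := by decide +kernel

end SokalBethe
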