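import Pool.Agent.Lib_MP_af4de1_Bethe.DiscSound

/-!
# Soundness of the cell check
-/

namespace SokalBethe

open Filter Topology Finset

namespace Dsc

theorem InD_add {u v : ℤ} {r : ℕ} {acc : Dsc} {s w : ℂ} (h1 : InD acc s) (h2 : InD ⟨u, v, r⟩ w) :
    InD ⟨Int.add acc.x u, Int.add acc.y v, Nat.add acc.r r⟩ (s + w) := by
  unfold InD at *
  have e : (1048576 : ℂ) * (s + w) - (⟨((acc.x + u : ℤ) : ℝ), ((acc.y + v : ℤ) : ℝ)⟩ : ℂ) =
      ((1048576 : ℂ) * s - ⟨(acc.x : ℝ), (acc.y : ℝ)⟩) + ((1048576 : ℂ) * w - ⟨(u : ℝ), (v : ℝ)⟩) := by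
    have : (⟨((acc.x + u : ℤ) : ℝ), ((acc.y + v : ℤ) : ℝ)⟩ : ℂ) =
        ⟨(acc.x : ℝ), (acc.y : ℝ)⟩ + ⟨(u : ℝ), (v : ℝ)⟩ := by
      apply Complex.ext <;> simp
    rw [this]; ring
  show ‖(1048576 : ℂ) * (s + w) - (⟨((acc.x + u : ℤ) : ℝ), ((acc.y + v : ℤ) : ℝ)⟩ : ℂ)‖ ≤
    ((acc.r + r : ℕ) : ℝ)
  rw [e]
  push_cast
  exact (norm_add_le _ _).trans (add_le_add h1 h2)

theorem InD_neg {u v : ℤ} {r : ℕ} {w : ℂ} (h : InD ⟨u, v, r⟩ w) :
    InD ⟨Int.neg u, Int.neg v, r⟩ (-w) := by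
  unfold InD at *
  show ‖(1048576 : ℂ) * (-w) - (⟨((-u : ℤ) : ℝ), ((-v : ℤ) : ℝ)⟩ : ℂ)‖ ≤ _
  have : (⟨((-u : ℤ) : ℝ), ((-v : ℤ) : ℝ)⟩ : ℂ) = -⟨(u : ℝ), (v : ℝ)⟩ := by
    apply Complex.ext <;> simp
  rw [this, ← norm_neg]
  have e : -((1048576 : ℂ) * (-w) - -⟨(u : ℝ), (v : ℝ)⟩) =
      (1048576 : ℂ) * w - ⟨(u : ℝ), (v : ℝ)⟩ := by ring
  rw [e]
  exact h

theorem InD_one : InD ⟨Int.ofNat (nat_lit 1048576), 0, 0⟩ 1 := by
  unfold InD
  show ‖(1048576 : ℂ) * 1 - (⟨((1048576 : ℤ) : ℝ), ((0 : ℤ) : ℝ)⟩ : ℂ)‖ ≤ ((0 : ℕ) : ℝ)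
  have : (⟨((1048576 : ℤ) : ℝ), ((0 : ℤ) : ℝ)⟩ : ℂ) = 1048576 := by
    apply Complex.ext <;> simp
  rw [this]
  simp

theorem InD_congr {u v u' v' : ℤ} {r r' : ℕ} {w : ℂ} (h : InD ⟨u, v, r⟩ w) (h1 : u = u')
    (h2 : v = v') (h3 : r = r') : InD ⟨u', v', r'⟩ w := by
  subst h1; subst h2; subst h3; exact h

theorem InD_one_sub {A : Dsc} {a : ℂ} (h : InD A a) :
    InD ⟨Int.sub (Int.ofNat (nat_lit 1048576)) A.x, Int.neg A.y, A.r⟩ (1 - a) := by
  have h1 := InD_add InD_one (InD_neg (u := A.x) (v := A.y) (r := A.r) h)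
  rw [← sub_eq_add_neg] at h1
  refine InD_congr h1 ?_ ?_ ?_
  · show (1048576 : ℤ) + -A.x = 1048576 - A.x
    ring
  · show (0 : ℤ) + -A.y = -A.y
    ring
  · show 0 + A.r = A.r
    ring

theorem sumA_nil (A acc : Dsc) (k : Dsc → Bool) : sumA [] A acc k =
    invK (Int.sub (Int.ofNat (nat_lit 1048576)) A.x) (Int.neg A.y) A.r
      fun u v r => mkK (Int.add acc.x u) (Int.add acc.y v) (Nat.add acc.r r) k := rfl

theorem sumA_cons (x : Dsc) (xs : List Dsc) (A acc : Dsc) (k : Dsc → Bool) :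
    sumA (x :: xs) A acc k =
    invK (Int.sub (Int.ofNat (nat_lit 1048576)) A.x) (Int.neg A.y) A.r
      fun u v r => mkK (Int.add acc.x u) (Int.add acc.y v) (Nat.add acc.r r)
        fun acc' => mulK A x fun A' => sumA xs A' acc' k := rfl

/-- The `A`-sum. -/
theorem sumA_sound (left : List Dsc) : ∀ (A acc : Dsc) (k : Dsc → Bool),
    sumA left A acc k = true → ∃ out, k out = true ∧ ∀ (zs : ℕ → ℂ) (a s : ℂ), InL left zs →
      InD A a → InD acc s → InD out (s + ∑ i ∈ range (left.length + 1),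
        (1 - a * ∏ l ∈ range i, zs l)⁻¹) := by
  induction left with
  | nil =>
    intro A acc k h
    rw [sumA_nil] at h
    obtain ⟨u, v, r, h1, h2⟩ := invK_sound h
    rw [mkK_eq] at h1
    refine ⟨_, h1, fun zs a s _ hA hs => ?_⟩
    simp only [List.length_nil, zero_add, sum_range_one, prod_range_zero, mul_one]
    exact InD_add hs (h2 _ (InD_one_sub hA)).2
  | cons x xs ih =>
    intro A acc k h
    rw [sumA_cons] at h
    obtain ⟨u, v, r, h1, h2⟩ := invK_sound h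
    rw [mkK_eq] at h1
    obtain ⟨A', h3, h4⟩ := mulK_sound h1
    obtain ⟨out, h5, h6⟩ := ih _ _ _ h3
    refine ⟨out, h5, fun zs a s hl hA hs => ?_⟩
    rw [InL_cons] at hl
    have h7 := h6 (fun i => zs (i + 1)) (a * zs 0)
      (s + (1 - a)⁻¹) hl.2 (h4 _ _ hA hl.1) (InD_add hs (h2 _ (InD_one_sub hA)).2)
    rw [List.length_cons, sum_range_succ' _ (xs.length + 1)]
    simp only [prod_range_zero, mul_one]
    have e : s + (∑ i ∈ range (xs.length + 1), (1 - a * ∏ l ∈ range (i + 1), zs l)⁻¹ +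
        (1 - a)⁻¹) = s + (1 - a)⁻¹ + ∑ i ∈ range (xs.length + 1),
          (1 - a * zs 0 * ∏ l ∈ range i, zs (l + 1))⁻¹ := by
      have : ∀ i, a * ∏ l ∈ range (i + 1), zs l = a * zs 0 * ∏ l ∈ range i, zs (l + 1) := by
        intro i
        rw [prod_range_succ']
        ring
      simp only [this]
      ring
    rw [e]
    exact h7

theorem norm_prod_le' {zs : ℕ → ℂ} {r : ℝ} (hz : ∀ l, ‖zs l‖ ≤ r) (i : ℕ) :
    ‖∏ l ∈ range i, zs l‖ ≤ r ^ i := by
  rw [norm_prod]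
  calc ∏ l ∈ range i, ‖zs l‖ ≤ ∏ _l ∈ range i, r :=
        prod_le_prod (fun _ _ => norm_nonneg _) fun l _ => hz l
    _ = r ^ i := by simp

/-- The terms of the `B`-sum. -/
theorem norm_phi_prod_le {zs : ℕ → ℂ} {b : ℂ} {r ρ : ℝ} (hr0 : 0 ≤ r) (hr1 : r < 1)
    (hz : ∀ l, ‖zs l‖ ≤ r) (hb : ‖b‖ * r ≤ ρ) (hρ : ρ < 1) (i : ℕ) :
    ‖b * (∏ l ∈ range (i + 1), zs l) / (1 - b * ∏ l ∈ range (i + 1), zs l)‖ ≤
      ρ / (1 - ρ) * r ^ i := by
  have h1 := norm_prod_le' hz (i + 1)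
  have h2 : ‖b * ∏ l ∈ range (i + 1), zs l‖ ≤ ρ * r ^ i := by
    rw [norm_mul]
    calc ‖b‖ * ‖∏ l ∈ range (i + 1), zs l‖ ≤ ‖b‖ * r ^ (i + 1) := by gcongr
      _ = (‖b‖ * r) * r ^ i := by ring
      _ ≤ ρ * r ^ i := by gcongr
  have h3 : 0 ≤ ρ := (by positivity : 0 ≤ ‖b‖ * r).trans hb
  have h4 : r ^ i ≤ 1 := pow_le_one₀ hr0 hr1.le
  have h5 : ρ * r ^ i ≤ ρ := mul_le_of_le_one_right h3 h4
  have h6 := norm_phi_le h2 (h5.trans_lt hρ)
  refine h6.trans ?_
  have h7 : 0 < 1 - ρ := by linarith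
  rw [div_mul_eq_mul_div]
  gcongr

theorem summable_phi_prod {zs : ℕ → ℂ} {b : ℂ} {r : ℝ} (hr0 : 0 ≤ r) (hr1 : r < 1)
    (hz : ∀ l, ‖zs l‖ ≤ r) (hb : ‖b‖ ≤ 1) :
    Summable fun i : ℕ => b * (∏ l ∈ range (i + 1), zs l) / (1 - b * ∏ l ∈ range (i + 1), zs l) := by
  refine Summable.of_norm_bounded
    ((summable_geometric_of_lt_one hr0 hr1).mul_left (r / (1 - r))) fun i => ?_
  exact norm_phi_prod_le hr0 hr1 hz (by nlinarith) hr1 i

theorem remK_sound {rn rd : ℕ} (hrd : rn < rd) {B acc : Dsc} {k : Dsc → Bool}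
    (h : remK rn rd B acc k = true) : ∃ out, k out = true ∧ ∀ (zs : ℕ → ℂ) (b s : ℂ),
      (∀ l, ‖zs l‖ ≤ (rn : ℝ) / rd) → InD B b → InD acc s → InD out (s -
        ∑' i : ℕ, b * (∏ l ∈ range (i + 1), zs l) / (1 - b * ∏ l ∈ range (i + 1), zs l)) := by
  unfold remK at h
  rw [fN_eq, and'_eq, mkK_eq] at h
  obtain ⟨h1, h2⟩ := h
  refine ⟨_, h2, fun zs b s hz hB hs => ?_⟩
  set p : ℕ := Nat.succ (Nat.div (Nat.mul (Nat.add (nrm B.x B.y) B.r) rn) rd) with hp
  have h1' : p + 1 ≤ 1048576 := Nat.le_of_ble_eq_true h1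
  have hrd0 : 0 < rd := by omega
  have hrd' : (0 : ℝ) < rd := by exact_mod_cast hrd0
  set r : ℝ := (rn : ℝ) / rd with hr
  have hr0 : 0 ≤ r := by positivity
  have hr1 : r < 1 := by
    rw [hr, div_lt_one hrd']; exact_mod_cast hrd
  have hS : ‖(1048576 : ℂ)‖ = 1048576 := by
    rw [show (1048576 : ℂ) = ((1048576 : ℕ) : ℂ) by norm_num, Complex.norm_natCast]; norm_num
  have hb1 : 1048576 * ‖b‖ ≤ nrm B.x B.y + B.r := by
    have h3 : ‖(1048576 : ℂ) * b‖ ≤ ‖(⟨(B.x : ℝ), (B.y : ℝ)⟩ : ℂ)‖ + B.r := by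
      have h4 := norm_add_le (⟨(B.x : ℝ), (B.y : ℝ)⟩ : ℂ)
        ((1048576 : ℂ) * b - (⟨(B.x : ℝ), (B.y : ℝ)⟩ : ℂ))
      rw [add_sub_cancel] at h4
      unfold InD at hB
      linarith
    rw [norm_mul, hS] at h3
    linarith [norm_le_nrm B.x B.y]
  have hp1 : (1048576 * ‖b‖) * r ≤ p := by
    have h3 := div_le_natdiv ((nrm B.x B.y + B.r) * rn) rd hrd0
    have h4 : ((p : ℕ) : ℝ) = (((nrm B.x B.y + B.r) * rn / rd : ℕ) : ℝ) + 1 := by
      have : p = (nrm B.x B.y + B.r) * rn / rd + 1 := rfl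
      rw [this]; push_cast; ring
    rw [h4]
    refine le_trans ?_ h3
    rw [hr]
    push_cast
    rw [mul_div_assoc]
    gcongr
  set ρ : ℝ := (p : ℝ) / 1048576 with hρ
  have hρ1 : ‖b‖ * r ≤ ρ := by
    rw [hρ, le_div_iff₀ (by norm_num)]
    linarith
  have hp' : (p : ℝ) + 1 ≤ 1048576 := by exact_mod_cast h1'
  have hρ2 : ρ < 1 := by
    rw [hρ, div_lt_one (by norm_num)]; linarith
  have hρ0 : 0 ≤ ρ := by positivity
  have hsum : HasSum (fun i : ℕ => ρ / (1 - ρ) * r ^ i) (ρ / (1 - ρ) * (1 - r)⁻¹) :=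
    (hasSum_geometric_of_lt_one hr0 hr1).mul_left _
  have h5 : ‖∑' i : ℕ, b * (∏ l ∈ range (i + 1), zs l) / (1 - b * ∏ l ∈ range (i + 1), zs l)‖ ≤
      ρ / (1 - ρ) * (1 - r)⁻¹ :=
    tsum_of_norm_bounded hsum (norm_phi_prod_le hr0 hr1 hz hρ1 hρ2)
  generalize (∑' i : ℕ, b * (∏ l ∈ range (i + 1), zs l) /
    (1 - b * ∏ l ∈ range (i + 1), zs l)) = w at *
  unfold InD at *
  have e : (1048576 : ℂ) * (s - w) - (⟨(acc.x : ℝ), (acc.y : ℝ)⟩ : ℂ) =
      ((1048576 : ℂ) * s - ⟨(acc.x : ℝ), (acc.y : ℝ)⟩) - (1048576 : ℂ) * w := by ring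
  show ‖(1048576 : ℂ) * (s - w) - (⟨(acc.x : ℝ), (acc.y : ℝ)⟩ : ℂ)‖ ≤
    ((acc.r + (p * rd * 1048576 / ((rd - rn) * (1048576 - p)) + 1) : ℕ) : ℝ)
  rw [e]
  refine (norm_sub_le _ _).trans ?_
  rw [norm_mul, hS]
  push_cast
  refine add_le_add hs ?_
  have hD : 0 < (rd - rn) * (1048576 - p) := Nat.mul_pos (by omega) (by omega)
  have h6 := div_le_natdiv (p * rd * 1048576) ((rd - rn) * (1048576 - p)) hD
  have e2 : ((((rd - rn) * (1048576 - p) : ℕ)) : ℝ) = ((rd : ℝ) - rn) * (1048576 - p) := by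
    rw [Nat.cast_mul, Nat.cast_sub hrd.le, Nat.cast_sub (by omega)]
    push_cast; ring
  rw [e2] at h6
  have h11 : (1048576 : ℝ) * (ρ / (1 - ρ) * (1 - r)⁻¹) =
      ((p * rd * 1048576 : ℕ) : ℝ) / (((rd : ℝ) - rn) * (1048576 - p)) := by
    rw [hρ, hr]
    have h7 : (rd : ℝ) - rn ≠ 0 := by
      have : (rn : ℝ) < rd := by exact_mod_cast hrd
      linarith
    have h8 : (1048576 : ℝ) - p ≠ 0 := by linarith
    have h9 : (1 : ℝ) - p / 1048576 ≠ 0 := by
      intro h; apply h8; field_simp at h; linarith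
    have h10 : (1 : ℝ) - rn / rd ≠ 0 := by
      intro h; apply h7; field_simp at h; linarith
    push_cast
    field_simp
  calc 1048576 * ‖w‖ ≤ 1048576 * (ρ / (1 - ρ) * (1 - r)⁻¹) := by gcongr
    _ = _ := h11
    _ ≤ _ := h6

theorem sumB_nil (rn rd : ℕ) (n : ℕ) (B acc : Dsc) (k : Dsc → Bool) :
    sumB rn rd [] n B acc k = remK rn rd B acc k := rfl

theorem sumB_zero (rn rd : ℕ) (x : Dsc) (xs : List Dsc) (B acc : Dsc) (k : Dsc → Bool) :
    sumB rn rd (x :: xs) 0 B acc k = remK rn rd B acc k := rfl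

theorem sumB_succ (rn rd : ℕ) (x : Dsc) (xs : List Dsc) (m : ℕ) (B acc : Dsc) (k : Dsc → Bool) :
    sumB rn rd (x :: xs) (m + 1) B acc k = mulK B x fun B' =>
        invK (Int.sub (Int.ofNat (nat_lit 1048576)) B'.x) (Int.neg B'.y) B'.r fun u v r =>
          mkK (Int.add (Int.sub acc.x u) (Int.ofNat (nat_lit 1048576))) (Int.sub acc.y v)
            (Nat.add acc.r r) fun acc' => sumB rn rd xs m B' acc' k := rfl

/-- The `B`-sum. -/
theorem sumB_sound {rn rd : ℕ} (hrd : rn < rd) (right : List Dsc) : ∀ (n : ℕ) (B acc : Dsc)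
    (k : Dsc → Bool), sumB rn rd right n B acc k = true → ∃ out, k out = true ∧
      ∀ (zs : ℕ → ℂ) (b s : ℂ), InL right zs → (∀ l, ‖zs l‖ ≤ (rn : ℝ) / rd) → ‖b‖ ≤ 1 →
        InD B b → InD acc s → InD out (s -
        ∑' i : ℕ, b * (∏ l ∈ range (i + 1), zs l) / (1 - b * ∏ l ∈ range (i + 1), zs l)) := by
  induction right with
  | nil =>
    intro n B acc k h
    rw [sumB_nil] at h
    obtain ⟨out, h1, h2⟩ := remK_sound hrd h
    exact ⟨out, h1, fun zs b s _ hz _ hB hs => h2 zs b s hz hB hs⟩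
  | cons x xs ih =>
    intro n B acc k h
    rcases n with _ | m
    · rw [sumB_zero] at h
      obtain ⟨out, h1, h2⟩ := remK_sound hrd h
      exact ⟨out, h1, fun zs b s _ hz _ hB hs => h2 zs b s hz hB hs⟩
    rw [sumB_succ] at h
    obtain ⟨B', h3, h4⟩ := mulK_sound h
    obtain ⟨u, v, r, h1, h2⟩ := invK_sound h3
    rw [mkK_eq] at h1
    obtain ⟨out, h5, h6⟩ := ih _ _ _ _ h1
    refine ⟨out, h5, fun zs b s hl hz hb hB hs => ?_⟩
    rw [InL_cons] at hl
    have hrd' : (0 : ℝ) < rd := by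
      have : 0 < rd := by omega
      exact_mod_cast this
    have hr0 : 0 ≤ (rn : ℝ) / rd := by positivity
    have hr1 : (rn : ℝ) / rd < 1 := by
      rw [div_lt_one hrd']; exact_mod_cast hrd
    have h7 := h4 _ _ hB hl.1
    have h8 := (h2 _ (InD_one_sub h7)).2
    have h9 : InD ⟨Int.add (Int.sub acc.x u) (Int.ofNat (nat_lit 1048576)), Int.sub acc.y v,
        Nat.add acc.r r⟩ (s - ((1 - b * zs 0)⁻¹ - 1)) := by
      have h10 := InD_add (InD_add hs (InD_neg h8)) InD_one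
      have e : s + -(1 - b * zs 0)⁻¹ + 1 = s - ((1 - b * zs 0)⁻¹ - 1) := by ring
      rw [e] at h10
      refine InD_congr h10 ?_ ?_ ?_
      · show acc.x + -u + 1048576 = acc.x - u + 1048576
        ring
      · show acc.y + -v + 0 = acc.y - v
        ring
      · show acc.r + r + 0 = acc.r + r
        ring
    have hb' : ‖b * zs 0‖ ≤ 1 := by
      rw [norm_mul]
      exact mul_le_one₀ hb (norm_nonneg _) ((hz 0).trans hr1.le)
    have h11 := h6 (fun i => zs (i + 1)) (b * zs 0) _ hl.2 (fun l => hz (l + 1)) hb' h7 h9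
    have hs1 := summable_phi_prod hr0 hr1 hz hb
    rw [hs1.tsum_eq_zero_add]
    have e1 : ∀ i, b * ∏ l ∈ range (i + 1), zs l = b * zs 0 * ∏ l ∈ range i, zs (l + 1) := by
      intro i
      rw [prod_range_succ']
      ring
    simp only [e1, prod_range_zero, mul_one] at h11 ⊢
    have hne : 1 - b * zs 0 ≠ 0 := by
      refine ne_of_norm (r := (rn : ℝ) / rd) ?_ hr1
      rw [norm_mul]
      exact (mul_le_of_le_one_left (norm_nonneg _) hb).trans (hz 0)
    have e2 : (1 - b * zs 0)⁻¹ - 1 = b * zs 0 / (1 - b * zs 0) := by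
      field_simp; ring
    rw [e2] at h11
    have e3 : ∀ t : ℂ, s - (b * zs 0 / (1 - b * zs 0) + t) = s - b * zs 0 / (1 - b * zs 0) - t :=
      fun t => by ring
    rw [e3]
    exact h11

theorem sub_sound {a b : Dsc} (h : sub a b = true) {z : ℂ} (hz : InD a z) : InD b z := by
  unfold sub at h
  rw [and'_eq] at h
  obtain ⟨h1, h2⟩ := h
  have h1' : a.r ≤ b.r := Nat.le_of_ble_eq_true h1
  have h2' : (a.x - b.x).natAbs * (a.x - b.x).natAbs + (a.y - b.y).natAbs * (a.y - b.y).natAbs ≤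
    (b.r - a.r) * (b.r - a.r) := Nat.le_of_ble_eq_true h2
  have h3 := natAbs_sq (a.x - b.x) (a.y - b.y)
  rw [Int.cast_natCast] at h3
  have h4 : (((b.r - a.r) * (b.r - a.r) : ℕ) : ℝ) = ((b.r : ℝ) - a.r) ^ 2 := by
    rw [Nat.cast_mul, Nat.cast_sub h1']; ring
  have h5 : ((a.x - b.x : ℤ) : ℝ) * ((a.x - b.x : ℤ) : ℝ) +
      ((a.y - b.y : ℤ) : ℝ) * ((a.y - b.y : ℤ) : ℝ) ≤ ((b.r : ℝ) - a.r) ^ 2 := by
    rw [← h3, ← h4]
    exact_mod_cast h2'
  have h6 : ‖(⟨((a.x - b.x : ℤ) : ℝ), ((a.y - b.y : ℤ) : ℝ)⟩ : ℂ)‖ ≤ (b.r : ℝ) - a.r := by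
    refine le_of_sq_le_sq ?_ ?_
    · rw [Complex.sq_norm, Complex.normSq_apply]; exact h5
    · have : (a.r : ℝ) ≤ b.r := by exact_mod_cast h1'
      linarith
  unfold InD at *
  have e : (1048576 : ℂ) * z - (⟨(b.x : ℝ), (b.y : ℝ)⟩ : ℂ) =
      ((1048576 : ℂ) * z - ⟨(a.x : ℝ), (a.y : ℝ)⟩) +
        ⟨((a.x - b.x : ℤ) : ℝ), ((a.y - b.y : ℤ) : ℝ)⟩ := by
    have : (⟨((a.x - b.x : ℤ) : ℝ), ((a.y - b.y : ℤ) : ℝ)⟩ : ℂ) =
        ⟨(a.x : ℝ), (a.y : ℝ)⟩ - ⟨(b.x : ℝ), (b.y : ℝ)⟩ := by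
      apply Complex.ext <;> simp
    rw [this]; ring
  rw [e]
  refine (norm_add_le _ _).trans ?_
  linarith

theorem build_nil (q : Dsc) (k : List Dsc → List Dsc → Bool) : build q [] k = k [] [] := rfl

theorem build_cons (q t : Dsc) (ts : List Dsc) (k : List Dsc → List Dsc → Bool) :
    build q (t :: ts) k = invK (Int.add (Int.ofNat (nat_lit 1048576)) t.x) t.y t.r fun u v r =>
      mkK (Int.sub (Int.ofNat (nat_lit 1048576)) u) (Int.neg v) r fun tau =>
        mulK tau q fun xx => build q ts fun l1 l2 => k (tau :: l1) (xx :: l2) := rfl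

theorem build_sound (q : Dsc) (ts : List Dsc) : ∀ k : List Dsc → List Dsc → Bool,
    build q ts k = true → ∃ taus xxs, k taus xxs = true ∧ ∀ (z : ℂ) (T : ℕ → ℂ), InD q z →
      InL ts T → InL taus (fun i => tau (T i)) ∧ InL xxs (fun i => xs z T i) := by
  induction ts with
  | nil =>
    intro k h
    exact ⟨[], [], h, fun z T _ _ => ⟨InL_nil _, InL_nil _⟩⟩
  | cons t ts ih =>
    intro k h
    rw [build_cons] at h
    obtain ⟨u, v, r, h1, h2⟩ := invK_sound h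
    rw [mkK_eq] at h1
    obtain ⟨x, h3, h4⟩ := mulK_sound h1
    obtain ⟨l1, l2, h5, h6⟩ := ih _ h3
    refine ⟨_, _, h5, fun z T hz hT => ?_⟩
    rw [InL_cons] at hT
    have h7 := h6 z (fun i => T (i + 1)) hz hT.2
    have h8 : InD ⟨Int.add (Int.ofNat (nat_lit 1048576)) t.x, t.y, t.r⟩ (1 + T 0) := by
      have := InD_add InD_one (u := t.x) (v := t.y) (r := t.r) hT.1
      refine InD_congr this rfl ?_ ?_
      · show (0 : ℤ) + t.y = t.y
        ring
      · show 0 + t.r = t.r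
        ring
    obtain ⟨h9, h10⟩ := h2 _ h8
    have h11 : InD ⟨Int.sub (Int.ofNat (nat_lit 1048576)) u, Int.neg v, r⟩ (tau (T 0)) := by
      have := InD_one_sub (A := ⟨u, v, r⟩) h10
      have e : 1 - (1 + T 0)⁻¹ = tau (T 0) := by
        rw [tau]; field_simp; ring
      rw [e] at this
      exact this
    refine ⟨InL_cons.2 ⟨h11, h7.1⟩, InL_cons.2 ⟨?_, h7.2⟩⟩
    have := h4 _ _ h11 hz
    have e : tau (T 0) * z = xs z T 0 := by rw [xs]; ring
    rw [e] at this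
    exact this

theorem rows_nil (q : Dsc) (rn rd NB : ℕ) (left taus right : List Dsc) :
    rows q rn rd NB [] left taus right = true := rfl

theorem rows_cons (q : Dsc) (rn rd NB : ℕ) (b : Dsc) (bs left : List Dsc) (t : Dsc)
    (ts : List Dsc) (x : Dsc) (rs : List Dsc) :
    rows q rn rd NB (b :: bs) left (t :: ts) (x :: rs) =
      sumA left q ⟨0, 0, 0⟩ fun acc => sumB rn rd rs NB t acc fun out =>
          and' (sub out b) (rows q rn rd NB bs (x :: left) ts rs) := rfl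

theorem InD_zero : InD ⟨0, 0, 0⟩ 0 := by
  unfold InD
  have : (⟨((0 : ℤ) : ℝ), ((0 : ℤ) : ℝ)⟩ : ℂ) = 0 := by
    apply Complex.ext <;> simp
  simp only [this]
  simp

theorem rows_sound {q : Dsc} {rn rd NB : ℕ} (hrd : rn < rd) {z : ℂ} {T : ℕ → ℂ} (hz : InD q z)
    (hzn : ‖z‖ = (rn : ℝ) / rd) (hT : ∀ l, -1 / 2 ≤ (T l).re) (boxes : List Dsc) :
    ∀ (left taus right : List Dsc), rows q rn rd NB boxes left taus right = true →
      InL left (fun i => xs z T (left.length - 1 - i)) →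
      InL taus (fun i => tau (T (left.length + i))) →
      InL right (fun i => xs z T (left.length + i)) →
      InL boxes (fun i => Bmap z T (left.length + i)) := by
  induction boxes with
  | nil => intro _ _ _ _ _ _ _; exact InL_nil _
  | cons b bs ih =>
    intro left taus right h hl ht hr
    rcases taus with _ | ⟨t, ts⟩
    · exact absurd h (by simp [rows])
    rcases right with _ | ⟨x, rs⟩
    · exact absurd h (by simp [rows])
    rw [rows_cons] at h
    obtain ⟨acc, h1, h2⟩ := sumA_sound _ _ _ _ h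
    obtain ⟨out, h3, h4⟩ := sumB_sound hrd _ _ _ _ _ h1
    rw [and'_eq] at h3
    obtain ⟨h5, h6⟩ := h3
    rw [InL_cons] at ht hr ⊢
    have h7 := h2 (fun i => xs z T (left.length - 1 - i)) z 0 hl hz InD_zero
    have h8 := h4 (fun i => xs z T (left.length + (i + 1))) (tau (T (left.length + 0))) _ hr.2
      (fun l => by rw [← hzn]; exact norm_xs_le hT _) (norm_tau_le (hT _)) ht.1 h7
    refine ⟨?_, ?_⟩
    · refine sub_sound h5 ?_
      have e : Bmap z T (left.length + 0) = 0 + ∑ i ∈ range (left.length + 1),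
          (1 - z * ∏ l ∈ range i, xs z T (left.length - 1 - l))⁻¹ -
          ∑' i : ℕ, tau (T (left.length + 0)) *
            (∏ l ∈ range (i + 1), xs z T (left.length + (l + 1))) /
            (1 - tau (T (left.length + 0)) *
              ∏ l ∈ range (i + 1), xs z T (left.length + (l + 1))) := by
        rw [Bmap, zero_add, add_zero]
        have e1 : ∀ i, BB z T left.length (i + 1) = tau (T left.length) *
            ∏ l ∈ range (i + 1), xs z T (left.length + (l + 1)) := by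
          intro i
          rw [BB]
          congr 1
          refine prod_congr rfl fun l _ => ?_
          congr 1
          ring
        simp only [e1]
        rfl
      rw [e]
      exact h8
    · have h9 := ih (x :: left) ts rs h6 ?_ ?_ ?_
      · refine fun i hi => ?_
        have := h9 i hi
        beta_reduce at this ⊢
        rw [List.length_cons] at this
        rw [show left.length + (i + 1) = left.length + 1 + i by ring]
        exact this
      · rw [InL_cons, List.length_cons]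
        refine ⟨?_, fun i hi => ?_⟩
        · have := hr.1
          simpa using this
        · have := hl i hi
          beta_reduce at this ⊢
          rw [show left.length + 1 - 1 - (i + 1) = left.length - 1 - i by omega]
          exact this
      · intro i hi
        beta_reduce
        rw [List.length_cons, show left.length + 1 + i = left.length + (i + 1) by ring]
        exact ht.2 i hi
      · intro i hi
        beta_reduce
        rw [List.length_cons, show left.length + 1 + i = left.length + (i + 1) by ring]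
        exact hr.2 i hi

end Dsc

end SokalBethe
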