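import Mathlib

/-!
# The Bethe map
-/

namespace SokalBethe

open Filter Topology Finset

noncomputable def tau (T : ℂ) : ℂ := T / (1 + T)

/-- The ratios `a (l+1) / a l`. -/
noncomputable def xs (q : ℂ) (T : ℕ → ℂ) (l : ℕ) : ℂ := q * tau (T l)

/-- `q a_j / a_(j-i)`. -/
noncomputable def AA (q : ℂ) (T : ℕ → ℂ) (j i : ℕ) : ℂ :=
  q * ∏ l ∈ range i, xs q T (j - 1 - l)

/-- `a_(j+1+i) / (q a_j)`. -/
noncomputable def BB (q : ℂ) (T : ℕ → ℂ) (j i : ℕ) : ℂ :=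
  tau (T j) * ∏ l ∈ range i, xs q T (j + 1 + l)

/-- The Bethe map; the Bethe equations are `T j = Bmap q T j`. -/
noncomputable def Bmap (q : ℂ) (T : ℕ → ℂ) (j : ℕ) : ℂ :=
  ∑ i ∈ range (j + 1), (1 - AA q T j i)⁻¹ - ∑' i : ℕ, BB q T j (i + 1) / (1 - BB q T j (i + 1))

variable {q : ℂ} {T : ℕ → ℂ}

theorem one_add_ne {t : ℂ} (h : -1 / 2 ≤ t.re) : 1 + t ≠ 0 := by
  intro h0
  have := congrArg Complex.re h0
  simp only [Complex.add_re, Complex.one_re, Complex.zero_re] at this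
  linarith

theorem half_le_norm_one_add {t : ℂ} (h : -1 / 2 ≤ t.re) : 1 / 2 ≤ ‖1 + t‖ := by
  have h1 := Complex.re_le_norm (1 + t)
  simp only [Complex.add_re, Complex.one_re] at h1
  linarith

theorem norm_tau_le {t : ℂ} (h : -1 / 2 ≤ t.re) : ‖tau t‖ ≤ 1 := by
  have h0 : 0 < ‖1 + t‖ := norm_pos_iff.2 (one_add_ne h)
  rw [tau, norm_div, div_le_one h0]
  refine le_of_sq_le_sq ?_ (norm_nonneg _)
  rw [Complex.sq_norm, Complex.sq_norm, Complex.normSq_apply, Complex.normSq_apply]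
  simp only [Complex.add_re, Complex.one_re, Complex.add_im, Complex.one_im]
  nlinarith

theorem norm_tau_lt {t : ℂ} (h : -1 / 2 < t.re) : ‖tau t‖ < 1 := by
  have h0 : 0 < ‖1 + t‖ := norm_pos_iff.2 (one_add_ne h.le)
  rw [tau, norm_div, div_lt_one h0]
  refine lt_of_pow_lt_pow_left₀ 2 (norm_nonneg _) ?_
  rw [Complex.sq_norm, Complex.sq_norm, Complex.normSq_apply, Complex.normSq_apply]
  simp only [Complex.add_re, Complex.one_re, Complex.add_im, Complex.one_im]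
  nlinarith

theorem tau_eq {t : ℂ} (h : -1 / 2 ≤ t.re) : tau t / (1 - tau t) = t := by
  have h0 := one_add_ne h
  rw [tau]
  have : 1 - t / (1 + t) = 1 / (1 + t) := by field_simp; ring
  rw [this]
  field_simp

theorem norm_tau_sub {s t : ℂ} (hs : -1 / 2 ≤ s.re) (ht : -1 / 2 ≤ t.re) :
    ‖tau s - tau t‖ ≤ 4 * ‖s - t‖ := by
  have h1 := one_add_ne hs
  have h2 := one_add_ne ht
  have e : tau s - tau t = (s - t) / ((1 + s) * (1 + t)) := by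
    rw [tau, tau]; field_simp; ring
  have h3 := half_le_norm_one_add hs
  have h4 := half_le_norm_one_add ht
  rw [e, norm_div, norm_mul, div_le_iff₀ (by positivity)]
  have h5 : 1 / 4 ≤ ‖1 + s‖ * ‖1 + t‖ := by nlinarith
  nlinarith [norm_nonneg (s - t)]

theorem norm_xs_le (hT : ∀ l, -1 / 2 ≤ (T l).re) (l : ℕ) : ‖xs q T l‖ ≤ ‖q‖ := by
  rw [xs, norm_mul]
  exact mul_le_of_le_one_right (norm_nonneg _) (norm_tau_le (hT l))

theorem norm_AA_le (hT : ∀ l, -1 / 2 ≤ (T l).re) (j i : ℕ) : ‖AA q T j i‖ ≤ ‖q‖ ^ (i + 1) := by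
  rw [AA, norm_mul, norm_prod, pow_succ']
  gcongr
  calc ∏ l ∈ range i, ‖xs q T (j - 1 - l)‖ ≤ ∏ _l ∈ range i, ‖q‖ :=
        prod_le_prod (fun _ _ => norm_nonneg _) (fun l _ => norm_xs_le hT _)
    _ = ‖q‖ ^ i := by simp

theorem norm_BB_le (hT : ∀ l, -1 / 2 ≤ (T l).re) (j i : ℕ) : ‖BB q T j i‖ ≤ ‖q‖ ^ i := by
  rw [BB, norm_mul, norm_prod]
  calc ‖tau (T j)‖ * ∏ l ∈ range i, ‖xs q T (j + 1 + l)‖ ≤ 1 * ∏ _l ∈ range i, ‖q‖ := by
        gcongr with l _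
        · exact norm_tau_le (hT j)
        · exact norm_xs_le hT _
    _ = ‖q‖ ^ i := by simp

theorem norm_phi_le {u : ℂ} {r : ℝ} (hu : ‖u‖ ≤ r) (hr : r < 1) :
    ‖u / (1 - u)‖ ≤ r / (1 - r) := by
  have h1 : 1 - r ≤ ‖1 - u‖ := by
    have := norm_sub_norm_le (1 : ℂ) u
    rw [norm_one] at this
    linarith
  have h2 : 0 < 1 - r := by linarith
  have h3 : 0 ≤ r := (norm_nonneg _).trans hu
  rw [norm_div]
  gcongr

theorem ne_of_norm {u : ℂ} {r : ℝ} (hu : ‖u‖ ≤ r) (hr : r < 1) : 1 - u ≠ 0 := by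
  intro h
  have : u = 1 := (sub_eq_zero.1 h).symm
  rw [this, norm_one] at hu
  linarith

/-- `r^(i+1) / (1 - r^(i+1))`. -/
noncomputable def lam (r : ℝ) (i : ℕ) : ℝ := r ^ (i + 1) / (1 - r ^ (i + 1))

theorem lam_nonneg {r : ℝ} (h0 : 0 ≤ r) (h1 : r < 1) (i : ℕ) : 0 ≤ lam r i := by
  have : r ^ (i + 1) < 1 := pow_lt_one₀ h0 h1 (by omega)
  unfold lam
  have : 0 < 1 - r ^ (i + 1) := by linarith
  positivity

theorem lam_le {r : ℝ} (h0 : 0 ≤ r) (h1 : r < 1) (i : ℕ) :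
    lam r i ≤ r ^ (i + 1) / (1 - r) := by
  have h2 : r ^ (i + 1) ≤ r := by
    rw [pow_succ]
    exact mul_le_of_le_one_left h0 (pow_le_one₀ h0 h1.le)
  unfold lam
  have : 0 < 1 - r := by linarith
  gcongr

theorem summable_geo {r : ℝ} (h0 : 0 ≤ r) (h1 : r < 1) :
    Summable fun i : ℕ => r ^ (i + 1) / (1 - r) := by
  have := (summable_geometric_of_lt_one h0 h1).mul_left r
  refine (this.div_const (1 - r)).congr fun i => ?_
  rw [pow_succ']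

theorem summable_lam {r : ℝ} (h0 : 0 ≤ r) (h1 : r < 1) : Summable (lam r) :=
  Summable.of_nonneg_of_le (lam_nonneg h0 h1) (lam_le h0 h1) (summable_geo h0 h1)

theorem norm_phiB_le (hq : ‖q‖ < 1) (hT : ∀ l, -1 / 2 ≤ (T l).re) (j i : ℕ) :
    ‖BB q T j (i + 1) / (1 - BB q T j (i + 1))‖ ≤ lam ‖q‖ i :=
  norm_phi_le (norm_BB_le hT j (i + 1)) (pow_lt_one₀ (norm_nonneg _) hq (by omega))

theorem summable_phiB (hq : ‖q‖ < 1) (hT : ∀ l, -1 / 2 ≤ (T l).re) (j : ℕ) :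
    Summable fun i : ℕ => BB q T j (i + 1) / (1 - BB q T j (i + 1)) :=
  Summable.of_norm_bounded (summable_lam (norm_nonneg _) hq) (norm_phiB_le hq hT j)

theorem norm_Bmap_sub_le (hq : ‖q‖ < 1) (hT : ∀ l, -1 / 2 ≤ (T l).re) (j : ℕ) :
    ‖Bmap q T j - (j + 1)‖ ≤ 2 * ∑' i, lam ‖q‖ i := by
  have hs := summable_lam (norm_nonneg q) hq
  have h1 : ‖∑' i : ℕ, BB q T j (i + 1) / (1 - BB q T j (i + 1))‖ ≤ ∑' i, lam ‖q‖ i :=
    tsum_of_norm_bounded hs.hasSum (norm_phiB_le hq hT j)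
  have e : ∑ i ∈ range (j + 1), (1 - AA q T j i)⁻¹ - ((j : ℂ) + 1) =
      ∑ i ∈ range (j + 1), AA q T j i / (1 - AA q T j i) := by
    have : ((j : ℂ) + 1) = ∑ _i ∈ range (j + 1), (1 : ℂ) := by simp
    rw [this, ← sum_sub_distrib]
    refine sum_congr rfl fun i _ => ?_
    have h2 : 1 - AA q T j i ≠ 0 :=
      ne_of_norm (norm_AA_le hT j i) (pow_lt_one₀ (norm_nonneg _) hq (by omega))
    field_simp
    ring
  have h2 : ‖∑ i ∈ range (j + 1), (1 - AA q T j i)⁻¹ - ((j : ℂ) + 1)‖ ≤ ∑' i, lam ‖q‖ i := by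
    rw [e]
    calc ‖∑ i ∈ range (j + 1), AA q T j i / (1 - AA q T j i)‖
        ≤ ∑ i ∈ range (j + 1), lam ‖q‖ i :=
          norm_sum_le_of_le _ fun i _ =>
            norm_phi_le (norm_AA_le hT j i) (pow_lt_one₀ (norm_nonneg _) hq (by omega))
      _ ≤ ∑' i, lam ‖q‖ i := hs.sum_le_tsum _ fun i _ => lam_nonneg (norm_nonneg _) hq i
  have e2 : Bmap q T j - (j + 1) =
      (∑ i ∈ range (j + 1), (1 - AA q T j i)⁻¹ - ((j : ℂ) + 1)) -
        ∑' i : ℕ, BB q T j (i + 1) / (1 - BB q T j (i + 1)) := by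
    rw [Bmap]; ring
  rw [e2]
  refine (norm_sub_le _ _).trans ?_
  linarith

end SokalBethe
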