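import Pool.Agent.Lib_MP_af4de1_Bethe.Functional
import Pool.Agent.Lib_MP_af4de1_Bethe.Map

/-!
# From a fixed point of the Bethe map to the zeros of `F(z;q)`
-/

namespace SokalBethe

open Filter Topology Finset

variable {q : ℂ} {T : ℕ → ℂ}

/-- `a_k = ∏_{l<k} x_l`. -/
noncomputable def aa (q : ℂ) (T : ℕ → ℂ) (k : ℕ) : ℂ := ∏ l ∈ range k, xs q T l

theorem aa_succ (k : ℕ) : aa q T (k + 1) = aa q T k * xs q T k := prod_range_succ _ _

theorem aa_ne (hx : ∀ l, xs q T l ≠ 0) (k : ℕ) : aa q T k ≠ 0 :=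
  prod_ne_zero_iff.2 fun l _ => hx l

theorem aa_add (j i : ℕ) : aa q T (j + i) = aa q T j * ∏ l ∈ range i, xs q T (j + l) :=
  prod_range_add _ _ _

theorem AA_eq (_hx : ∀ l, xs q T l ≠ 0) {j i : ℕ} (h : i ≤ j) :
    AA q T j i * aa q T (j - i) = q * aa q T j := by
  have h1 : aa q T j = aa q T (j - i) * ∏ l ∈ range i, xs q T (j - i + l) := by
    rw [← aa_add]; congr 1; omega
  rw [h1, AA]
  have h2 : ∏ l ∈ range i, xs q T (j - i + l) = ∏ l ∈ range i, xs q T (j - 1 - l) := by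
    rw [← prod_range_reflect]
    refine prod_congr rfl fun l hl => ?_
    rw [mem_range] at hl
    congr 1
    omega
  rw [h2]
  ring

theorem BB_eq (j i : ℕ) : BB q T j i * (q * aa q T j) = aa q T (j + 1 + i) := by
  rw [aa_add, aa_succ, BB, xs]
  ring

theorem tau_ne (hq : ‖q‖ < 1) (hT : ∀ l, -1 / 2 < (T l).re) (hfix : ∀ j, T j = Bmap q T j)
    (j : ℕ) : tau (T j) ≠ 0 := by
  have hT' : ∀ l, -1 / 2 ≤ (T l).re := fun l => (hT l).le
  intro h
  have h0 : T j = 0 := by
    rw [tau, div_eq_zero_iff] at h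
    exact h.resolve_right (one_add_ne (hT' j))
  have h1 := hfix j
  have h2 : ∀ i, BB q T j i = 0 := fun i => by rw [BB, h, zero_mul]
  rw [Bmap] at h1
  simp only [h2, zero_div, tsum_zero, sub_zero] at h1
  rw [h0] at h1
  have h3 := congrArg Complex.re h1
  rw [Complex.re_sum, Complex.zero_re] at h3
  have h4 : ∀ i ∈ range (j + 1), 0 < ((1 - AA q T j i)⁻¹).re := by
    intro i _
    have h5 := norm_AA_le (q := q) hT' j i
    have h6 : ‖q‖ ^ (i + 1) < 1 := pow_lt_one₀ (norm_nonneg _) hq (by omega)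
    have h7 := ne_of_norm h5 h6
    rw [Complex.inv_re]
    have h8 : 0 < Complex.normSq (1 - AA q T j i) := Complex.normSq_pos.2 h7
    refine div_pos ?_ h8
    rw [Complex.sub_re, Complex.one_re]
    have h9 := Complex.re_le_norm (AA q T j i)
    linarith
  have h5 := sum_pos h4 (by simp)
  linarith

theorem bethe_sum (hq0 : q ≠ 0) (hq : ‖q‖ < 1) (hT : ∀ l, -1 / 2 < (T l).re)
    (hfix : ∀ j, T j = Bmap q T j) (j : ℕ) :
    ∑' k, aa q T k / (1 + aa q T k * (-1 / (q * aa q T j))) = 0 := by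
  have hT' : ∀ l, -1 / 2 ≤ (T l).re := fun l => (hT l).le
  have hx : ∀ l, xs q T l ≠ 0 := fun l => mul_ne_zero hq0 (tau_ne hq hT hfix l)
  have ha := aa_ne hx
  have hqa : q * aa q T j ≠ 0 := mul_ne_zero hq0 (ha j)
  -- the terms
  have t1 : ∀ i ≤ j, aa q T (j - i) / (1 + aa q T (j - i) * (-1 / (q * aa q T j))) =
      -(q * aa q T j) * (1 - AA q T j i)⁻¹ := by
    intro i hi
    have h1 := AA_eq hx hi
    have h2 : 1 - AA q T j i ≠ 0 :=
      ne_of_norm (norm_AA_le hT' j i) (pow_lt_one₀ (norm_nonneg _) hq (by omega))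
    have h3 := ha (j - i)
    have hA : AA q T j i ≠ 0 := by
      intro h; rw [h, zero_mul] at h1; exact hqa h1.symm
    rw [← h1]
    generalize AA q T j i = A at *
    generalize aa q T (j - i) = b at *
    have h4 : (1 : ℂ) + b * (-1 / (A * b)) = -(1 - A) / A := by
      field_simp; ring
    rw [h4]
    field_simp
  have t2 : ∀ i, aa q T (i + (j + 1)) / (1 + aa q T (i + (j + 1)) * (-1 / (q * aa q T j))) =
      (q * aa q T j) * (BB q T j i / (1 - BB q T j i)) := by
    intro i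
    have h1 := BB_eq (q := q) (T := T) j i
    rw [show i + (j + 1) = j + 1 + i by ring, ← h1]
    generalize BB q T j i = B at *
    generalize q * aa q T j = b at *
    have h4 : (1 : ℂ) + B * b * (-1 / b) = 1 - B := by
      field_simp; ring
    rw [h4]
    ring
  have hsB := summable_phiB hq hT' j
  have hsB' : Summable fun i : ℕ => BB q T j i / (1 - BB q T j i) :=
    (summable_nat_add_iff 1).1 hsB
  have hs2 : Summable fun i => aa q T (i + (j + 1)) /
      (1 + aa q T (i + (j + 1)) * (-1 / (q * aa q T j))) := by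
    simp only [t2]
    exact hsB'.mul_left _
  have hs : Summable fun k => aa q T k / (1 + aa q T k * (-1 / (q * aa q T j))) :=
    (summable_nat_add_iff (j + 1)).1 hs2
  rw [← hs.sum_add_tsum_nat_add (j + 1)]
  simp only [t2]
  rw [tsum_mul_left, hsB'.tsum_eq_zero_add]
  have h0 : BB q T j 0 = tau (T j) := by simp [BB]
  rw [h0, tau_eq (hT' j), ← sum_range_reflect]
  have h5 : ∑ k ∈ range (j + 1), aa q T (j + 1 - 1 - k) /
      (1 + aa q T (j + 1 - 1 - k) * (-1 / (q * aa q T j))) =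
      -(q * aa q T j) * ∑ i ∈ range (j + 1), (1 - AA q T j i)⁻¹ := by
    rw [mul_sum]
    refine sum_congr rfl fun i hi => ?_
    rw [mem_range] at hi
    rw [show j + 1 - 1 - i = j - i by omega]
    exact t1 i (by omega)
  rw [h5]
  have h6 := hfix j
  rw [Bmap] at h6
  linear_combination (q * aa q T j) * h6

/-- A fixed point of the Bethe map with `Re T_j > -1/2` gives the zeros of `F(z;q)`. -/
theorem zeros_of_fixed (hq0 : q ≠ 0) (hq : ‖q‖ < 1) (hT : ∀ l, -1 / 2 < (T l).re)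
    (hfix : ∀ j, T j = Bmap q T j) :
    ∃ z : ℕ → ℂ, (∀ k, SokalF.F q (z k) = 0) ∧ (∀ w, SokalF.F q w = 0 → ∃ k, w = z k) ∧
      (∀ k, deriv (SokalF.F q) (z k) ≠ 0) ∧ (∀ k, ‖z k‖ < ‖q‖ * ‖z (k + 1)‖) := by
  have hx : ∀ l, xs q T l ≠ 0 := fun l => mul_ne_zero hq0 (tau_ne hq hT hfix l)
  refine zeros_of_bethe hq0 hq (aa_ne hx) (fun k => ?_) (bethe_sum hq0 hq hT hfix)
  rw [aa_succ, norm_mul, mul_comm]
  have h1 : 0 < ‖aa q T k‖ := norm_pos_iff.2 (aa_ne hx k)
  have h2 : ‖xs q T k‖ < ‖q‖ := by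
    rw [xs, norm_mul]
    exact mul_lt_of_lt_one_right (norm_pos_iff.2 hq0) (norm_tau_lt (hT k))
  gcongr

end SokalBethe
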