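import Pool.Agent.Lib_MP_af4de1_Bethe.CellSound
import Pool.Agent.Lib_MP_af4de1_Bethe.Solve

/-!
# From checked cells on a circle to the zeros of `F(z;q)` inside
-/

namespace SokalBethe

open Filter Topology Finset

/-- The polynomial with the coefficients `cs / S`, lowest degree first. -/
noncomputable def peval (cs : List ℤ) (z : ℂ) : ℂ :=
  List.rec (motive := fun _ => ℂ) 0 (fun c _ ih => (c : ℂ) / 1048576 + z * ih) cs

theorem peval_nil (z : ℂ) : peval [] z = 0 := rfl

theorem peval_cons (c : ℤ) (cs : List ℤ) (z : ℂ) :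
    peval (c :: cs) z = (c : ℂ) / 1048576 + z * peval cs z := rfl

theorem differentiable_peval (cs : List ℤ) : Differentiable ℂ (peval cs) := by
  induction cs with
  | nil => exact differentiable_const 0
  | cons c cs ih =>
    have : peval (c :: cs) = fun z => (c : ℂ) / 1048576 + z * peval cs z := rfl
    rw [this]
    exact (differentiable_const _).add (differentiable_id.mul ih)

theorem peval_conj (cs : List ℤ) (z : ℂ) :
    peval cs (starRingEnd ℂ z) = starRingEnd ℂ (peval cs z) := by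
  induction cs with
  | nil => simp [peval_nil]
  | cons c cs ih =>
    rw [peval_cons, peval_cons, ih, map_add, map_mul, map_div₀, map_ofNat, map_intCast]

/-- The start of the iteration. -/
noncomputable def Kst (polys : List (List ℤ)) (j : ℕ) (z : ℂ) : ℂ :=
  if j < polys.length then peval (polys.getD j []) z else (j : ℂ) + 1

theorem differentiable_Kst (polys : List (List ℤ)) (j : ℕ) : Differentiable ℂ (Kst polys j) := by
  unfold Kst
  by_cases h : j < polys.length
  · simp only [h, if_true]; exact differentiable_peval _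
  · simp only [h, if_false]; exact differentiable_const _

theorem Kst_conj (polys : List (List ℤ)) (j : ℕ) (z : ℂ) :
    Kst polys j (starRingEnd ℂ z) = starRingEnd ℂ (Kst polys j z) := by
  unfold Kst
  by_cases h : j < polys.length
  · simp only [h, if_true]; exact peval_conj _ _
  · simp only [h, if_false]; simp

namespace Dsc

theorem horner_nil (q : Dsc) (k : Dsc → Bool) : horner q [] k = k ⟨0, 0, 0⟩ := rfl

theorem horner_cons (q : Dsc) (c : ℤ) (cs : List ℤ) (k : Dsc → Bool) :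
    horner q (c :: cs) k = horner q cs fun v => mulK v q fun w =>
      mkK (Int.add c w.x) w.y w.r k := rfl

theorem horner_sound (q : Dsc) (cs : List ℤ) : ∀ k : Dsc → Bool, horner q cs k = true →
    ∃ out, k out = true ∧ ∀ z, InD q z → InD out (peval cs z) := by
  induction cs with
  | nil =>
    intro k h
    exact ⟨_, h, fun z _ => InD_zero⟩
  | cons c cs ih =>
    intro k h
    rw [horner_cons] at h
    obtain ⟨v, h1, h2⟩ := ih _ h
    obtain ⟨w, h3, h4⟩ := mulK_sound h1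
    rw [mkK_eq] at h3
    refine ⟨_, h3, fun z hz => ?_⟩
    have h5 := h4 _ _ (h2 z hz) hz
    have h6 : InD ⟨c, 0, 0⟩ ((c : ℂ) / 1048576) := by
      unfold InD
      have e : (1048576 : ℂ) * ((c : ℂ) / 1048576) - (⟨(c : ℝ), ((0 : ℤ) : ℝ)⟩ : ℂ) = 0 := by
        have : (⟨(c : ℝ), ((0 : ℤ) : ℝ)⟩ : ℂ) = (c : ℂ) := by
          apply Complex.ext <;> simp
        rw [this]
        field_simp
        ring
      simp only [e]
      simp
    have h7 := InD_add h6 (u := w.x) (v := w.y) (r := w.r) h5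
    rw [peval_cons, mul_comm z]
    refine InD_congr h7 rfl ?_ ?_
    · show (0 : ℤ) + w.y = w.y
      ring
    · show 0 + w.r = w.r
      ring

theorem starts_sound (q : Dsc) (polys : List (List ℤ)) : ∀ boxes : List Dsc,
    starts q polys boxes = true → boxes.length = polys.length ∧ ∀ z, InD q z →
      InL boxes fun i => peval (polys.getD i []) z := by
  induction polys with
  | nil =>
    intro boxes h
    rcases boxes with _ | ⟨b, bs⟩
    · exact ⟨rfl, fun z _ => InL_nil _⟩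
    · exact absurd h (by simp [starts])
  | cons p ps ih =>
    intro boxes h
    rcases boxes with _ | ⟨b, bs⟩
    · exact absurd h (by simp [starts])
    have h' : (horner q p fun v => and' (sub v b) (starts q ps bs)) = true := h
    obtain ⟨v, h1, h2⟩ := horner_sound q p _ h'
    rw [and'_eq] at h1
    obtain ⟨h3, h4⟩ := ih bs h1.2
    refine ⟨by simp [h3], fun z hz => InL_cons.2 ⟨?_, ?_⟩⟩
    · exact sub_sound h1.1 (h2 z hz)
    · exact h4 z hz

theorem pos_sound {z : ℤ} (h : pos z = true) : 0 ≤ z := by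
  cases z with
  | ofNat n => exact Int.natCast_nonneg n
  | negSucc n => exact absurd h (by simp [pos])

theorem re_ge_of_InD {b : Dsc} {t : ℂ} (h : InD b t) : (b.x : ℝ) - b.r ≤ 1048576 * t.re := by
  unfold InD at h
  have h1 := (Complex.abs_re_le_norm _).trans h
  rw [Complex.sub_re] at h1
  have e : ((1048576 : ℂ) * t).re = 1048576 * t.re := by
    rw [show (1048576 : ℂ) = ((1048576 : ℝ) : ℂ) by norm_num, Complex.re_ofReal_mul]
  rw [e] at h1
  have := (abs_le.1 h1).1
  simp only at this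
  linarith

theorem allPos_sound (boxes : List Dsc) : allPos boxes = true → ∀ f : ℕ → ℂ, InL boxes f →
    ∀ i < boxes.length, -49 / 100 ≤ (f i).re := by
  induction boxes with
  | nil => intro _ f _ i hi; simp at hi
  | cons b bs ih =>
    intro h f hf i hi
    have h' : and' (pos (Int.add (Int.mul (Int.sub b.x (Int.ofNat b.r))
      (Int.ofNat (nat_lit 100))) (Int.ofNat (nat_lit 51380224)))) (allPos bs) = true := h
    rw [and'_eq] at h'
    rw [InL_cons] at hf
    rcases i with _ | i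
    · have h1 : (0 : ℤ) ≤ (b.x - b.r) * 100 + 51380224 := pos_sound h'.1
      have h2 := re_ge_of_InD hf.1
      have h3 : (0 : ℝ) ≤ ((b.x : ℝ) - b.r) * 100 + 51380224 := by exact_mod_cast h1
      linarith
    · exact ih h'.2 (fun i => f (i + 1)) hf.2 i (by simpa using hi)

end Dsc

/-- The discs of radius `MS / S` about `l + 1`, `l = J, J + 1, …`. -/
def mkTail (MS : ℕ) : ℕ → ℕ → List Dsc
  | 0, _ => []
  | n + 1, l => ⟨((l + 1) * 1048576 : ℕ), 0, MS⟩ :: mkTail MS n (l + 1)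

theorem mkTail_sound (MS : ℕ) (T : ℕ → ℂ) (n : ℕ) : ∀ J : ℕ,
    (∀ l ≥ J, ‖T l - (l + 1)‖ ≤ (MS : ℝ) / 1048576) → InL (mkTail MS n J) fun i => T (J + i) := by
  induction n with
  | zero => intro J _; exact InL_nil _
  | succ n ih =>
    intro J h
    refine InL_cons.2 ⟨?_, ?_⟩
    · unfold InD
      have h1 := h J le_rfl
      have e : (1048576 : ℂ) * T (J + 0) - (⟨((((J + 1) * 1048576 : ℕ) : ℤ) : ℝ), ((0 : ℤ) : ℝ)⟩ : ℂ) =
          (1048576 : ℂ) * (T J - (J + 1)) := by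
        have : (⟨((((J + 1) * 1048576 : ℕ) : ℤ) : ℝ), ((0 : ℤ) : ℝ)⟩ : ℂ) = ((J : ℂ) + 1) * 1048576 := by
          have h2 : ((J : ℂ) + 1) * 1048576 = ((((J : ℝ) + 1) * 1048576 : ℝ) : ℂ) := by push_cast; ring
          rw [h2]
          apply Complex.ext
          · rw [Complex.ofReal_re]; push_cast; rfl
          · rw [Complex.ofReal_im]; simp
        rw [this, add_zero]; ring
      simp only [e]
      rw [norm_mul, show (1048576 : ℂ) = ((1048576 : ℕ) : ℂ) by norm_num, Complex.norm_natCast]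
      rw [le_div_iff₀ (by norm_num)] at h1
      push_cast
      linarith
    · have h1 := ih (J + 1) (fun l hl => h l (by omega))
      intro i hi
      have := h1 i hi
      beta_reduce at this ⊢
      rw [show J + (i + 1) = J + 1 + i by ring]
      exact this

section Main

variable {rn rd NB MS : ℕ} {polys : List (List ℤ)}

theorem InL_append {l m : List Dsc} {f : ℕ → ℂ} (h1 : InL l f) (h2 : InL m fun i => f (l.length + i)) :
    InL (l ++ m) f := by
  induction l generalizing f with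
  | nil =>
    intro i hi
    have := h2 i hi
    simpa using this
  | cons a l ih =>
    rw [InL_cons] at h1
    refine InL_cons.2 ⟨h1.1, ih h1.2 ?_⟩
    intro i hi
    have := h2 i hi
    beta_reduce at this ⊢
    rw [List.length_cons] at this
    rw [show l.length + i + 1 = l.length + 1 + i by ring]
    exact this

theorem iter_good (hrd : rn < rd)
    (hM : 2 * ∑' i, lam ((rn : ℝ) / rd) i ≤ (MS : ℝ) / 1048576)
    (hJ : (MS : ℝ) / 1048576 ≤ polys.length + 1 + 49 / 100)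
    {q : Dsc} {boxes : List Dsc} {m : ℕ}
    (hc : Dsc.cell rn rd NB polys (mkTail MS m polys.length) q boxes = true)
    {z : ℂ} (hz : InD q z) (hzn : ‖z‖ = (rn : ℝ) / rd) (n : ℕ) :
    (∀ j, -1 / 2 + 1 / 100 ≤ (iter (Kst polys) z n j).re) ∧
    (∀ j, (0 < n ∨ polys.length ≤ j) → ‖iter (Kst polys) z n j - (j + 1)‖ ≤
      (MS : ℝ) / 1048576) := by
  unfold Dsc.cell at hc
  rw [Dsc.and'_eq, Dsc.and'_eq] at hc
  obtain ⟨hp, hs, hb⟩ := hc
  obtain ⟨hlen, hst⟩ := Dsc.starts_sound _ _ _ hs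
  obtain ⟨taus, xxs, hrow, hbs⟩ := Dsc.build_sound _ _ _ hb
  have hrd' : (0 : ℝ) < rd := by
    have : 0 < rd := by omega
    exact_mod_cast this
  have hr1 : (rn : ℝ) / rd < 1 := by
    rw [div_lt_one hrd']; exact_mod_cast hrd
  have hpos : ∀ T : ℕ → ℂ, InL boxes T →
      (∀ l ≥ polys.length, ‖T l - (l + 1)‖ ≤ (MS : ℝ) / 1048576) →
      ∀ j, -1 / 2 + 1 / 100 ≤ (T j).re := by
    intro T h1 h2 j
    rcases lt_or_ge j polys.length with hj | hj
    · have := Dsc.allPos_sound boxes hp T h1 j (by omega)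
      linarith
    · have h3 := (Complex.abs_re_le_norm _).trans (h2 j hj)
      have h4 : (T j - (j + 1)).re = (T j).re - (j + 1) := by
        simp
      rw [h4] at h3
      have h5 := (abs_le.1 h3).1
      have h6 : (polys.length : ℝ) ≤ j := by exact_mod_cast hj
      linarith
  have key : ∀ n, InL boxes (iter (Kst polys) z n) ∧ ∀ j, (0 < n ∨ polys.length ≤ j) →
      ‖iter (Kst polys) z n j - (j + 1)‖ ≤ (MS : ℝ) / 1048576 := by
    intro n
    induction n with
    | zero =>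
      refine ⟨fun i hi => ?_, fun j hj => ?_⟩
      · have h1 := hst z hz i hi
        have h2 : i < polys.length := by omega
        show InD boxes[i] (Kst polys i z)
        unfold Kst
        rw [if_pos h2]
        exact h1
      · have h2 : ¬ j < polys.length := by omega
        show ‖Kst polys j z - (j + 1)‖ ≤ _
        unfold Kst
        rw [if_neg h2, sub_self, norm_zero]
        positivity
    | succ n ih =>
      obtain ⟨h1, h2⟩ := ih
      have h2' : ∀ l ≥ polys.length, ‖iter (Kst polys) z n l - (l + 1)‖ ≤ (MS : ℝ) / 1048576 :=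
        fun l hl => h2 l (Or.inr hl)
      have h3 := hpos _ h1 h2'
      have h4 : ∀ l, -1 / 2 ≤ (iter (Kst polys) z n l).re := fun l => by linarith [h3 l]
      have h5 : InL (boxes ++ mkTail MS m polys.length) (iter (Kst polys) z n) := by
        refine InL_append h1 ?_
        rw [hlen]
        exact mkTail_sound MS _ m _ h2'
      obtain ⟨h6, h7⟩ := hbs z _ hz h5
      have h8 := Dsc.rows_sound hrd hz hzn h4 boxes [] taus xxs hrow (InL_nil _)
        (by simpa using h6) (by simpa using h7)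
      refine ⟨?_, fun j _ => ?_⟩
      · intro i hi
        have := h8 i hi
        beta_reduce at this
        rw [List.length_nil, zero_add] at this
        exact this
      · have h9 := norm_Bmap_sub_le (q := z) (by rw [hzn]; exact hr1) h4 j
        rw [hzn] at h9
        exact h9.trans hM
  obtain ⟨h1, h2⟩ := key n
  exact ⟨hpos _ h1 fun l hl => h2 l (Or.inr hl), h2⟩

theorem zeros_of_cells (hrn : 0 < rn) (hrd : rn < rd)
    (hM : 2 * ∑' i, lam ((rn : ℝ) / rd) i ≤ (MS : ℝ) / 1048576)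
    (hJ : (MS : ℝ) / 1048576 ≤ polys.length + 1 + 49 / 100) {m : ℕ}
    (hcov : ∀ z : ℂ, ‖z‖ = (rn : ℝ) / rd → 0 ≤ z.im → ∃ (q : Dsc) (boxes : List Dsc),
      Dsc.cell rn rd NB polys (mkTail MS m polys.length) q boxes = true ∧ InD q z)
    {q : ℂ} (hq0 : q ≠ 0) (hq : ‖q‖ < (rn : ℝ) / rd) :
    ∃ z : ℕ → ℂ, (∀ k, SokalF.F q (z k) = 0) ∧ (∀ w, SokalF.F q w = 0 → ∃ k, w = z k) ∧
      (∀ k, deriv (SokalF.F q) (z k) ≠ 0) ∧ (∀ k, ‖z k‖ < ‖q‖ * ‖z (k + 1)‖) := by
  have hrd' : (0 : ℝ) < rd := by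
    have : 0 < rd := by omega
    exact_mod_cast this
  have hrn' : (0 : ℝ) < rn := by exact_mod_cast hrn
  have hr1 : (rn : ℝ) / rd < 1 := by
    rw [div_lt_one hrd']; exact_mod_cast hrd
  have hr0 : 0 < (rn : ℝ) / rd := by positivity
  -- both half circles
  have hgood : ∀ z : ℂ, ‖z‖ = (rn : ℝ) / rd → ∀ n,
      (∀ j, -1 / 2 + 1 / 100 ≤ (iter (Kst polys) z n j).re) ∧
      (∀ j, (0 < n ∨ polys.length ≤ j) → ‖iter (Kst polys) z n j - (j + 1)‖ ≤
        (MS : ℝ) / 1048576) := by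
    intro z hz n
    rcases le_or_gt 0 z.im with h | h
    · obtain ⟨d, boxes, h1, h2⟩ := hcov z hz h
      exact iter_good hrd hM hJ h1 h2 hz n
    · obtain ⟨d, boxes, h1, h2⟩ := hcov (starRingEnd ℂ z) (by rw [Complex.norm_conj]; exact hz)
        (by rw [Complex.conj_im]; linarith)
      obtain ⟨h3, h4⟩ := iter_good hrd hM hJ h1 h2 (by rw [Complex.norm_conj]; exact hz) n
      have h5 := iter_conj (Kst polys) (Kst_conj polys) z n
      refine ⟨fun j => ?_, fun j hj => ?_⟩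
      · have := h3 j
        rw [h5, Complex.conj_re] at this
        exact this
      · have := h4 j hj
        rw [h5] at this
        have e : starRingEnd ℂ (iter (Kst polys) z n j) - ((j : ℂ) + 1) =
            starRingEnd ℂ (iter (Kst polys) z n j - (j + 1)) := by simp
        rw [e, Complex.norm_conj] at this
        exact this
  -- a bound for the start
  have hC : ∀ j, ∃ C : ℝ, ∀ z : ℂ, ‖z‖ = (rn : ℝ) / rd → ‖Kst polys j z - (j + 1)‖ ≤ C := by
    intro j
    obtain ⟨C, hC⟩ := (isCompact_closedBall (0 : ℂ) ((rn : ℝ) / rd)).exists_bound_of_continuousOn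
      (f := fun z => Kst polys j z - (j + 1))
      (((differentiable_Kst polys j).continuous.sub continuous_const).continuousOn)
    exact ⟨C, fun z hz => hC z (mem_closedBall_zero_iff.2 hz.le)⟩
  choose C hC using hC
  have hz0 : ‖((rn : ℂ) / rd)‖ = (rn : ℝ) / rd := by
    rw [norm_div, Complex.norm_natCast, Complex.norm_natCast]
  have hC0 : ∀ j, 0 ≤ C j := fun j => (norm_nonneg _).trans (hC j _ hz0)
  obtain ⟨T, hT, hfix⟩ := exists_fixed (r := (rn : ℝ) / rd) (δ := 1 / 100)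
    (C := (MS : ℝ) / 1048576 + ∑ j ∈ range polys.length, C j) hr0 hr1 (by norm_num)
    (Kst polys) (differentiable_Kst polys) (fun z hz n j => by
      obtain ⟨h1, h2⟩ := hgood z hz n
      refine ⟨h1 j, ?_⟩
      have hsum : 0 ≤ ∑ j ∈ range polys.length, C j := sum_nonneg fun j _ => hC0 j
      by_cases h : 0 < n ∨ polys.length ≤ j
      · have := h2 j h
        linarith
      · push Not at h
        have hn : n = 0 := by omega
        subst hn
        have h3 : C j ≤ ∑ j ∈ range polys.length, C j :=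
          single_le_sum (f := C) (fun i _ => hC0 i) (mem_range.2 h.2)
        have h4 := hC j z hz
        have h5 : 0 ≤ (MS : ℝ) / 1048576 := by positivity
        show ‖Kst polys j z - (j + 1)‖ ≤ _
        linarith) hq
  exact zeros_of_fixed hq0 (hq.trans hr1) hT hfix

/-! ### Covering the upper half circle -/

/-- A cell of the covering with its boxes. -/
structure CellT where
  b : ℤ
  b2 : ℤ
  ylo : ℤ
  yhi : ℤ
  q : Dsc
  boxes : List Dsc

/-- The part of the upper half circle `|Z| = R` with `b ≤ Re Z ≤ b2` lies in the disc. -/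
def CellT.Geo (R : ℤ) (c : CellT) : Prop :=
  (0 ≤ c.b ∨ c.b2 ≤ 0) ∧ 0 ≤ c.ylo ∧ 0 ≤ c.yhi ∧
    c.ylo * c.ylo + c.b * c.b ≤ R * R ∧ c.ylo * c.ylo + c.b2 * c.b2 ≤ R * R ∧
    R * R ≤ c.yhi * c.yhi + c.b * c.b ∧ R * R ≤ c.yhi * c.yhi + c.b2 * c.b2 ∧
    (c.b - c.q.x) * (c.b - c.q.x) + (c.ylo - c.q.y) * (c.ylo - c.q.y) ≤ (c.q.r : ℤ) * c.q.r ∧
    (c.b - c.q.x) * (c.b - c.q.x) + (c.yhi - c.q.y) * (c.yhi - c.q.y) ≤ (c.q.r : ℤ) * c.q.r ∧
    (c.b2 - c.q.x) * (c.b2 - c.q.x) + (c.ylo - c.q.y) * (c.ylo - c.q.y) ≤ (c.q.r : ℤ) * c.q.r ∧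
    (c.b2 - c.q.x) * (c.b2 - c.q.x) + (c.yhi - c.q.y) * (c.yhi - c.q.y) ≤ (c.q.r : ℤ) * c.q.r

instance (R : ℤ) (c : CellT) : Decidable (c.Geo R) := by
  unfold CellT.Geo; infer_instance

theorem sq_le_of_mem {a b c x : ℝ} (h1 : a ≤ x) (h2 : x ≤ b) :
    (x - c) ^ 2 ≤ (a - c) ^ 2 ∨ (x - c) ^ 2 ≤ (b - c) ^ 2 := by
  rcases le_total x c with h | h
  · left; nlinarith
  · right; nlinarith

theorem CellT.Geo.inD {R : ℕ} {c : CellT} (h : c.Geo R) {z : ℂ}
    (hz : ‖z‖ = (R : ℝ) / 1048576) (hy : 0 ≤ z.im) (h1 : (c.b : ℝ) ≤ 1048576 * z.re)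
    (h2 : 1048576 * z.re ≤ c.b2) : InD c.q z := by
  obtain ⟨g0, g1, g2, g3, g4, g5, g6, g7, g8, g9, g10⟩ := h
  set X : ℝ := 1048576 * z.re with hX
  set Y : ℝ := 1048576 * z.im with hY
  have hXY : X ^ 2 + Y ^ 2 = (R : ℝ) ^ 2 := by
    have e1 : ‖z‖ ^ 2 = z.re ^ 2 + z.im ^ 2 := by
      rw [Complex.sq_norm, Complex.normSq_apply]; ring
    rw [hz] at e1
    rw [hX, hY]
    have e2 : (R : ℝ) ^ 2 = 1048576 ^ 2 * ((R : ℝ) / 1048576) ^ 2 := by field_simp
    rw [e2, e1]; ring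
  have hY0 : 0 ≤ Y := by positivity
  have g1' : (0 : ℝ) ≤ c.ylo := by exact_mod_cast g1
  have g2' : (0 : ℝ) ≤ c.yhi := by exact_mod_cast g2
  have g3' : (c.ylo : ℝ) * c.ylo + (c.b : ℝ) * c.b ≤ (R : ℝ) * R := by exact_mod_cast g3
  have g4' : (c.ylo : ℝ) * c.ylo + (c.b2 : ℝ) * c.b2 ≤ (R : ℝ) * R := by exact_mod_cast g4
  have g5' : (R : ℝ) * R ≤ (c.yhi : ℝ) * c.yhi + (c.b : ℝ) * c.b := by exact_mod_cast g5
  have g6' : (R : ℝ) * R ≤ (c.yhi : ℝ) * c.yhi + (c.b2 : ℝ) * c.b2 := by exact_mod_cast g6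
  have g7' : ((c.b : ℝ) - c.q.x) * (c.b - c.q.x) + ((c.ylo : ℝ) - c.q.y) * (c.ylo - c.q.y) ≤
    (c.q.r : ℝ) * c.q.r := by exact_mod_cast g7
  have g8' : ((c.b : ℝ) - c.q.x) * (c.b - c.q.x) + ((c.yhi : ℝ) - c.q.y) * (c.yhi - c.q.y) ≤
    (c.q.r : ℝ) * c.q.r := by exact_mod_cast g8
  have g9' : ((c.b2 : ℝ) - c.q.x) * (c.b2 - c.q.x) + ((c.ylo : ℝ) - c.q.y) * (c.ylo - c.q.y) ≤
    (c.q.r : ℝ) * c.q.r := by exact_mod_cast g9
  have g10' : ((c.b2 : ℝ) - c.q.x) * (c.b2 - c.q.x) + ((c.yhi : ℝ) - c.q.y) * (c.yhi - c.q.y) ≤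
    (c.q.r : ℝ) * c.q.r := by exact_mod_cast g10
  have hY1 : (c.ylo : ℝ) ≤ Y := by
    refine le_of_sq_le_sq ?_ hY0
    rcases g0 with g0 | g0
    · have g0' : (0 : ℝ) ≤ c.b := by exact_mod_cast g0
      nlinarith
    · have g0' : (c.b2 : ℝ) ≤ 0 := by exact_mod_cast g0
      nlinarith
  have hY2 : Y ≤ c.yhi := by
    refine le_of_sq_le_sq ?_ g2'
    rcases g0 with g0 | g0
    · have g0' : (0 : ℝ) ≤ c.b := by exact_mod_cast g0
      nlinarith
    · have g0' : (c.b2 : ℝ) ≤ 0 := by exact_mod_cast g0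
      nlinarith
  unfold InD
  have hfin : (X - c.q.x) ^ 2 + (Y - c.q.y) ^ 2 ≤ (c.q.r : ℝ) ^ 2 := by
    rcases sq_le_of_mem (c := (c.q.x : ℝ)) h1 h2 with h3 | h3 <;>
    rcases sq_le_of_mem (c := (c.q.y : ℝ)) hY1 hY2 with h4 | h4 <;> nlinarith
  refine le_of_sq_le_sq ?_ (Nat.cast_nonneg _)
  rw [Complex.sq_norm, Complex.normSq_apply, Complex.sub_re, Complex.sub_im]
  have e1 : ((1048576 : ℂ) * z).re = X := by
    rw [show (1048576 : ℂ) = ((1048576 : ℝ) : ℂ) by norm_num, Complex.re_ofReal_mul]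
  have e2 : ((1048576 : ℂ) * z).im = Y := by
    rw [show (1048576 : ℂ) = ((1048576 : ℝ) : ℂ) by norm_num, Complex.im_ofReal_mul]
  rw [e1, e2]
  nlinarith

/-- Consecutive cells from the right end `hi` to the left end `lo`. -/
def chain (lo : ℤ) : List CellT → ℤ → Prop
  | [], hi => hi ≤ lo
  | c :: cs, hi => hi ≤ c.b2 ∧ chain lo cs c.b

instance chainDec (lo : ℤ) : ∀ (cs : List CellT) (hi : ℤ), Decidable (chain lo cs hi)
  | [], hi => inferInstanceAs (Decidable (hi ≤ lo))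
  | c :: cs, _ => @instDecidableAnd _ _ _ (chainDec lo cs c.b)

theorem chain_cover {lo : ℤ} (cs : List CellT) : ∀ hi : ℤ, chain lo cs hi → ∀ X : ℝ,
    (lo : ℝ) ≤ X → X < hi → ∃ c ∈ cs, (c.b : ℝ) ≤ X ∧ X ≤ c.b2 := by
  induction cs with
  | nil =>
    intro hi h X h1 h2
    have h3 : (hi : ℝ) ≤ lo := by exact_mod_cast h
    linarith
  | cons c cs ih =>
    intro hi h X h1 h2
    obtain ⟨h3, h4⟩ := h
    have h3' : (hi : ℝ) ≤ c.b2 := by exact_mod_cast h3
    rcases le_or_gt (c.b : ℝ) X with h5 | h5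
    · exact ⟨c, by simp, h5, by linarith⟩
    · obtain ⟨c', h6, h7⟩ := ih c.b h4 X h1 h5
      exact ⟨c', List.mem_cons_of_mem _ h6, h7⟩

theorem chain_cover' {lo hi : ℤ} {cs : List CellT} (hne : cs ≠ []) (h : chain lo cs hi) {X : ℝ}
    (h1 : (lo : ℝ) ≤ X) (h2 : X ≤ hi) : ∃ c ∈ cs, (c.b : ℝ) ≤ X ∧ X ≤ c.b2 := by
  rcases h2.lt_or_eq with h2 | h2
  · exact chain_cover cs hi h X h1 h2
  · rcases cs with _ | ⟨c, cs⟩
    · exact absurd rfl hne
    · obtain ⟨h3, h4⟩ := h
      have h3' : (hi : ℝ) ≤ c.b2 := by exact_mod_cast h3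
      rcases le_or_gt (c.b : ℝ) X with h5 | h5
      · exact ⟨c, by simp, h5, by linarith⟩
      · obtain ⟨c', h6, h7⟩ := chain_cover cs c.b h4 X h1 h5
        exact ⟨c', List.mem_cons_of_mem _ h6, h7⟩

/-- The zeros of `F(z;q)` in the disc from a checked chain of cells. -/
theorem zeros_of_chain (hrn : 0 < rn) (hrd : rn < rd)
    (hM : 2 * ∑' i, lam ((rn : ℝ) / rd) i ≤ (MS : ℝ) / 1048576)
    (hJ : (MS : ℝ) / 1048576 ≤ polys.length + 1 + 49 / 100) {m R : ℕ}
    (hR : R * rd = 1048576 * rn) {cs : List CellT} (hne : cs ≠ []) (hch : chain (-R) cs R)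
    (hcs : ∀ c ∈ cs, c.Geo R ∧
      Dsc.cell rn rd NB polys (mkTail MS m polys.length) c.q c.boxes = true)
    {q : ℂ} (hq0 : q ≠ 0) (hq : ‖q‖ < (rn : ℝ) / rd) :
    ∃ z : ℕ → ℂ, (∀ k, SokalF.F q (z k) = 0) ∧ (∀ w, SokalF.F q w = 0 → ∃ k, w = z k) ∧
      (∀ k, deriv (SokalF.F q) (z k) ≠ 0) ∧ (∀ k, ‖z k‖ < ‖q‖ * ‖z (k + 1)‖) := by
  refine zeros_of_cells hrn hrd hM hJ (NB := NB) (m := m) (fun z hz hy => ?_) hq0 hq
  have hrd' : (0 : ℝ) < rd := by
    have : 0 < rd := by omega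
    exact_mod_cast this
  have hR' : (rn : ℝ) / rd = (R : ℝ) / 1048576 := by
    rw [div_eq_div_iff hrd'.ne' (by norm_num)]
    have : ((R * rd : ℕ) : ℝ) = ((1048576 * rn : ℕ) : ℝ) := by rw [hR]
    push_cast at this
    linarith
  rw [hR'] at hz
  have h1 := (Complex.abs_re_le_norm z).trans hz.le
  have h2 := abs_le.1 h1
  obtain ⟨c, hc, h3, h4⟩ := chain_cover' (X := 1048576 * z.re) hne hch (by
    have := h2.1
    push_cast
    rw [neg_le_iff_add_nonneg, div_eq_mul_inv] at this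
    linarith) (by
    have := h2.2
    rw [div_eq_mul_inv] at this
    push_cast
    linarith)
  obtain ⟨h5, h6⟩ := hcs c hc
  exact ⟨c.q, c.boxes, h6, h5.inD hz hy h3 h4⟩

end Main

end SokalBethe
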