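import Pool.Agent.Lib_MP_af4de1_Bethe.Product

/-!
# The Bethe equations imply `G' (w) = G' (0) G (q w)`
-/

namespace SokalBethe

open Filter Topology

variable {a : ℕ → ℂ} {q : ℂ}

theorem norm_decay (h2 : ∀ k, ‖a (k + 1)‖ ≤ ‖q‖ * ‖a k‖) (k m : ℕ) :
    ‖a (k + m)‖ ≤ ‖q‖ ^ m * ‖a k‖ := by
  induction m with
  | zero => simp
  | succ m ih =>
    calc ‖a (k + (m + 1))‖ ≤ ‖q‖ * ‖a (k + m)‖ := h2 (k + m)
      _ ≤ ‖q‖ * (‖q‖ ^ m * ‖a k‖) := by gcongr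
      _ = ‖q‖ ^ (m + 1) * ‖a k‖ := by ring

theorem summable_a (hq : ‖q‖ < 1) (h2 : ∀ k, ‖a (k + 1)‖ ≤ ‖q‖ * ‖a k‖) :
    Summable fun k => ‖a k‖ := by
  refine Summable.of_nonneg_of_le (fun k => norm_nonneg _) (fun k => ?_)
    ((summable_geometric_of_lt_one (norm_nonneg q) hq).mul_right ‖a 0‖)
  simpa using norm_decay h2 0 k

theorem a_ne (hq : ‖q‖ < 1) (h1 : ∀ k, a k ≠ 0)
    (h2 : ∀ k, ‖a (k + 1)‖ ≤ ‖q‖ * ‖a k‖) (h3 : ∀ k, a (k + 1) ≠ q * a k) (hq0 : q ≠ 0)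
    (k j : ℕ) : a k ≠ q * a j := by
  intro h
  have hr : 0 < ‖q‖ := norm_pos_iff.2 hq0
  have hn : ‖a k‖ = ‖q‖ * ‖a j‖ := by rw [h, norm_mul]
  have hj : 0 < ‖a j‖ := norm_pos_iff.2 (h1 j)
  have hk : 0 < ‖a k‖ := norm_pos_iff.2 (h1 k)
  rcases le_or_gt k j with hkj | hkj
  · obtain ⟨m, rfl⟩ := Nat.exists_eq_add_of_le hkj
    have h5 := norm_decay h2 k m
    have h6 : ‖q‖ ^ m * ‖a k‖ ≤ ‖a k‖ :=
      mul_le_of_le_one_left hk.le (pow_le_one₀ hr.le hq.le)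
    nlinarith
  · rcases Nat.eq_or_lt_of_le (Nat.succ_le_of_lt hkj) with h5 | h5
    · exact h3 j (by rw [← h, ← h5])
    · obtain ⟨m, rfl⟩ := Nat.exists_eq_add_of_le (Nat.succ_le_of_lt h5)
      have h6 := norm_decay h2 j (m + 2)
      rw [show j + (m + 2) = (j.succ).succ + m by omega] at h6
      have h7 : ‖q‖ ^ (m + 2) ≤ ‖q‖ ^ 2 := pow_le_pow_of_le_one hr.le hq.le (by omega)
      have h8 : ‖q‖ ^ (m + 2) * ‖a j‖ ≤ ‖q‖ ^ 2 * ‖a j‖ := by gcongr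
      have h9 : ‖q‖ ^ 2 * ‖a j‖ < ‖q‖ * ‖a j‖ := by
        have : ‖q‖ ^ 2 < ‖q‖ := by nlinarith
        gcongr
      have h10 : ‖a (j.succ.succ + m)‖ = ‖q‖ * ‖a j‖ := hn
      linarith

/-- The critical points of `G`. -/
theorem deriv_G_eq_zero (hq0 : q ≠ 0) (hq : ‖q‖ < 1) (h1 : ∀ k, a k ≠ 0)
    (h2 : ∀ k, ‖a (k + 1)‖ ≤ ‖q‖ * ‖a k‖) (h3 : ∀ k, a (k + 1) ≠ q * a k)
    (h4 : ∀ j, ∑' k, a k / (1 + a k * (-1 / (q * a j))) = 0) (j : ℕ) :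
    deriv (G a) (-1 / (q * a j)) = 0 := by
  rw [deriv_G (summable_a hq h2), h4 j, mul_zero]
  intro k hk
  have h5 : q * a j ≠ 0 := mul_ne_zero hq0 (h1 j)
  refine a_ne hq h1 h2 h3 hq0 k j ?_
  have e : a k * (-1 / (q * a j)) = -(a k / (q * a j)) := by ring
  rw [e] at hk
  exact (div_eq_one_iff_eq h5).1 (by linear_combination -hk)

section circle

variable {s : ℝ} {n : ℕ} {w : ℂ}

theorem x_ge (hs0 : 0 < s) (hs : s ^ 2 = ‖q‖) (h1 : ∀ k, a k ≠ 0)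
    (h2 : ∀ k, ‖a (k + 1)‖ ≤ ‖q‖ * ‖a k‖) (hw : ‖w‖ = 1 / (s * ‖a n‖)) {k m : ℕ}
    (hk : n = k + m) : 1 ≤ s * (s ^ 2) ^ m * (‖a k‖ * ‖w‖) := by
  have hn : 0 < ‖a n‖ := norm_pos_iff.2 (h1 n)
  have h5 := norm_decay h2 k m
  rw [← hk, ← hs] at h5
  have e : s * (s ^ 2) ^ m * (‖a k‖ * ‖w‖) = ((s ^ 2) ^ m * ‖a k‖) / ‖a n‖ := by
    rw [hw]; field_simp
  rw [e, le_div_iff₀ hn]
  linarith

theorem x_le (hs0 : 0 < s) (hs : s ^ 2 = ‖q‖) (h1 : ∀ k, a k ≠ 0)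
    (h2 : ∀ k, ‖a (k + 1)‖ ≤ ‖q‖ * ‖a k‖) (hw : ‖w‖ = 1 / (s * ‖a n‖)) {k m : ℕ}
    (hk : k = n + m + 1) : ‖a k‖ * ‖w‖ ≤ s * (s ^ 2) ^ m := by
  have hn : 0 < ‖a n‖ := norm_pos_iff.2 (h1 n)
  have h5 := norm_decay h2 n (m + 1)
  rw [show n + (m + 1) = k by omega, ← hs] at h5
  rw [hw]
  have e : ‖a k‖ * (1 / (s * ‖a n‖)) = ‖a k‖ / (s * ‖a n‖) := by ring
  rw [e, div_le_iff₀ (by positivity)]
  calc ‖a k‖ ≤ (s ^ 2) ^ (m + 1) * ‖a n‖ := h5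
    _ = s * (s ^ 2) ^ m * (s * ‖a n‖) := by ring

theorem factor_lower (hs0 : 0 < s) (hs1 : s < 1) (hs : s ^ 2 = ‖q‖) (h1 : ∀ k, a k ≠ 0)
    (h2 : ∀ k, ‖a (k + 1)‖ ≤ ‖q‖ * ‖a k‖) (hw : ‖w‖ = 1 / (s * ‖a n‖)) (k : ℕ) :
    (k ≤ n → (1 - s) * (‖a k‖ * ‖w‖) ≤ ‖1 + a k * w‖) ∧ (n < k → 1 - s ≤ ‖1 + a k * w‖) := by
  have hs2 : s ^ 2 ≤ 1 := by nlinarith
  constructor
  · intro hk
    obtain ⟨m, hm⟩ := Nat.exists_eq_add_of_le hk
    have h5 := x_ge hs0 hs h1 h2 hw hm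
    have hx : 0 ≤ ‖a k‖ * ‖w‖ := by positivity
    have h6 : s * (s ^ 2) ^ m * (‖a k‖ * ‖w‖) ≤ s * (‖a k‖ * ‖w‖) := by
      have : (s ^ 2) ^ m ≤ 1 := pow_le_one₀ (by positivity) hs2
      have h7 : s * (s ^ 2) ^ m ≤ s := by nlinarith
      gcongr
    have h8 : ‖a k * w‖ - 1 ≤ ‖1 + a k * w‖ := by
      have := norm_sub_norm_le (a k * w) (-1 : ℂ)
      rw [norm_neg, norm_one, sub_neg_eq_add, add_comm (a k * w)] at this
      exact this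
    rw [norm_mul] at h8
    nlinarith
  · intro hk
    obtain ⟨m, hm⟩ := Nat.exists_eq_add_of_lt hk
    have h5 := x_le hs0 hs h1 h2 hw hm
    have h6 : s * (s ^ 2) ^ m ≤ s := by
      have : (s ^ 2) ^ m ≤ 1 := pow_le_one₀ (by positivity) hs2
      nlinarith
    have h8 : 1 - ‖a k * w‖ ≤ ‖1 + a k * w‖ := by
      have := norm_sub_norm_le (1 : ℂ) (-(a k * w))
      rw [norm_neg, norm_one, sub_neg_eq_add] at this
      exact this
    rw [norm_mul] at h8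
    linarith

theorem factor_ne (hs0 : 0 < s) (hs1 : s < 1) (hs : s ^ 2 = ‖q‖) (h1 : ∀ k, a k ≠ 0)
    (h2 : ∀ k, ‖a (k + 1)‖ ≤ ‖q‖ * ‖a k‖) (hw : ‖w‖ = 1 / (s * ‖a n‖)) (k : ℕ) :
    1 + a k * w ≠ 0 := by
  have h5 := factor_lower hs0 hs1 hs h1 h2 hw k
  have hn : 0 < ‖a n‖ := norm_pos_iff.2 (h1 n)
  have hk : 0 < ‖a k‖ := norm_pos_iff.2 (h1 k)
  have hw0 : 0 < ‖w‖ := by rw [hw]; positivity
  rw [← norm_pos_iff]
  have h6 : 0 < 1 - s := by linarith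
  rcases le_or_gt k n with h | h
  · exact lt_of_lt_of_le (by positivity) (h5.1 h)
  · exact lt_of_lt_of_le h6 (h5.2 h)

theorem logderiv_bound (hs0 : 0 < s) (hs1 : s < 1) (hs : s ^ 2 = ‖q‖) (h1 : ∀ k, a k ≠ 0)
    (h2 : ∀ k, ‖a (k + 1)‖ ≤ ‖q‖ * ‖a k‖) (hw : ‖w‖ = 1 / (s * ‖a n‖)) :
    ‖∑' k, a k / (1 + a k * w)‖ ≤ ((n + 1) * s + s ^ 2 / (1 - s ^ 2)) / (1 - s) * ‖a n‖ := by
  have hq : ‖q‖ < 1 := by rw [← hs]; nlinarith
  have ha := summable_a hq h2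
  have hn : 0 < ‖a n‖ := norm_pos_iff.2 (h1 n)
  have h6 : 0 < 1 - s := by linarith
  have hr : 0 < 1 - s ^ 2 := by nlinarith
  have hb : ∀ k, ‖a k / (1 + a k * w)‖ ≤
      if k < n + 1 then s * ‖a n‖ / (1 - s) else ‖a k‖ / (1 - s) := by
    intro k
    have h5 := factor_lower hs0 hs1 hs h1 h2 hw k
    have hk : 0 < ‖a k‖ := norm_pos_iff.2 (h1 k)
    rw [norm_div]
    split_ifs with h
    · have h7 := h5.1 (by omega)
      have hw0 : 0 < ‖w‖ := by rw [hw]; positivity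
      calc ‖a k‖ / ‖1 + a k * w‖ ≤ ‖a k‖ / ((1 - s) * (‖a k‖ * ‖w‖)) := by gcongr
        _ = s * ‖a n‖ / (1 - s) := by rw [hw]; field_simp
    · have h7 := h5.2 (by omega)
      gcongr
  have hs2 : Summable fun k => if k < n + 1 then s * ‖a n‖ / (1 - s) else ‖a k‖ / (1 - s) := by
    rw [← summable_nat_add_iff (n + 1)]
    refine (((summable_nat_add_iff (n + 1)).2 ha).div_const (1 - s)).congr fun k => ?_
    rw [if_neg (by omega)]
  have h7 : ‖∑' k, a k / (1 + a k * w)‖ ≤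
      ∑' k, if k < n + 1 then s * ‖a n‖ / (1 - s) else ‖a k‖ / (1 - s) :=
    tsum_of_norm_bounded hs2.hasSum hb
  refine h7.trans ?_
  rw [← hs2.sum_add_tsum_nat_add (n + 1)]
  have e1 : ∑ k ∈ Finset.range (n + 1),
      (if k < n + 1 then s * ‖a n‖ / (1 - s) else ‖a k‖ / (1 - s)) =
      (n + 1) * (s * ‖a n‖ / (1 - s)) := by
    rw [Finset.sum_congr rfl (g := fun _ => s * ‖a n‖ / (1 - s))]
    · rw [Finset.sum_const, Finset.card_range, nsmul_eq_mul]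
      push_cast
      ring
    · intro k hk
      rw [if_pos (Finset.mem_range.1 hk)]
  have e2 : ∑' k, (if k + (n + 1) < n + 1 then s * ‖a n‖ / (1 - s) else
      ‖a (k + (n + 1))‖ / (1 - s)) ≤ s ^ 2 / (1 - s ^ 2) * ‖a n‖ / (1 - s) := by
    have h8 : ∀ k, (if k + (n + 1) < n + 1 then s * ‖a n‖ / (1 - s) else
        ‖a (k + (n + 1))‖ / (1 - s)) ≤ (s ^ 2) ^ k * (s ^ 2 * ‖a n‖ / (1 - s)) := by
      intro k
      rw [if_neg (by omega)]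
      have h9 := norm_decay h2 n (k + 1)
      rw [show n + (k + 1) = k + (n + 1) by omega, ← hs] at h9
      calc ‖a (k + (n + 1))‖ / (1 - s) ≤ ((s ^ 2) ^ (k + 1) * ‖a n‖) / (1 - s) := by gcongr
        _ = (s ^ 2) ^ k * (s ^ 2 * ‖a n‖ / (1 - s)) := by ring
    have h10 : HasSum (fun k : ℕ => (s ^ 2) ^ k * (s ^ 2 * ‖a n‖ / (1 - s)))
        ((1 - s ^ 2)⁻¹ * (s ^ 2 * ‖a n‖ / (1 - s))) :=
      (hasSum_geometric_of_lt_one (by positivity) (by nlinarith)).mul_right _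
    have h11 := ((summable_nat_add_iff (n + 1)).2 hs2).tsum_le_tsum h8 h10.summable
    rw [h10.tsum_eq] at h11
    refine h11.trans (le_of_eq ?_)
    field_simp
  rw [e1]
  refine (add_le_add_right e2 _).trans (le_of_eq ?_)
  field_simp

theorem exp_step {y : ℝ} (hs1 : s < 1) (hy0 : 0 ≤ y) (hy : y ≤ s) :
    1 + y ≤ Real.exp (2 / (1 - s) * y) * (1 - y) := by
  have h6 : 0 < 1 - s := by linarith
  have h7 : 0 < 1 - y := by linarith
  have h8 : 1 + 2 / (1 - s) * y ≤ Real.exp (2 / (1 - s) * y) := by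
    have := Real.add_one_le_exp (2 / (1 - s) * y)
    linarith
  have h9 : 2 / (1 - y) * y ≤ 2 / (1 - s) * y := by gcongr
  calc 1 + y = (1 + 2 / (1 - y) * y) * (1 - y) := by field_simp; ring
    _ ≤ Real.exp (2 / (1 - s) * y) * (1 - y) := by
      have : 1 + 2 / (1 - y) * y ≤ Real.exp (2 / (1 - s) * y) := by linarith
      gcongr

/-- The comparison factors on the circle. -/
noncomputable def β (s : ℝ) (n k : ℕ) : ℝ :=
  if k < n then (s ^ 2)⁻¹ * Real.exp (2 / (1 - s) * (s * (s ^ 2) ^ (n - 1 - k)))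
  else if k = n then (1 + 1 / s) / (1 - s)
  else Real.exp (2 / (1 - s) * (s * (s ^ 2) ^ (k - n - 1)))

theorem factor_cmp (hs0 : 0 < s) (hs1 : s < 1) (hs : s ^ 2 = ‖q‖) (h1 : ∀ k, a k ≠ 0)
    (h2 : ∀ k, ‖a (k + 1)‖ ≤ ‖q‖ * ‖a k‖) (hw : ‖w‖ = 1 / (s * ‖a n‖)) (k : ℕ) :
    ‖1 + a k * w‖ ≤ β s n k * ‖1 + a k * (q * w)‖ := by
  have hs2 : s ^ 2 ≤ 1 := by nlinarith
  have h6 : 0 < 1 - s := by linarith
  have hx : 0 ≤ ‖a k‖ * ‖w‖ := by positivity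
  have hup : ‖1 + a k * w‖ ≤ 1 + ‖a k‖ * ‖w‖ := by
    refine (norm_add_le _ _).trans ?_
    rw [norm_one, norm_mul]
  have e : ‖a k * (q * w)‖ = s ^ 2 * (‖a k‖ * ‖w‖) := by
    rw [norm_mul, norm_mul, hs]; ring
  have hlo1 : ‖a k * (q * w)‖ - 1 ≤ ‖1 + a k * (q * w)‖ := by
    have := norm_sub_norm_le (a k * (q * w)) (-1 : ℂ)
    rw [norm_neg, norm_one, sub_neg_eq_add, add_comm (a k * (q * w))] at this
    exact this
  have hlo2 : 1 - ‖a k * (q * w)‖ ≤ ‖1 + a k * (q * w)‖ := by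
    have := norm_sub_norm_le (1 : ℂ) (-(a k * (q * w)))
    rw [norm_neg, norm_one, sub_neg_eq_add] at this
    exact this
  rw [e] at hlo1 hlo2
  unfold β
  split_ifs with hk hk'
  · -- `k < n`
    obtain ⟨m, hm⟩ := Nat.exists_eq_add_of_lt hk
    have h5 := x_ge hs0 hs h1 h2 hw (show n = k + (m + 1) by omega)
    have hm' : n - 1 - k = m := by omega
    rw [hm']
    set y := s * (s ^ 2) ^ m with hy
    have hy0 : 0 ≤ y := by positivity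
    have hys : y ≤ s := by
      have : (s ^ 2) ^ m ≤ 1 := pow_le_one₀ (by positivity) hs2
      nlinarith
    have h7 : 1 ≤ y * (s ^ 2 * (‖a k‖ * ‖w‖)) := by
      calc 1 ≤ s * (s ^ 2) ^ (m + 1) * (‖a k‖ * ‖w‖) := h5
        _ = y * (s ^ 2 * (‖a k‖ * ‖w‖)) := by rw [hy]; ring
    have h8 := exp_step hs1 hy0 hys
    set X := ‖a k‖ * ‖w‖ with hX
    have hsp : 0 < s ^ 2 := by positivity
    have h9 : s ^ 2 * X * (1 - y) ≤ ‖1 + a k * (q * w)‖ := by nlinarith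
    have h10 : 1 + X ≤ X * (1 + y) := by
      have : y * (s ^ 2 * X) ≤ y * X := by
        have : s ^ 2 * X ≤ X := by nlinarith
        gcongr
      linarith
    have h11 : X * (1 + y) ≤ X * (Real.exp (2 / (1 - s) * y) * (1 - y)) := by gcongr
    calc ‖1 + a k * w‖ ≤ 1 + X := hup
      _ ≤ X * (1 + y) := h10
      _ ≤ X * (Real.exp (2 / (1 - s) * y) * (1 - y)) := h11
      _ = (s ^ 2)⁻¹ * Real.exp (2 / (1 - s) * y) * (s ^ 2 * X * (1 - y)) := by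
        field_simp
      _ ≤ (s ^ 2)⁻¹ * Real.exp (2 / (1 - s) * y) * ‖1 + a k * (q * w)‖ := by gcongr
  · -- `k = n`
    subst hk'
    have hn : 0 < ‖a k‖ := norm_pos_iff.2 (h1 k)
    have e2 : ‖a k‖ * ‖w‖ = 1 / s := by rw [hw]; field_simp
    rw [e2] at hup hlo2
    have h9 : 1 - s ≤ ‖1 + a k * (q * w)‖ := by
      have : s ^ 2 * (1 / s) = s := by field_simp
      linarith
    calc ‖1 + a k * w‖ ≤ 1 + 1 / s := hup
      _ = (1 + 1 / s) / (1 - s) * (1 - s) := by field_simp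
      _ ≤ (1 + 1 / s) / (1 - s) * ‖1 + a k * (q * w)‖ := by gcongr
  · -- `k > n`
    obtain ⟨m, hm⟩ := Nat.exists_eq_add_of_lt (show n < k by omega)
    have h5 := x_le hs0 hs h1 h2 hw hm
    have hm' : k - n - 1 = m := by omega
    rw [hm']
    set y := s * (s ^ 2) ^ m with hy
    have hy0 : 0 ≤ y := by positivity
    have hys : y ≤ s := by
      have : (s ^ 2) ^ m ≤ 1 := pow_le_one₀ (by positivity) hs2
      nlinarith
    have h8 := exp_step hs1 hy0 hys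
    have h9 : 1 - y ≤ ‖1 + a k * (q * w)‖ := by
      have : s ^ 2 * (‖a k‖ * ‖w‖) ≤ 1 * (‖a k‖ * ‖w‖) := by gcongr
      linarith
    calc ‖1 + a k * w‖ ≤ 1 + y := by linarith
      _ ≤ Real.exp (2 / (1 - s) * y) * (1 - y) := h8
      _ ≤ Real.exp (2 / (1 - s) * y) * ‖1 + a k * (q * w)‖ := by gcongr

theorem β_nonneg (hs0 : 0 < s) (hs1 : s < 1) (k : ℕ) : 0 ≤ β s n k := by
  have h6 : 0 < 1 - s := by linarith
  unfold β
  split_ifs <;> positivity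

theorem geom_le (hs0 : 0 < s) (hs1 : s < 1) (N : ℕ) :
    ∑ m ∈ Finset.range N, (s ^ 2) ^ m ≤ 1 / (1 - s ^ 2) := by
  have h : s ^ 2 < 1 := by nlinarith
  have := (summable_geometric_of_lt_one (r := s ^ 2) (by positivity) h).sum_le_tsum
    (Finset.range N) (fun _ _ => by positivity)
  rwa [tsum_geometric_of_lt_one (by positivity) h, ← one_div] at this

theorem prod_β (hs0 : 0 < s) (hs1 : s < 1) (M : ℕ) :
    ∏ k ∈ Finset.range (n + 1 + M), β s n k ≤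
      (s ^ 2)⁻¹ ^ n * ((1 + 1 / s) / (1 - s) *
        Real.exp (2 * (2 / (1 - s) * (s * (1 / (1 - s ^ 2)))))) := by
  have h6 : 0 < 1 - s := by linarith
  have hr : 0 < 1 - s ^ 2 := by nlinarith
  rw [Finset.prod_range_add, Finset.prod_range_succ]
  have e1 : ∏ k ∈ Finset.range n, β s n k ≤
      (s ^ 2)⁻¹ ^ n * Real.exp (2 / (1 - s) * (s * (1 / (1 - s ^ 2)))) := by
    have : ∏ k ∈ Finset.range n, β s n k = ∏ k ∈ Finset.range n, ((s ^ 2)⁻¹ *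
        Real.exp (2 / (1 - s) * (s * (s ^ 2) ^ (n - 1 - k)))) := by
      refine Finset.prod_congr rfl fun k hk => ?_
      rw [β, if_pos (Finset.mem_range.1 hk)]
    rw [this, Finset.prod_mul_distrib, Finset.prod_const, Finset.card_range,
      ← Real.exp_sum, ← Finset.mul_sum, ← Finset.mul_sum]
    have h7 : ∑ k ∈ Finset.range n, (s ^ 2) ^ (n - 1 - k) ≤ 1 / (1 - s ^ 2) := by
      rw [Finset.sum_range_reflect (fun k => (s ^ 2) ^ k) n]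
      exact geom_le hs0 hs1 n
    gcongr
  have e2 : β s n n = (1 + 1 / s) / (1 - s) := by
    rw [β, if_neg (lt_irrefl n), if_pos rfl]
  have e3 : ∏ m ∈ Finset.range M, β s n (n + 1 + m) ≤
      Real.exp (2 / (1 - s) * (s * (1 / (1 - s ^ 2)))) := by
    have : ∏ m ∈ Finset.range M, β s n (n + 1 + m) = ∏ m ∈ Finset.range M,
        Real.exp (2 / (1 - s) * (s * (s ^ 2) ^ m)) := by
      refine Finset.prod_congr rfl fun m _ => ?_
      rw [β, if_neg (by omega), if_neg (by omega), show n + 1 + m - n - 1 = m by omega]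
    rw [this, ← Real.exp_sum, ← Finset.mul_sum, ← Finset.mul_sum]
    have h7 := geom_le hs0 hs1 M
    gcongr
  have p1 : 0 ≤ ∏ k ∈ Finset.range n, β s n k :=
    Finset.prod_nonneg fun k _ => β_nonneg hs0 hs1 k
  have p3 : 0 ≤ ∏ m ∈ Finset.range M, β s n (n + 1 + m) :=
    Finset.prod_nonneg fun k _ => β_nonneg hs0 hs1 _
  rw [e2]
  calc (∏ k ∈ Finset.range n, β s n k) * ((1 + 1 / s) / (1 - s)) *
        ∏ m ∈ Finset.range M, β s n (n + 1 + m)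
      ≤ ((s ^ 2)⁻¹ ^ n * Real.exp (2 / (1 - s) * (s * (1 / (1 - s ^ 2))))) *
        ((1 + 1 / s) / (1 - s)) * Real.exp (2 / (1 - s) * (s * (1 / (1 - s ^ 2)))) := by
        gcongr
    _ = _ := by
      rw [two_mul (2 / (1 - s) * (s * (1 / (1 - s ^ 2)))), Real.exp_add]
      ring

theorem G_cmp (hs0 : 0 < s) (hs1 : s < 1) (hs : s ^ 2 = ‖q‖) (h1 : ∀ k, a k ≠ 0)
    (h2 : ∀ k, ‖a (k + 1)‖ ≤ ‖q‖ * ‖a k‖) (hw : ‖w‖ = 1 / (s * ‖a n‖)) :
    ‖G a w‖ ≤ (s ^ 2)⁻¹ ^ n * ((1 + 1 / s) / (1 - s) *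
        Real.exp (2 * (2 / (1 - s) * (s * (1 / (1 - s ^ 2)))))) * ‖G a (q * w)‖ := by
  have hq : ‖q‖ < 1 := by rw [← hs]; nlinarith
  have ha := summable_a hq h2
  have t1 : Tendsto (fun N => ‖∏ k ∈ Finset.range (n + 1 + N), (1 + a k * w)‖) atTop
      (𝓝 ‖G a w‖) := by
    have := (multipliable_G ha w).hasProd.tendsto_prod_nat
    exact ((tendsto_add_atTop_iff_nat (f := fun N => ∏ k ∈ Finset.range N, (1 + a k * w))
      (n + 1)).2 this |>.congr fun N => by rw [add_comm]).norm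
  have t2 : Tendsto (fun N => ‖∏ k ∈ Finset.range (n + 1 + N), (1 + a k * (q * w))‖) atTop
      (𝓝 ‖G a (q * w)‖) := by
    have := (multipliable_G ha (q * w)).hasProd.tendsto_prod_nat
    exact ((tendsto_add_atTop_iff_nat (f := fun N => ∏ k ∈ Finset.range N,
      (1 + a k * (q * w))) (n + 1)).2 this |>.congr fun N => by rw [add_comm]).norm
  refine le_of_tendsto_of_tendsto' t1 (t2.const_mul _) fun N => ?_
  rw [norm_prod, norm_prod]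
  calc ∏ k ∈ Finset.range (n + 1 + N), ‖1 + a k * w‖
      ≤ ∏ k ∈ Finset.range (n + 1 + N), (β s n k * ‖1 + a k * (q * w)‖) :=
        Finset.prod_le_prod (fun _ _ => norm_nonneg _) fun k _ =>
          factor_cmp hs0 hs1 hs h1 h2 hw k
    _ = (∏ k ∈ Finset.range (n + 1 + N), β s n k) *
        ∏ k ∈ Finset.range (n + 1 + N), ‖1 + a k * (q * w)‖ := Finset.prod_mul_distrib
    _ ≤ _ := by
      have := prod_β (n := n) hs0 hs1 N
      gcongr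

end circle

end SokalBethe
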