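import Mathlib

/-!
# Integer disc arithmetic, written for evaluation by the kernel

A disc `⟨x, y, r⟩` stands for `|S z - (x + i y)| ≤ r` with the scale `S = 2^20`.
-/

namespace SokalBethe

/-- The disc `|S z - (x + i y)| ≤ r`. -/
structure Dsc where
  x : ℤ
  y : ℤ
  r : ℕ

noncomputable section

namespace Dsc

/-- Forced evaluation of a natural number. -/
def fN (n : ℕ) (k : ℕ → Bool) : Bool :=
  Nat.rec (motive := fun _ => Bool) (k 0) (fun m _ => k (Nat.succ m)) n

/-- Forced evaluation of an integer. -/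
def fZ (z : ℤ) (k : ℤ → Bool) : Bool :=
  Int.rec (motive := fun _ => Bool) (fun n => fN n fun n => k (Int.ofNat n))
    (fun n => fN n fun n => k (Int.negSucc n)) z

def mkK (x y : ℤ) (r : ℕ) (k : Dsc → Bool) : Bool :=
  fZ x fun x => fZ y fun y => fN r fun r => k ⟨x, y, r⟩

/-- `if b then c else false`. -/
def and' (b : Bool) (c : Bool) : Bool := Bool.rec (motive := fun _ => Bool) false c b

/-- One Newton step for the square root of `n`. -/
def nstep (n s : ℕ) : ℕ := Nat.succ (Nat.div (Nat.add s (Nat.div n s)) (nat_lit 2))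

/-- Upper bound of `√(x²+y²)`. -/
def nrm (x y : ℤ) : ℕ :=
  (fun a b : ℕ => (fun n s : ℕ => nstep n (nstep n s))
    (Nat.add (Nat.mul a a) (Nat.mul b b)) (Nat.succ (Nat.add a b))) (Int.natAbs x) (Int.natAbs y)

/-- Product of two discs. -/
def mulK (a b : Dsc) (k : Dsc → Bool) : Bool :=
  mkK (Int.ediv (Int.sub (Int.mul a.x b.x) (Int.mul a.y b.y)) (Int.ofNat (nat_lit 1048576)))
    (Int.ediv (Int.add (Int.mul a.x b.y) (Int.mul a.y b.x)) (Int.ofNat (nat_lit 1048576)))
    (Nat.add (Nat.div (Nat.add (Nat.add (Nat.mul (nrm a.x a.y) b.r) (Nat.mul (nrm b.x b.y) a.r))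
      (Nat.mul a.r b.r)) (nat_lit 1048576)) (nat_lit 3)) k

/-- Inverse of the disc `x, y, r`. -/
def invK (x y : ℤ) (r : ℕ) (k : ℤ → ℤ → ℕ → Bool) : Bool :=
  (fun n m : ℕ => and' (Nat.ble (Nat.succ m) n)
    (fN (Nat.sub n m) fun d =>
      k (Int.ediv (Int.mul x (Int.ofNat (nat_lit 1099511627776))) (Int.ofNat d))
        (Int.ediv (Int.mul (Int.neg y) (Int.ofNat (nat_lit 1099511627776))) (Int.ofNat d))
        (Nat.add (Nat.div (Nat.mul (nat_lit 1099511627776) r) d) (nat_lit 3))))
    (Nat.add (Nat.mul (Int.natAbs x) (Int.natAbs x)) (Nat.mul (Int.natAbs y) (Int.natAbs y)))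
    (Nat.mul r r)

/-- The `A`-sum: `acc + Σ 1/(1 - A_i)`. -/
def sumA (left : List Dsc) : Dsc → Dsc → (Dsc → Bool) → Bool :=
  List.rec (motive := fun _ => Dsc → Dsc → (Dsc → Bool) → Bool)
    (fun A acc k => invK (Int.sub (Int.ofNat (nat_lit 1048576)) A.x) (Int.neg A.y) A.r
      fun u v r => mkK (Int.add acc.x u) (Int.add acc.y v) (Nat.add acc.r r) k)
    (fun x _ ih A acc k => invK (Int.sub (Int.ofNat (nat_lit 1048576)) A.x) (Int.neg A.y) A.r
      fun u v r => mkK (Int.add acc.x u) (Int.add acc.y v) (Nat.add acc.r r)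
        fun acc' => mulK A x fun A' => ih A' acc' k) left

/-- The remainder of the `B`-sum, with `|x| ≤ rn / rd`. -/
def remK (rn rd : ℕ) (B acc : Dsc) (k : Dsc → Bool) : Bool :=
  fN (Nat.succ (Nat.div (Nat.mul (Nat.add (nrm B.x B.y) B.r) rn) rd)) fun p =>
    and' (Nat.ble (Nat.succ p) (nat_lit 1048576))
      (mkK acc.x acc.y (Nat.add acc.r (Nat.succ (Nat.div (Nat.mul (Nat.mul p rd)
        (nat_lit 1048576)) (Nat.mul (Nat.sub rd rn) (Nat.sub (nat_lit 1048576) p))))) k)

/-- The `B`-sum: `acc - Σ (1/(1 - B_i) - 1)`, with the remainder after `n` terms. -/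
def sumB (rn rd : ℕ) (right : List Dsc) (n : ℕ) : Dsc → Dsc → (Dsc → Bool) → Bool :=
  List.rec (motive := fun _ => ℕ → Dsc → Dsc → (Dsc → Bool) → Bool)
    (fun _ B acc k => remK rn rd B acc k)
    (fun x _ ih n => Nat.rec (motive := fun _ => Dsc → Dsc → (Dsc → Bool) → Bool)
      (fun B acc k => remK rn rd B acc k)
      (fun m _ B acc k => mulK B x fun B' =>
        invK (Int.sub (Int.ofNat (nat_lit 1048576)) B'.x) (Int.neg B'.y) B'.r fun u v r =>
          mkK (Int.add (Int.sub acc.x u) (Int.ofNat (nat_lit 1048576))) (Int.sub acc.y v)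
            (Nat.add acc.r r) fun acc' => ih m B' acc' k) n) right n

/-- Disc inclusion. -/
def sub (a b : Dsc) : Bool :=
  and' (Nat.ble a.r b.r) (Nat.ble (Nat.add
    (Nat.mul (Int.natAbs (Int.sub a.x b.x)) (Int.natAbs (Int.sub a.x b.x)))
    (Nat.mul (Int.natAbs (Int.sub a.y b.y)) (Int.natAbs (Int.sub a.y b.y))))
      (Nat.mul (Nat.sub b.r a.r) (Nat.sub b.r a.r)))

/-- The rows `j = left.length, …`: `right = x_j :: …`, `taus = τ_j :: …`, `boxes = box_j :: …`. -/
def rows (q : Dsc) (rn rd NB : ℕ) (boxes : List Dsc) :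
    List Dsc → List Dsc → List Dsc → Bool :=
  List.rec (motive := fun _ => List Dsc → List Dsc → List Dsc → Bool)
    (fun _ _ _ => true)
    (fun b _ ih left taus right => List.rec (motive := fun _ => Bool) false
      (fun t ts _ => List.rec (motive := fun _ => Bool) false
        (fun x rs _ => sumA left q ⟨0, 0, 0⟩ fun acc => sumB rn rd rs NB t acc fun out =>
          and' (sub out b) (ih (x :: left) ts rs)) right) taus) boxes

/-- Build the lists of `τ` and `x` discs. -/
def build (q : Dsc) (ts : List Dsc) : (List Dsc → List Dsc → Bool) → Bool :=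
  List.rec (motive := fun _ => (List Dsc → List Dsc → Bool) → Bool)
    (fun k => k [] [])
    (fun t _ ih k => invK (Int.add (Int.ofNat (nat_lit 1048576)) t.x) t.y t.r fun u v r =>
      mkK (Int.sub (Int.ofNat (nat_lit 1048576)) u) (Int.neg v) r fun tau =>
        mulK tau q fun xx => ih fun l1 l2 => k (tau :: l1) (xx :: l2)) ts

/-- Horner evaluation. -/
def horner (q : Dsc) (cs : List ℤ) : (Dsc → Bool) → Bool :=
  List.rec (motive := fun _ => (Dsc → Bool) → Bool)
    (fun k => k ⟨0, 0, 0⟩)
    (fun c _ ih k => ih fun v => mulK v q fun w => mkK (Int.add c w.x) w.y w.r k) cs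

/-- Nonnegative integers. -/
def pos (z : ℤ) : Bool := Int.rec (motive := fun _ => Bool) (fun _ => true) (fun _ => false) z

/-- All boxes satisfy `Re T ≥ -49/100`. -/
def allPos (boxes : List Dsc) : Bool :=
  List.rec (motive := fun _ => Bool) true
    (fun b _ ih => and' (pos (Int.add (Int.mul (Int.sub b.x (Int.ofNat b.r))
      (Int.ofNat (nat_lit 100))) (Int.ofNat (nat_lit 51380224)))) ih) boxes

/-- The start polynomials are in the boxes. -/
def starts (q : Dsc) (polys : List (List ℤ)) : List Dsc → Bool :=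
  List.rec (motive := fun _ => List Dsc → Bool)
    (fun boxes => List.rec (motive := fun _ => Bool) true (fun _ _ _ => false) boxes)
    (fun p _ ih boxes => List.rec (motive := fun _ => Bool) false
      (fun b bs _ => horner q p fun v => and' (sub v b) (ih bs)) boxes) polys

/-- The whole check for one cell. -/
def cell (rn rd NB : ℕ) (polys : List (List ℤ)) (tail : List Dsc) (q : Dsc) (boxes : List Dsc) :
    Bool :=
  and' (allPos boxes) (and' (starts q polys boxes)
    (build q (boxes ++ tail) fun taus xs => rows q rn rd NB boxes [] taus xs))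

end Dsc

end

end SokalBethe
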