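import Pool.Agent.Lib_MP_af4de1_Bethe.Exist

/-!
# The iterates of the Bethe map converge inside the circle
-/

namespace SokalBethe

open Filter Topology Metric

/-- The iterates of the Bethe map from the start `K`. -/
noncomputable def iter (K : ℕ → ℂ → ℂ) (q : ℂ) : ℕ → ℕ → ℂ
  | 0 => fun j => K j q
  | n + 1 => Bmap q (iter K q n)

theorem exists_fixed {r δ C : ℝ} (hr0 : 0 < r) (hr1 : r < 1) (hδ : 0 < δ) (K : ℕ → ℂ → ℂ)
    (hK : ∀ j, Differentiable ℂ (K j))
    (hit : ∀ q : ℂ, ‖q‖ = r → ∀ n j, -1 / 2 + δ ≤ (iter K q n j).re ∧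
      ‖iter K q n j - (j + 1)‖ ≤ C)
    {q : ℂ} (hq : ‖q‖ < r) :
    ∃ T : ℕ → ℂ, (∀ j, -1 / 2 < (T j).re) ∧ ∀ j, T j = Bmap q T j := by
  -- holomorphy and bounds for all iterates
  have hall : ∀ n, (∀ j, DC r fun q => iter K q n j) ∧ ∀ q ∈ closedBall (0 : ℂ) r, ∀ j,
      -1 / 2 + δ ≤ (iter K q n j).re ∧ ‖iter K q n j - (j + 1)‖ ≤ C := by
    have hb : ∀ n, (∀ j, DC r fun q => iter K q n j) → ∀ q ∈ closedBall (0 : ℂ) r, ∀ j,
      -1 / 2 + δ ≤ (iter K q n j).re ∧ ‖iter K q n j - (j + 1)‖ ≤ C := by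
      intro n hn q hq j
      refine ⟨DC.le_re hr0 (hn j) (fun z hz => (hit z hz n j).1) hq, ?_⟩
      exact DC.norm_le hr0 ((hn j).sub (DC.const r (j + 1))) (fun z hz => (hit z hz n j).2) hq
    intro n
    induction n with
    | zero =>
      have h0 : ∀ j, DC r fun q => iter K q 0 j := fun j =>
        ⟨(hK j).differentiableOn, (hK j).continuous.continuousOn⟩
      exact ⟨h0, hb 0 h0⟩
    | succ n ih =>
      have h1 : ∀ j, DC r fun q => iter K q (n + 1) j := fun j =>
        DC_Bmap hr1 ih.1 (fun q hq l => by linarith [(ih.2 q hq l).1]) j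
      exact ⟨h1, hb (n + 1) h1⟩
  have hre : ∀ n, ∀ q ∈ closedBall (0 : ℂ) r, ∀ j, -1 / 2 ≤ (iter K q n j).re :=
    fun n q hq j => by linarith [((hall n).2 q hq j).1]
  -- differences
  have hdiff : ∀ n, ∀ q ∈ closedBall (0 : ℂ) r, ∀ j, ‖iter K q (n + 1) j - iter K q n j‖ ≤ 2 * C := by
    intro n q hq j
    have e : iter K q (n + 1) j - iter K q n j =
        (iter K q (n + 1) j - (j + 1)) - (iter K q n j - (j + 1)) := by ring
    rw [e]
    refine (norm_sub_le _ _).trans ?_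
    linarith [((hall n).2 q hq j).2, ((hall (n + 1)).2 q hq j).2]
  have hC : 0 ≤ 2 * C := (norm_nonneg _).trans (hdiff 0 0 (mem_closedBall_self hr0.le) 0)
  have hord : ∀ n, ∀ q ∈ closedBall (0 : ℂ) r, ∀ j,
      ‖iter K q (n + 1) j - iter K q n j‖ ≤ 2 * C * (lip r * ‖q‖) ^ n := by
    intro n
    induction n with
    | zero => intro q hq j; simpa using hdiff 0 q hq j
    | succ n ih =>
      intro q hq j
      have h1 := norm_Bmap_sub_Bmap (mem_closedBall_zero_iff.1 hq) hr1 (hre (n + 1) q hq)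
        (hre n q hq) (ih q hq) j
      refine h1.trans (le_of_eq ?_)
      ring
  -- Schwarz
  have hsch : ∀ n j, ∀ q : ℂ, ‖q‖ < r → ‖iter K q (n + 1) j - iter K q n j‖ ≤
      2 * C * (‖q‖ / r) ^ n := by
    intro n j q hq
    rcases n with _ | m
    · simpa using hdiff 0 q (mem_closedBall_zero_iff.2 hq.le) j
    set f : ℂ → ℂ := fun q => iter K q (m + 1 + 1) j - iter K q (m + 1) j with hf
    have hd : DifferentiableOn ℂ f (ball 0 r) :=
      (((hall (m + 1 + 1)).1 j).sub ((hall (m + 1)).1 j)).1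
    have hf0 : f 0 = 0 := by
      have h1 := hord (m + 1) 0 (mem_closedBall_self hr0.le) j
      rw [norm_zero, mul_zero, zero_pow (by omega), mul_zero] at h1
      exact norm_le_zero_iff.1 h1
    have hmaps : Set.MapsTo f (ball 0 r) (closedBall (f 0) (2 * C)) := by
      intro z hz
      rw [hf0, mem_closedBall_zero_iff]
      exact hdiff (m + 1) z (ball_subset_closedBall hz) j
    have ho : (f · - f 0) =o[𝓝 0] (fun w : ℂ => ‖w - 0‖ ^ m) := by
      rw [hf0]
      have hO : (fun w => f w - 0) =O[𝓝 0] (fun w : ℂ => ‖w‖ ^ (m + 1)) := by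
        refine Asymptotics.IsBigO.of_bound (2 * C * lip r ^ (m + 1)) ?_
        filter_upwards [ball_mem_nhds (0 : ℂ) hr0] with w hw
        have h1 := hord (m + 1) w (ball_subset_closedBall hw) j
        rw [sub_zero, Real.norm_of_nonneg (by positivity)]
        refine h1.trans (le_of_eq ?_)
        rw [mul_pow]; ring
      refine hO.trans_isLittleO ?_
      simp only [sub_zero]
      have h2 := Asymptotics.IsLittleO.mul_isBigO
        (f₁ := fun w : ℂ => ‖w‖) (g₁ := fun _ : ℂ => (1 : ℝ)) (l := 𝓝 0)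
        (f₂ := fun w : ℂ => ‖w‖ ^ m) (g₂ := fun w : ℂ => ‖w‖ ^ m) ?_
        (Asymptotics.isBigO_refl _ _)
      · refine h2.congr (fun w => by ring) (fun w => by ring)
      · rw [Asymptotics.isLittleO_one_iff]
        simpa using (continuous_norm (E := ℂ)).tendsto 0
    have := Complex.dist_le_mul_div_pow_of_mapsTo_ball_of_isLittleO hd hmaps ho
      (mem_ball_zero_iff.2 hq)
    rw [hf0, dist_zero_right, dist_zero_right] at this
    exact this
  -- the limit
  have hρ0 : 0 ≤ ‖q‖ / r := by positivity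
  have hρ : ‖q‖ / r < 1 := by rwa [div_lt_one hr0]
  have hcau : ∀ j, ∃ t : ℂ, Tendsto (fun n => iter K q n j) atTop (𝓝 t) := fun j =>
    cauchySeq_tendsto_of_complete (cauchySeq_of_le_geometric (‖q‖ / r) (2 * C) hρ fun n => by
      rw [dist_comm, dist_eq_norm]
      exact hsch n j q hq)
  choose T hT using hcau
  have hdist : ∀ n j, ‖iter K q n j - T j‖ ≤ 2 * C * (‖q‖ / r) ^ n / (1 - ‖q‖ / r) := fun n j => by
    rw [← dist_eq_norm]
    exact dist_le_of_le_geometric_of_tendsto (‖q‖ / r) (2 * C) hρ (fun n => by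
      rw [dist_comm, dist_eq_norm]
      exact hsch n j q hq) (hT j) n
  have hqc : q ∈ closedBall (0 : ℂ) r := mem_closedBall_zero_iff.2 hq.le
  have hTre : ∀ j, -1 / 2 + δ ≤ (T j).re := fun j =>
    ge_of_tendsto ((Complex.continuous_re.tendsto _).comp (hT j))
      (.of_forall fun n => ((hall n).2 q hqc j).1)
  refine ⟨T, fun j => by linarith [hTre j], fun j => ?_⟩
  have h1 : Tendsto (fun n => Bmap q (iter K q n) j) atTop (𝓝 (T j)) :=
    (hT j).comp (tendsto_add_atTop_nat 1)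
  have h2 : Tendsto (fun n => Bmap q (iter K q n) j) atTop (𝓝 (Bmap q T j)) := by
    rw [tendsto_iff_norm_sub_tendsto_zero]
    have h3 : ∀ n, ‖Bmap q (iter K q n) j - Bmap q T j‖ ≤
        lip r * ‖q‖ * (2 * C * (‖q‖ / r) ^ n / (1 - ‖q‖ / r)) := fun n =>
      norm_Bmap_sub_Bmap hq.le hr1 (hre n q hqc) (fun l => by linarith [hTre l]) (hdist n) j
    refine squeeze_zero (fun n => norm_nonneg _) h3 ?_
    have h4 := tendsto_pow_atTop_nhds_zero_of_lt_one hρ0 hρ
    have h5 := ((h4.const_mul (2 * C)).div_const (1 - ‖q‖ / r)).const_mul (lip r * ‖q‖)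
    simpa using h5
  exact tendsto_nhds_unique h1 h2

/-! ### Conjugation -/

theorem tau_conj (t : ℂ) : tau (starRingEnd ℂ t) = starRingEnd ℂ (tau t) := by
  simp [tau]

theorem xs_conj (q : ℂ) (T : ℕ → ℂ) (l : ℕ) :
    xs (starRingEnd ℂ q) (fun j => starRingEnd ℂ (T j)) l = starRingEnd ℂ (xs q T l) := by
  simp [xs, tau_conj]

theorem AA_conj (q : ℂ) (T : ℕ → ℂ) (j i : ℕ) :
    AA (starRingEnd ℂ q) (fun j => starRingEnd ℂ (T j)) j i = starRingEnd ℂ (AA q T j i) := by
  simp [AA, xs_conj]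

theorem BB_conj (q : ℂ) (T : ℕ → ℂ) (j i : ℕ) :
    BB (starRingEnd ℂ q) (fun j => starRingEnd ℂ (T j)) j i = starRingEnd ℂ (BB q T j i) := by
  simp [BB, xs_conj, tau_conj]

theorem Bmap_conj (q : ℂ) (T : ℕ → ℂ) (j : ℕ) :
    Bmap (starRingEnd ℂ q) (fun j => starRingEnd ℂ (T j)) j = starRingEnd ℂ (Bmap q T j) := by
  rw [Bmap, Bmap, map_sub, map_sum, Complex.conj_tsum]
  simp [AA_conj, BB_conj]

theorem iter_conj (K : ℕ → ℂ → ℂ)
    (hK : ∀ j q, K j (starRingEnd ℂ q) = starRingEnd ℂ (K j q)) (q : ℂ) (n : ℕ) :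
    ∀ j, iter K (starRingEnd ℂ q) n j = starRingEnd ℂ (iter K q n j) := by
  induction n with
  | zero => intro j; exact hK j q
  | succ n ih =>
    intro j
    have : iter K (starRingEnd ℂ q) n = fun j => starRingEnd ℂ (iter K q n j) := funext ih
    show Bmap (starRingEnd ℂ q) (iter K (starRingEnd ℂ q) n) j = _
    rw [this, Bmap_conj]
    rfl

end SokalBethe
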