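import Pool.Agent.Lib_MP_af4de1_Bethe.DiscProg
import Pool.Agent.Lib_MP_af4de1_Bethe.Iterate

/-!
# Soundness of the disc arithmetic
-/

namespace SokalBethe

open Filter Topology Finset

/-- `z` is in the disc `d`. -/
def InD (d : Dsc) (z : ℂ) : Prop := ‖(1048576 : ℂ) * z - (⟨(d.x : ℝ), (d.y : ℝ)⟩ : ℂ)‖ ≤ d.r

/-- The discs of a list contain the values of a sequence. -/
def InL (l : List Dsc) (f : ℕ → ℂ) : Prop := ∀ i (h : i < l.length), InD l[i] (f i)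

theorem InL_nil (f : ℕ → ℂ) : InL [] f := fun i h => absurd h (by simp)

theorem InL_cons {a : Dsc} {l : List Dsc} {f : ℕ → ℂ} :
    InL (a :: l) f ↔ InD a (f 0) ∧ InL l fun i => f (i + 1) := by
  constructor
  · intro h
    exact ⟨h 0 (by simp), fun i hi => h (i + 1) (by simpa using hi)⟩
  · rintro ⟨h1, h2⟩ i hi
    rcases i with _ | i
    · exact h1
    · exact h2 i (by simpa using hi)

namespace Dsc

theorem fN_eq (n : ℕ) (k : ℕ → Bool) : fN n k = k n := by cases n <;> rfl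

theorem fZ_eq (z : ℤ) (k : ℤ → Bool) : fZ z k = k z := by
  cases z with
  | ofNat n => exact fN_eq n fun n => k (Int.ofNat n)
  | negSucc n => exact fN_eq n fun n => k (Int.negSucc n)

theorem mkK_eq (x y : ℤ) (r : ℕ) (k : Dsc → Bool) : mkK x y r k = k ⟨x, y, r⟩ := by
  rw [mkK, fZ_eq, fZ_eq, fN_eq]

theorem and'_eq {b c : Bool} : and' b c = true ↔ b = true ∧ c = true := by
  cases b <;> simp [and']

theorem sqrt_le_nstep {n s : ℕ} (hs : 0 < s) : Real.sqrt n ≤ nstep n s := by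
  have h1 : (n : ℝ) / s ≤ (n / s : ℕ) + 1 := by
    have h := Nat.lt_div_mul_add (a := n) hs
    have hs' : (0 : ℝ) < s := by exact_mod_cast hs
    rw [div_le_iff₀ hs']
    have h2 : ((n : ℕ) : ℝ) < ((n / s * s + s : ℕ) : ℝ) := by exact_mod_cast h
    push_cast at h2
    nlinarith
  have h2 : ((s + n / s : ℕ) : ℝ) ≤ 2 * ((s + n / s) / 2 : ℕ) + 1 := by
    have : s + n / s ≤ 2 * ((s + n / s) / 2) + 1 := by omega
    exact_mod_cast this
  have h3 : Real.sqrt n ≤ ((s : ℝ) + n / s) / 2 := by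
    rw [Real.sqrt_le_left (by positivity)]
    have hs' : (0 : ℝ) < s := by exact_mod_cast hs
    have : (((s : ℝ) + n / s) / 2) ^ 2 - n = (((s : ℝ) - n / s) / 2) ^ 2 := by
      field_simp; ring
    nlinarith [sq_nonneg (((s : ℝ) - n / s) / 2)]
  have h4 : ((nstep n s : ℕ) : ℝ) = ((s + n / s) / 2 : ℕ) + 1 := by
    have : nstep n s = (s + n / s) / 2 + 1 := rfl
    rw [this]; push_cast; ring
  rw [h4]
  push_cast at h2
  linarith

theorem norm_le_nrm (x y : ℤ) : ‖(⟨(x : ℝ), (y : ℝ)⟩ : ℂ)‖ ≤ nrm x y := by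
  have h1 : nrm x y = nstep (x.natAbs * x.natAbs + y.natAbs * y.natAbs)
      (nstep (x.natAbs * x.natAbs + y.natAbs * y.natAbs) (x.natAbs + y.natAbs + 1)) := rfl
  have h2 : (((x.natAbs * x.natAbs + y.natAbs * y.natAbs : ℕ) : ℤ) : ℝ) =
      (x : ℝ) * x + (y : ℝ) * y := by
    push_cast
    rw [abs_mul_abs_self, abs_mul_abs_self]
  rw [h1, Complex.norm_def, Complex.normSq_apply]
  have h3 := sqrt_le_nstep (n := x.natAbs * x.natAbs + y.natAbs * y.natAbs)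
    (s := nstep (x.natAbs * x.natAbs + y.natAbs * y.natAbs) (x.natAbs + y.natAbs + 1))
    (Nat.succ_pos _)
  rw [Int.cast_natCast] at h2
  rwa [h2] at h3

theorem ediv_bound (a : ℤ) {n : ℕ} (hn : 0 < n) :
    |(a : ℝ) / n - ((Int.ediv a (Int.ofNat n) : ℤ) : ℝ)| ≤ 1 := by
  have hn' : (0 : ℝ) < n := by exact_mod_cast hn
  have hz : (0 : ℤ) < (n : ℤ) := by exact_mod_cast hn
  have e : Int.ediv a (Int.ofNat n) = a / (n : ℤ) := rfl
  rw [e]
  have h1 := Int.emod_add_mul_ediv a n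
  have h2 := Int.emod_nonneg a hz.ne'
  have h3 := Int.emod_lt_of_pos a hz
  have h4 : ((a % n : ℤ) : ℝ) + n * ((a / n : ℤ) : ℝ) = a := by exact_mod_cast h1
  have h5 : (0 : ℝ) ≤ ((a % n : ℤ) : ℝ) := by exact_mod_cast h2
  have h6 : ((a % n : ℤ) : ℝ) < n := by exact_mod_cast h3
  have h7 : (a : ℝ) / n - ((a / n : ℤ) : ℝ) = ((a % n : ℤ) : ℝ) / n := by
    rw [← h4]; field_simp; ring
  rw [h7, abs_le]
  constructor
  · have : 0 ≤ ((a % n : ℤ) : ℝ) / n := by positivity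
    linarith
  · rw [div_le_one hn']
    exact h6.le

theorem norm_round {u v : ℝ} {a b : ℤ} (h1 : |u - a| ≤ 1) (h2 : |v - b| ≤ 1) :
    ‖(⟨u, v⟩ : ℂ) - ⟨(a : ℝ), (b : ℝ)⟩‖ ≤ 2 := by
  have h3 := Complex.norm_le_abs_re_add_abs_im ((⟨u, v⟩ : ℂ) - ⟨(a : ℝ), (b : ℝ)⟩)
  simp only [Complex.sub_re, Complex.sub_im] at h3
  linarith

theorem div_le_natdiv (a n : ℕ) (hn : 0 < n) : (a : ℝ) / n ≤ ((a / n : ℕ) : ℝ) + 1 := by
  have hn' : (0 : ℝ) < n := by exact_mod_cast hn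
  rw [div_le_iff₀ hn']
  have h := Nat.lt_div_mul_add (a := a) hn
  have h2 : ((a : ℕ) : ℝ) < ((a / n * n + n : ℕ) : ℝ) := by exact_mod_cast h
  push_cast at h2
  nlinarith

theorem mulK_sound {a b : Dsc} {k : Dsc → Bool} (h : mulK a b k = true) :
    ∃ c, k c = true ∧ ∀ z w, InD a z → InD b w → InD c (z * w) := by
  rw [mulK, mkK_eq] at h
  refine ⟨_, h, fun z w hz hw => ?_⟩
  unfold InD at *
  set ca : ℂ := ⟨(a.x : ℝ), (a.y : ℝ)⟩ with hca
  set cb : ℂ := ⟨(b.x : ℝ), (b.y : ℝ)⟩ with hcb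
  have na : ‖ca‖ ≤ nrm a.x a.y := norm_le_nrm _ _
  have nb : ‖cb‖ ≤ nrm b.x b.y := norm_le_nrm _ _
  set N : ℕ := nrm a.x a.y * b.r + nrm b.x b.y * a.r + a.r * b.r with hN
  have e1 : (1048576 : ℂ) * (z * w) - ca * cb / 1048576 =
      (((1048576 : ℂ) * z - ca) * ((1048576 : ℂ) * w - cb) + ca * ((1048576 : ℂ) * w - cb) +
        cb * ((1048576 : ℂ) * z - ca)) / 1048576 := by
    field_simp; ring
  have h1 : ‖(1048576 : ℂ) * (z * w) - ca * cb / 1048576‖ ≤ (N : ℝ) / (1048576 : ℕ) := by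
    rw [e1, norm_div]
    have : ‖(1048576 : ℂ)‖ = ((1048576 : ℕ) : ℝ) := by
      rw [show (1048576 : ℂ) = ((1048576 : ℕ) : ℂ) by norm_num, Complex.norm_natCast]
    rw [this]
    refine div_le_div_of_nonneg_right ?_ (by positivity)
    calc _ ≤ ‖(1048576 : ℂ) * z - ca‖ * ‖(1048576 : ℂ) * w - cb‖ +
          ‖ca‖ * ‖(1048576 : ℂ) * w - cb‖ + ‖cb‖ * ‖(1048576 : ℂ) * z - ca‖ := by
          refine (norm_add_le _ _).trans ?_
          rw [norm_mul cb]
          have := norm_add_le (((1048576 : ℂ) * z - ca) * ((1048576 : ℂ) * w - cb))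
            (ca * ((1048576 : ℂ) * w - cb))
          rw [norm_mul, norm_mul] at this
          linarith
      _ ≤ (a.r : ℝ) * b.r + nrm a.x a.y * b.r + nrm b.x b.y * a.r := by gcongr
      _ = N := by rw [hN]; push_cast; ring
  have h2 := div_le_natdiv N 1048576 (by norm_num)
  have e2 : ca * cb / 1048576 = (⟨((a.x * b.x - a.y * b.y : ℤ) : ℝ) / (1048576 : ℕ),
      ((a.x * b.y + a.y * b.x : ℤ) : ℝ) / (1048576 : ℕ)⟩ : ℂ) := by
    rw [show (1048576 : ℂ) = ((1048576 : ℝ) : ℂ) by norm_num]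
    apply Complex.ext
    · rw [Complex.div_ofReal_re, Complex.mul_re]; push_cast; rfl
    · rw [Complex.div_ofReal_im, Complex.mul_im]; push_cast; rfl
  have h3 := norm_round (ediv_bound (a.x * b.x - a.y * b.y) (n := 1048576) (by norm_num))
    (ediv_bound (a.x * b.y + a.y * b.x) (n := 1048576) (by norm_num))
  rw [← e2] at h3
  show ‖(1048576 : ℂ) * (z * w) - _‖ ≤ ((N / 1048576 + 3 : ℕ) : ℝ)
  have e4 : ∀ v : ℂ, (1048576 : ℂ) * (z * w) - v =
      ((1048576 : ℂ) * (z * w) - ca * cb / 1048576) + (ca * cb / 1048576 - v) := fun v => by ring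
  rw [e4]
  refine (norm_add_le _ _).trans ?_
  push_cast at h1 h2 h3 ⊢
  have h5 := h1.trans h2
  have := add_le_add h5 h3
  refine this.trans (le_of_eq ?_)
  ring

theorem natAbs_sq (x y : ℤ) : (((x.natAbs * x.natAbs + y.natAbs * y.natAbs : ℕ) : ℤ) : ℝ) =
      (x : ℝ) * x + (y : ℝ) * y := by
  push_cast
  rw [abs_mul_abs_self, abs_mul_abs_self]

/-- Inversion of a disc that does not contain `0`. -/
theorem norm_inv_disc {Z C : ℂ} {r d : ℝ} (hd : 0 < d) (hC : Complex.normSq C - r ^ 2 = d)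
    (hr : 0 ≤ r) (h : ‖Z - C‖ ≤ r) : Z ≠ 0 ∧ ‖Z⁻¹ - (starRingEnd ℂ C) / d‖ ≤ r / d := by
  have hZ : Z ≠ 0 := by
    rintro rfl
    rw [zero_sub, norm_neg] at h
    have h1 : Complex.normSq C ≤ r ^ 2 := by
      rw [Complex.normSq_eq_norm_sq]; gcongr
    linarith
  refine ⟨hZ, ?_⟩
  have hz : 0 < ‖Z‖ := norm_pos_iff.2 hZ
  have hdc : (d : ℂ) ≠ 0 := by exact_mod_cast hd.ne'
  have e : Z⁻¹ - (starRingEnd ℂ C) / d = ((d : ℂ) - starRingEnd ℂ C * Z) / (Z * d) := by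
    field_simp
  rw [e, norm_div, norm_mul, Complex.norm_real, Real.norm_of_nonneg hd.le,
    div_le_div_iff₀ (by positivity) hd]
  have h2 : ‖(d : ℂ) - starRingEnd ℂ C * Z‖ ≤ r * ‖Z‖ := by
    refine le_of_sq_le_sq ?_ (by positivity)
    have h3 : ‖Z - C‖ ^ 2 ≤ r ^ 2 := by gcongr
    rw [mul_pow, ← Complex.normSq_eq_norm_sq, ← Complex.normSq_eq_norm_sq]
    rw [← Complex.normSq_eq_norm_sq] at h3
    rw [Complex.normSq_apply] at h3 hC ⊢
    rw [Complex.normSq_apply]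
    simp only [Complex.sub_re, Complex.sub_im, Complex.mul_re, Complex.mul_im, Complex.conj_re,
      Complex.conj_im, Complex.ofReal_re, Complex.ofReal_im] at h3 hC ⊢
    set x := Z.re
    set y := Z.im
    set u := C.re
    set v := C.im
    have h4 : (d - (u * x - -v * y)) * (d - (u * x - -v * y)) +
        (0 - (u * y + -v * x)) * (0 - (u * y + -v * x)) - r ^ 2 * (x * x + y * y) =
        d * ((x - u) * (x - u) + (y - v) * (y - v) - r ^ 2) := by
      have : d = u * u + v * v - r ^ 2 := by linarith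
      rw [this]; ring
    nlinarith
  nlinarith

theorem conj_scale (s d x y : ℝ) : (s : ℂ) * (starRingEnd ℂ (⟨x, y⟩ : ℂ) / (d : ℂ)) =
    ⟨x * s / d, -y * s / d⟩ := by
  rw [← mul_div_assoc]
  apply Complex.ext
  · rw [Complex.div_ofReal_re, Complex.re_ofReal_mul, Complex.conj_re]
    ring
  · rw [Complex.div_ofReal_im, Complex.im_ofReal_mul, Complex.conj_im]
    ring

theorem invK_sound {x y : ℤ} {r : ℕ} {k : ℤ → ℤ → ℕ → Bool} (h : invK x y r k = true) :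
    ∃ u v s, k u v s = true ∧ ∀ z, InD ⟨x, y, r⟩ z → z ≠ 0 ∧ InD ⟨u, v, s⟩ z⁻¹ := by
  unfold invK at h
  rw [and'_eq, fN_eq] at h
  obtain ⟨h1, h2⟩ := h
  refine ⟨_, _, _, h2, fun z hz => ?_⟩
  have h3 : r * r + 1 ≤ x.natAbs * x.natAbs + y.natAbs * y.natAbs := Nat.le_of_ble_eq_true h1
  set n : ℕ := x.natAbs * x.natAbs + y.natAbs * y.natAbs with hn
  set d : ℕ := n - r * r with hd
  have hd0 : 0 < d := by omega
  have hdr : (0 : ℝ) < d := by exact_mod_cast hd0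
  have hdn : (d : ℝ) = (x : ℝ) * x + (y : ℝ) * y - (r : ℝ) ^ 2 := by
    have h4 : (d : ℝ) + r * r = n := by
      have : d + r * r = n := by omega
      exact_mod_cast this
    have h5 := natAbs_sq x y
    rw [Int.cast_natCast] at h5
    rw [← hn] at h5
    rw [← h5]; linarith
  unfold InD at hz
  simp only at hz
  obtain ⟨hz0, hz1⟩ := norm_inv_disc (C := ⟨(x : ℝ), (y : ℝ)⟩) (r := (r : ℝ)) hdr (by
    rw [Complex.normSq_apply]; exact hdn.symm) (Nat.cast_nonneg r) hz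
  have hz00 : z ≠ 0 := by
    rintro rfl; exact hz0 (by simp)
  refine ⟨hz00, ?_⟩
  have e1 : (1048576 : ℂ) * z⁻¹ = 1099511627776 * ((1048576 : ℂ) * z)⁻¹ := by
    field_simp; norm_num
  have h6 : ‖(1048576 : ℂ) * z⁻¹ - 1099511627776 * (starRingEnd ℂ (⟨(x : ℝ), (y : ℝ)⟩ : ℂ) / d)‖ ≤
      ((1099511627776 * r : ℕ) : ℝ) / d := by
    rw [e1, ← mul_sub, norm_mul]
    have : ‖(1099511627776 : ℂ)‖ = 1099511627776 := by
      rw [show (1099511627776 : ℂ) = ((1099511627776 : ℕ) : ℂ) by norm_num, Complex.norm_natCast]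
      norm_num
    rw [this]
    push_cast
    rw [mul_div_assoc]
    have h7 : ((d : ℝ) : ℂ) = (d : ℂ) := by push_cast; rfl
    rw [← h7]
    gcongr
  have h7 := div_le_natdiv (1099511627776 * r) d hd0
  have e2 : 1099511627776 * (starRingEnd ℂ (⟨(x : ℝ), (y : ℝ)⟩ : ℂ) / d) =
      (⟨((x * 1099511627776 : ℤ) : ℝ) / d, ((-y * 1099511627776 : ℤ) : ℝ) / d⟩ : ℂ) := by
    have h7 : ((d : ℝ) : ℂ) = (d : ℂ) := by push_cast; rfl
    rw [← h7, show (1099511627776 : ℂ) = ((1099511627776 : ℝ) : ℂ) by norm_num, conj_scale]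
    push_cast
    rfl
  have h3 := norm_round (ediv_bound (x * 1099511627776) (n := d) hd0)
    (ediv_bound (-y * 1099511627776) (n := d) hd0)
  rw [← e2] at h3
  show ‖(1048576 : ℂ) * z⁻¹ - _‖ ≤ ((1099511627776 * r / d + 3 : ℕ) : ℝ)
  have e4 : ∀ v : ℂ, (1048576 : ℂ) * z⁻¹ - v =
      ((1048576 : ℂ) * z⁻¹ - 1099511627776 * (starRingEnd ℂ (⟨(x : ℝ), (y : ℝ)⟩ : ℂ) / d)) +
      (1099511627776 * (starRingEnd ℂ (⟨(x : ℝ), (y : ℝ)⟩ : ℂ) / d) - v) := fun v => by ring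
  rw [e4]
  refine (norm_add_le _ _).trans ?_
  have h8 := add_le_add (h6.trans h7) h3
  refine h8.trans (le_of_eq ?_)
  push_cast
  ring

end Dsc

end SokalBethe
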