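import Pool.Agent.Lib_MP_af4de1_Bethe.Map

/-!
# Existence of a fixed point of the Bethe map by iteration from a circle
-/

namespace SokalBethe

open Filter Topology Metric

/-- Holomorphic in the open disc, continuous on the closed disc. -/
def DC (r : ℝ) (f : ℂ → ℂ) : Prop :=
  DifferentiableOn ℂ f (ball 0 r) ∧ ContinuousOn f (closedBall 0 r)

namespace DC

variable {r : ℝ} {f g : ℂ → ℂ}

theorem id (r : ℝ) : DC r fun q => q := ⟨differentiableOn_id, continuousOn_id⟩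

theorem const (r : ℝ) (c : ℂ) : DC r fun _ => c :=
  ⟨differentiableOn_const c, continuousOn_const⟩

theorem add (hf : DC r f) (hg : DC r g) : DC r fun q => f q + g q :=
  ⟨hf.1.add hg.1, hf.2.add hg.2⟩

theorem sub (hf : DC r f) (hg : DC r g) : DC r fun q => f q - g q :=
  ⟨hf.1.sub hg.1, hf.2.sub hg.2⟩

theorem mul (hf : DC r f) (hg : DC r g) : DC r fun q => f q * g q :=
  ⟨hf.1.mul hg.1, hf.2.mul hg.2⟩

theorem inv (hf : DC r f) (h : ∀ q ∈ closedBall (0 : ℂ) r, f q ≠ 0) : DC r fun q => (f q)⁻¹ :=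
  ⟨hf.1.inv fun q hq => h q (ball_subset_closedBall hq), hf.2.inv₀ h⟩

theorem div (hf : DC r f) (hg : DC r g) (h : ∀ q ∈ closedBall (0 : ℂ) r, g q ≠ 0) :
    DC r fun q => f q / g q := by
  simpa only [div_eq_mul_inv] using hf.mul (hg.inv h)

theorem sum {ι : Type*} (s : Finset ι) {F : ι → ℂ → ℂ} (h : ∀ i ∈ s, DC r (F i)) :
    DC r fun q => ∑ i ∈ s, F i q :=
  ⟨DifferentiableOn.fun_sum fun i hi => (h i hi).1, continuousOn_finsetSum s fun i hi => (h i hi).2⟩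

theorem prod {ι : Type*} (s : Finset ι) {F : ι → ℂ → ℂ} (h : ∀ i ∈ s, DC r (F i)) :
    DC r fun q => ∏ i ∈ s, F i q :=
  ⟨DifferentiableOn.fun_finsetProd fun i hi => (h i hi).1,
    continuousOn_finsetProd s fun i hi => (h i hi).2⟩

theorem tsum {F : ℕ → ℂ → ℂ} {u : ℕ → ℝ} (hu : Summable u) (h : ∀ i, DC r (F i))
    (hb : ∀ i, ∀ q ∈ closedBall (0 : ℂ) r, ‖F i q‖ ≤ u i) : DC r fun q => ∑' i, F i q :=
  ⟨Complex.differentiableOn_tsum_of_summable_norm hu (fun i => (h i).1) isOpen_ball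
      fun i q hq => hb i q (ball_subset_closedBall hq),
    continuousOn_tsum (fun i => (h i).2) hu hb⟩

theorem norm_le (hr : 0 < r) (hf : DC r f) {C : ℝ} (h : ∀ q : ℂ, ‖q‖ = r → ‖f q‖ ≤ C) {q : ℂ}
    (hq : q ∈ closedBall (0 : ℂ) r) : ‖f q‖ ≤ C := by
  refine Complex.norm_le_of_forall_mem_frontier_norm_le (U := ball (0 : ℂ) r) isBounded_ball
    ⟨hf.1, ?_⟩ (fun z hz => ?_) ?_
  · rw [closure_ball _ hr.ne']; exact hf.2
  · rw [frontier_ball _ hr.ne'] at hz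
    exact h z (mem_sphere_zero_iff_norm.1 hz)
  · rwa [closure_ball _ hr.ne']

theorem le_re (hr : 0 < r) (hf : DC r f) {C : ℝ} (h : ∀ q : ℂ, ‖q‖ = r → C ≤ (f q).re) {q : ℂ}
    (hq : q ∈ closedBall (0 : ℂ) r) : C ≤ (f q).re := by
  have h1 : DC r fun q => Complex.exp (-(f q)) :=
    ⟨hf.1.neg.cexp, hf.2.neg.cexp⟩
  have h2 := norm_le hr h1 (C := Real.exp (-C)) (fun z hz => by
    rw [Complex.norm_exp, Real.exp_le_exp, Complex.neg_re]
    linarith [h z hz]) hq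
  rw [Complex.norm_exp, Real.exp_le_exp, Complex.neg_re] at h2
  linarith

end DC

/-! ### The Bethe map preserves holomorphy -/

theorem DC_Bmap {r : ℝ} (hr1 : r < 1) {T : ℂ → ℕ → ℂ} (hd : ∀ j, DC r fun q => T q j)
    (hT : ∀ q ∈ closedBall (0 : ℂ) r, ∀ j, -1 / 2 ≤ (T q j).re) (j : ℕ) :
    DC r fun q => Bmap q (T q) j := by
  have hq1 : ∀ q ∈ closedBall (0 : ℂ) r, ‖q‖ ≤ r := fun q hq => mem_closedBall_zero_iff.1 hq
  rcases lt_or_ge r 0 with hneg | hr0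
  · have h1 : ball (0 : ℂ) r = ∅ := ball_eq_empty.2 hneg.le
    have h2 : closedBall (0 : ℂ) r = ∅ := closedBall_eq_empty.2 hneg
    refine ⟨?_, ?_⟩
    · rw [h1]; exact differentiableOn_empty
    · rw [h2]; exact continuousOn_empty _
  have ht : ∀ l, DC r fun q => tau (T q l) := fun l => by
    have h1 : DC r fun q => 1 + T q l := (DC.const r 1).add (hd l)
    exact (hd l).div h1 fun q hq => one_add_ne (hT q hq l)
  have hx : ∀ l, DC r fun q => xs q (T q) l := fun l => (DC.id r).mul (ht l)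
  have hA : ∀ i, DC r fun q => AA q (T q) j i := fun i =>
    (DC.id r).mul (DC.prod _ fun l _ => hx _)
  have hB : ∀ i, DC r fun q => BB q (T q) j i := fun i =>
    (ht j).mul (DC.prod _ fun l _ => hx _)
  refine DC.sub (DC.sum _ fun i _ => ?_) (DC.tsum (summable_lam hr0 hr1) (fun i => ?_) ?_)
  · refine ((DC.const r 1).sub (hA i)).inv fun q hq => ?_
    exact ne_of_norm (norm_AA_le (hT q hq) j i)
      (pow_lt_one₀ (norm_nonneg _) ((hq1 q hq).trans_lt hr1) (by omega))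
  · refine (hB (i + 1)).div ((DC.const r 1).sub (hB (i + 1))) fun q hq => ?_
    exact ne_of_norm (norm_BB_le (hT q hq) j (i + 1))
      (pow_lt_one₀ (norm_nonneg _) ((hq1 q hq).trans_lt hr1) (by omega))
  · intro i q hq
    have h1 : ‖BB q (T q) j (i + 1)‖ ≤ r ^ (i + 1) :=
      (norm_BB_le (hT q hq) j (i + 1)).trans (pow_le_pow_left₀ (norm_nonneg _) (hq1 q hq) _)
    exact norm_phi_le h1 (pow_lt_one₀ hr0 hr1 (by omega))

/-! ### Lipschitz bound -/

theorem norm_prod_sub_le {u v : ℕ → ℂ} {r e : ℝ} (hr : 0 ≤ r) (hu : ∀ l, ‖u l‖ ≤ r)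
    (hv : ∀ l, ‖v l‖ ≤ r) (huv : ∀ l, ‖u l - v l‖ ≤ r * e) (i : ℕ) :
    ‖∏ l ∈ Finset.range i, u l - ∏ l ∈ Finset.range i, v l‖ ≤ i * r ^ i * e := by
  induction i with
  | zero => simp
  | succ i ih =>
    rw [Finset.prod_range_succ, Finset.prod_range_succ]
    have e1 : (∏ l ∈ Finset.range i, u l) * u i - (∏ l ∈ Finset.range i, v l) * v i =
        (∏ l ∈ Finset.range i, u l - ∏ l ∈ Finset.range i, v l) * u i +
          (∏ l ∈ Finset.range i, v l) * (u i - v i) := by ring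
    have h1 : ‖∏ l ∈ Finset.range i, v l‖ ≤ r ^ i := by
      rw [norm_prod]
      calc ∏ l ∈ Finset.range i, ‖v l‖ ≤ ∏ _l ∈ Finset.range i, r :=
            Finset.prod_le_prod (fun _ _ => norm_nonneg _) fun l _ => hv l
        _ = r ^ i := by simp
    have he : 0 ≤ r * e := (norm_nonneg _).trans (huv 0)
    rw [e1]
    calc ‖(∏ l ∈ Finset.range i, u l - ∏ l ∈ Finset.range i, v l) * u i +
          (∏ l ∈ Finset.range i, v l) * (u i - v i)‖
        ≤ ‖∏ l ∈ Finset.range i, u l - ∏ l ∈ Finset.range i, v l‖ * ‖u i‖ +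
          ‖∏ l ∈ Finset.range i, v l‖ * ‖u i - v i‖ := by
          refine (norm_add_le _ _).trans ?_
          rw [norm_mul, norm_mul]
      _ ≤ (i * r ^ i * e) * r + r ^ i * (r * e) := by
          have h2 := (norm_nonneg _).trans ih
          gcongr
          · exact hu i
          · exact huv i
      _ = ((i + 1 : ℕ) : ℝ) * r ^ (i + 1) * e := by push_cast; ring

theorem norm_phi_sub_le {u v : ℂ} {r : ℝ} (hu : ‖u‖ ≤ r) (hv : ‖v‖ ≤ r) (hr : r < 1) :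
    ‖(1 - u)⁻¹ - (1 - v)⁻¹‖ ≤ ‖u - v‖ / (1 - r) ^ 2 := by
  have h1 := ne_of_norm hu hr
  have h2 := ne_of_norm hv hr
  have e : (1 - u)⁻¹ - (1 - v)⁻¹ = (u - v) / ((1 - u) * (1 - v)) := by field_simp; ring
  have h3 : 1 - r ≤ ‖1 - u‖ := by
    have := norm_sub_norm_le (1 : ℂ) u
    rw [norm_one] at this
    linarith
  have h4 : 1 - r ≤ ‖1 - v‖ := by
    have := norm_sub_norm_le (1 : ℂ) v
    rw [norm_one] at this
    linarith
  have h5 : 0 < 1 - r := by linarith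
  rw [e, norm_div, norm_mul]
  refine div_le_div_of_nonneg_left (norm_nonneg _) (by positivity) ?_
  rw [sq]
  gcongr

/-- The Lipschitz constant divided by `|q|`. -/
noncomputable def lip (r : ℝ) : ℝ := 8 / (1 - r) ^ 2 * ∑' i : ℕ, ((i : ℝ) + 2) * r ^ i

theorem summable_lip {r : ℝ} (h0 : 0 ≤ r) (h1 : r < 1) :
    Summable fun i : ℕ => ((i : ℝ) + 2) * r ^ i := by
  have e1 : Summable fun i : ℕ => (i : ℝ) ^ 1 * r ^ i :=
    summable_pow_mul_geometric_of_norm_lt_one 1 (by rwa [Real.norm_of_nonneg h0])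
  have e2 := (summable_geometric_of_lt_one h0 h1).mul_left 2
  refine (e1.add e2).congr fun i => ?_
  rw [pow_one]; ring

theorem lip_nonneg {r : ℝ} (h0 : 0 ≤ r) : 0 ≤ lip r := by
  unfold lip
  have : 0 ≤ ∑' i : ℕ, ((i : ℝ) + 2) * r ^ i := tsum_nonneg fun i => by positivity
  positivity

theorem norm_Bmap_sub_Bmap {q : ℂ} {r D : ℝ} {T T' : ℕ → ℂ} (hq : ‖q‖ ≤ r) (hr : r < 1)
    (hT : ∀ l, -1 / 2 ≤ (T l).re) (hT' : ∀ l, -1 / 2 ≤ (T' l).re) (hD : ∀ l, ‖T l - T' l‖ ≤ D)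
    (j : ℕ) : ‖Bmap q T j - Bmap q T' j‖ ≤ lip r * ‖q‖ * D := by
  have hr0 : 0 ≤ r := (norm_nonneg _).trans hq
  have hD0 : 0 ≤ D := (norm_nonneg _).trans (hD 0)
  have hq1 : ‖q‖ < 1 := hq.trans_lt hr
  have h6 : 0 < 1 - r := by linarith
  have hx : ∀ l, ‖xs q T l - xs q T' l‖ ≤ ‖q‖ * (4 * D) := fun l => by
    rw [xs, xs, ← mul_sub, norm_mul]
    have h1 := norm_tau_sub (hT l) (hT' l)
    have h2 := hD l
    gcongr
    linarith
  have hA : ∀ i, ‖AA q T j i - AA q T' j i‖ ≤ ‖q‖ * (4 * D * (i * ‖q‖ ^ i)) := fun i => by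
    rw [AA, AA, ← mul_sub, norm_mul]
    have h1 := norm_prod_sub_le (u := fun l => xs q T (j - 1 - l))
      (v := fun l => xs q T' (j - 1 - l)) (norm_nonneg q) (fun l => norm_xs_le hT _)
      (fun l => norm_xs_le hT' _) (fun l => hx _) i
    gcongr
    calc _ ≤ _ := h1
      _ = _ := by ring
  have hB : ∀ i, ‖BB q T j (i + 1) - BB q T' j (i + 1)‖ ≤
      ‖q‖ * (4 * D * (((i : ℝ) + 2) * ‖q‖ ^ i)) := fun i => by
    have h1 := norm_prod_sub_le (u := fun l => xs q T (j + 1 + l))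
      (v := fun l => xs q T' (j + 1 + l)) (norm_nonneg q) (fun l => norm_xs_le hT _)
      (fun l => norm_xs_le hT' _) (fun l => hx _) (i + 1)
    have h2 := norm_tau_sub (hT j) (hT' j)
    have h3 := hD j
    have h4 := norm_tau_le (hT' j)
    have h5 : ‖∏ l ∈ Finset.range (i + 1), xs q T (j + 1 + l)‖ ≤ ‖q‖ ^ (i + 1) := by
      rw [norm_prod]
      calc ∏ l ∈ Finset.range (i + 1), ‖xs q T (j + 1 + l)‖ ≤
            ∏ _l ∈ Finset.range (i + 1), ‖q‖ :=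
            Finset.prod_le_prod (fun _ _ => norm_nonneg _) fun l _ => norm_xs_le hT _
        _ = ‖q‖ ^ (i + 1) := by simp
    rw [BB, BB]
    generalize (∏ l ∈ Finset.range (i + 1), xs q T (j + 1 + l)) = P at *
    generalize (∏ l ∈ Finset.range (i + 1), xs q T' (j + 1 + l)) = P' at *
    have e1 : tau (T j) * P - tau (T' j) * P' = (tau (T j) - tau (T' j)) * P +
        tau (T' j) * (P - P') := by ring
    rw [e1]
    calc ‖(tau (T j) - tau (T' j)) * P + tau (T' j) * (P - P')‖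
        ≤ ‖tau (T j) - tau (T' j)‖ * ‖P‖ + ‖tau (T' j)‖ * ‖P - P'‖ := by
          refine (norm_add_le _ _).trans ?_
          rw [norm_mul, norm_mul]
      _ ≤ (4 * D) * ‖q‖ ^ (i + 1) + 1 * (((i + 1 : ℕ) : ℝ) * ‖q‖ ^ (i + 1) * (4 * D)) := by
          gcongr
          linarith
      _ = _ := by push_cast; ring
  have hAb : ∀ i, ‖(1 - AA q T j i)⁻¹ - (1 - AA q T' j i)⁻¹‖ ≤
      4 * D * ‖q‖ / (1 - r) ^ 2 * (((i : ℝ) + 2) * r ^ i) := fun i => by
    have hp : ‖q‖ ^ (i + 1) ≤ r := by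
      rw [pow_succ]
      exact (mul_le_of_le_one_left (norm_nonneg _) (pow_le_one₀ (norm_nonneg _) hq1.le)).trans hq
    have h1 := norm_phi_sub_le ((norm_AA_le hT j i).trans hp) ((norm_AA_le hT' j i).trans hp) hr
    refine h1.trans ?_
    rw [div_mul_eq_mul_div]
    gcongr
    refine (hA i).trans ?_
    have h2 : ‖q‖ ^ i ≤ r ^ i := pow_le_pow_left₀ (norm_nonneg _) hq i
    have h3 : (i : ℝ) * ‖q‖ ^ i ≤ ((i : ℝ) + 2) * r ^ i := by
      gcongr
      linarith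
    calc ‖q‖ * (4 * D * (i * ‖q‖ ^ i)) ≤ ‖q‖ * (4 * D * (((i : ℝ) + 2) * r ^ i)) := by gcongr
      _ = _ := by ring
  have hBb : ∀ i, ‖BB q T j (i + 1) / (1 - BB q T j (i + 1)) -
      BB q T' j (i + 1) / (1 - BB q T' j (i + 1))‖ ≤
      4 * D * ‖q‖ / (1 - r) ^ 2 * (((i : ℝ) + 2) * r ^ i) := fun i => by
    have hp : ‖q‖ ^ (i + 1) ≤ r := by
      rw [pow_succ]
      exact (mul_le_of_le_one_left (norm_nonneg _) (pow_le_one₀ (norm_nonneg _) hq1.le)).trans hq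
    have hu := (norm_BB_le (q := q) hT j (i + 1)).trans hp
    have hv := (norm_BB_le (q := q) hT' j (i + 1)).trans hp
    have h1 := norm_phi_sub_le hu hv hr
    have n1 := ne_of_norm hu hr
    have n2 := ne_of_norm hv hr
    have e1 : BB q T j (i + 1) / (1 - BB q T j (i + 1)) -
        BB q T' j (i + 1) / (1 - BB q T' j (i + 1)) =
        (1 - BB q T j (i + 1))⁻¹ - (1 - BB q T' j (i + 1))⁻¹ := by field_simp; ring
    rw [e1]
    refine h1.trans ?_
    rw [div_mul_eq_mul_div]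
    gcongr
    refine (hB i).trans ?_
    have h2 : ‖q‖ ^ i ≤ r ^ i := pow_le_pow_left₀ (norm_nonneg _) hq i
    calc ‖q‖ * (4 * D * (((i : ℝ) + 2) * ‖q‖ ^ i)) ≤ ‖q‖ * (4 * D * (((i : ℝ) + 2) * r ^ i)) := by
          gcongr
      _ = _ := by ring
  have hsum := (summable_lip hr0 hr).mul_left (4 * D * ‖q‖ / (1 - r) ^ 2)
  have h1 : ‖∑ i ∈ Finset.range (j + 1), ((1 - AA q T j i)⁻¹ - (1 - AA q T' j i)⁻¹)‖ ≤
      ∑' i : ℕ, 4 * D * ‖q‖ / (1 - r) ^ 2 * (((i : ℝ) + 2) * r ^ i) :=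
    (norm_sum_le_of_le _ fun i _ => hAb i).trans
      (hsum.sum_le_tsum _ fun i _ => by positivity)
  have h2 : ‖∑' i : ℕ, (BB q T j (i + 1) / (1 - BB q T j (i + 1)) -
      BB q T' j (i + 1) / (1 - BB q T' j (i + 1)))‖ ≤
      ∑' i : ℕ, 4 * D * ‖q‖ / (1 - r) ^ 2 * (((i : ℝ) + 2) * r ^ i) :=
    tsum_of_norm_bounded hsum.hasSum hBb
  have e2 : Bmap q T j - Bmap q T' j =
      (∑ i ∈ Finset.range (j + 1), ((1 - AA q T j i)⁻¹ - (1 - AA q T' j i)⁻¹)) -
      ∑' i : ℕ, (BB q T j (i + 1) / (1 - BB q T j (i + 1)) -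
        BB q T' j (i + 1) / (1 - BB q T' j (i + 1))) := by
    rw [(summable_phiB hq1 hT j).tsum_sub (summable_phiB hq1 hT' j), Finset.sum_sub_distrib,
      Bmap, Bmap]
    ring
  rw [e2]
  refine (norm_sub_le _ _).trans ?_
  rw [tsum_mul_left] at h1 h2
  unfold lip
  have e3 : 8 / (1 - r) ^ 2 * (∑' i : ℕ, ((i : ℝ) + 2) * r ^ i) * ‖q‖ * D =
      2 * (4 * D * ‖q‖ / (1 - r) ^ 2 * ∑' i : ℕ, ((i : ℝ) + 2) * r ^ i) := by ring
  rw [e3]
  linarith

end SokalBethe
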