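import Pool.Agent.Lib_MP_af4de1_Bethe.All

/-!
# The zeros of `F(z;q)` for `|q| < 13/16`
-/

namespace SokalBethe

open Finset

/-- `S r^n / (1 - r^n)` rounded up. -/
def lamN (rn rd n : ℕ) : ℕ := rn ^ n * 1048576 / (rd ^ n - rn ^ n) + 1

theorem lam_le_lamN {rn rd : ℕ} (hrd : rn < rd) (i : ℕ) :
    lam ((rn : ℝ) / rd) i ≤ (lamN rn rd (i + 1) : ℝ) / 1048576 := by
  have hlt : rn ^ (i + 1) < rd ^ (i + 1) := Nat.pow_lt_pow_left hrd (by omega)
  have hrd0 : (0 : ℝ) < rd := by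
    have : 0 < rd := by omega
    exact_mod_cast this
  have hlt' : (rn : ℝ) ^ (i + 1) < (rd : ℝ) ^ (i + 1) := by exact_mod_cast hlt
  have hd : (0 : ℝ) < (rd : ℝ) ^ (i + 1) - (rn : ℝ) ^ (i + 1) := by linarith
  have h1 := Dsc.div_le_natdiv (rn ^ (i + 1) * 1048576) (rd ^ (i + 1) - rn ^ (i + 1)) (by omega)
  have e1 : ((rd ^ (i + 1) - rn ^ (i + 1) : ℕ) : ℝ) = (rd : ℝ) ^ (i + 1) - (rn : ℝ) ^ (i + 1) := by
    rw [Nat.cast_sub hlt.le]; push_cast; ring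
  rw [e1] at h1
  have e2 : lam ((rn : ℝ) / rd) i =
      ((rn ^ (i + 1) * 1048576 : ℕ) : ℝ) / ((rd : ℝ) ^ (i + 1) - (rn : ℝ) ^ (i + 1)) / 1048576 := by
    unfold lam
    push_cast
    have h2 : (1 : ℝ) - ((rn : ℝ) / rd) ^ (i + 1) ≠ 0 := by
      rw [div_pow]
      intro h
      have h3 : (rd : ℝ) ^ (i + 1) ≠ 0 := by positivity
      field_simp at h
      linarith
    rw [div_pow] at h2 ⊢
    have h3 : (rd : ℝ) ^ (i + 1) ≠ 0 := by positivity
    generalize (rn : ℝ) ^ (i + 1) = a at *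
    generalize (rd : ℝ) ^ (i + 1) = b at *
    have hd' := hd.ne'
    field_simp
  rw [e2]
  refine div_le_div_of_nonneg_right (h1.trans (le_of_eq ?_)) (by norm_num)
  unfold lamN
  push_cast
  ring

theorem tsum_lam_le {rn rd : ℕ} (hrd : rn < rd) (N X : ℕ)
    (hX : ∑ i ∈ range N, lamN rn rd (i + 1) ≤ X) :
    ∑' i, lam ((rn : ℝ) / rd) i ≤ (X : ℝ) / 1048576 +
      ((rn : ℝ) / rd) ^ (N + 1) / (1 - (rn : ℝ) / rd) ^ 2 := by
  have hrd0 : (0 : ℝ) < rd := by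
    have : 0 < rd := by omega
    exact_mod_cast this
  have hr0 : 0 ≤ (rn : ℝ) / rd := by positivity
  have hr1 : (rn : ℝ) / rd < 1 := by
    rw [div_lt_one hrd0]; exact_mod_cast hrd
  rw [← (summable_lam hr0 hr1).sum_add_tsum_nat_add N]
  refine add_le_add ?_ ?_
  · have hX' : ((∑ i ∈ range N, lamN rn rd (i + 1) : ℕ) : ℝ) ≤ X := by exact_mod_cast hX
    push_cast at hX'
    calc ∑ i ∈ range N, lam ((rn : ℝ) / rd) i
        ≤ ∑ i ∈ range N, (lamN rn rd (i + 1) : ℝ) / 1048576 :=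
          sum_le_sum fun i _ => lam_le_lamN hrd i
      _ = (∑ i ∈ range N, (lamN rn rd (i + 1) : ℝ)) / 1048576 := by rw [sum_div]
      _ ≤ (X : ℝ) / 1048576 := by gcongr
  · set r := (rn : ℝ) / rd
    have h1 : 0 < 1 - r := by linarith
    have hs : HasSum (fun i : ℕ => r ^ (N + 1) / (1 - r) * r ^ i)
        (r ^ (N + 1) / (1 - r) * (1 - r)⁻¹) := (hasSum_geometric_of_lt_one hr0 hr1).mul_left _
    have h2 : ∑' i, lam r (i + N) ≤ r ^ (N + 1) / (1 - r) * (1 - r)⁻¹ := by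
      rw [← hs.tsum_eq]
      refine Summable.tsum_le_tsum (fun i => ?_) ?_ hs.summable
      · have h3 := lam_le hr0 hr1 (i + N)
        refine h3.trans (le_of_eq ?_)
        rw [div_mul_eq_mul_div, ← pow_add]
        congr 2
        ring
      · exact (summable_nat_add_iff N).2 (summable_lam hr0 hr1)
    refine h2.trans (le_of_eq ?_)
    field_simp

theorem M_bound : 2 * ∑' i, lam (((13 : ℕ) : ℝ) / (16 : ℕ)) i ≤ ((22229902 : ℕ) : ℝ) / 1048576 := by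
  have h1 := tsum_lam_le (rn := 13) (rd := 16) (by norm_num) 60 11114000 (by decide +kernel)
  have h2 : (((13 : ℕ) : ℝ) / (16 : ℕ)) ^ (60 + 1) / (1 - ((13 : ℕ) : ℝ) / (16 : ℕ)) ^ 2 ≤
      1 / 10000 := by norm_num
  push_cast at h1 h2 ⊢
  linarith

theorem main {q : ℂ} (hq0 : q ≠ 0) (hq : ‖q‖ < 13 / 16) :
    ∃ z : ℕ → ℂ, (∀ k, SokalF.F q (z k) = 0) ∧ (∀ w, SokalF.F q w = 0 → ∃ k, w = z k) ∧
      (∀ k, deriv (SokalF.F q) (z k) ≠ 0) ∧ (∀ k, ‖z k‖ < ‖q‖ * ‖z (k + 1)‖) := by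
  have hlen : polys.length = 20 := rfl
  refine zeros_of_chain (rn := 13) (rd := 16) (NB := 19) (MS := 22229902) (polys := polys)
    (m := 20) (R := 851968) (by norm_num) (by norm_num) M_bound (by rw [hlen]; norm_num)
    (by norm_num) (cs := cellList) (by simp [cellList]) chain_ok (fun c hc => ?_) hq0
    (by push_cast; exact hq)
  have h := all_ok c hc
  unfold ok at h
  rw [Dsc.and'_eq] at h
  rw [tl_eq]
  exact ⟨of_decide_eq_true h.1, h.2⟩

end SokalBethe
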