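import Pool.Agent.Lib_MP_af4de1_Bethe.Liouville
import Pool.Agent.Lib_MP_af4de1.Basic

/-!
# From the Bethe equations to the zeros of `F(z;q)`
-/

namespace SokalBethe

open Filter Topology Metric

variable {a : ℕ → ℂ} {q : ℂ}

/-- Uniqueness for `D'(w) = c D(q w)`, `D 0 = 0`. -/
theorem eq_zero_of_deriv {D : ℂ → ℂ} {c : ℂ} (hD : Differentiable ℂ D) (h0 : D 0 = 0)
    (hd : ∀ w, deriv D w = c * D (q * w)) (w : ℂ) : D w = 0 := by
  have hit : ∀ n : ℕ, ∃ K : ℂ, iteratedDeriv n D = fun w => K * D (q ^ n * w) := by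
    intro n
    induction n with
    | zero => exact ⟨1, by funext w; simp⟩
    | succ n ih =>
      obtain ⟨K, hK⟩ := ih
      refine ⟨K * (q ^ n * c), ?_⟩
      rw [iteratedDeriv_succ, hK]
      funext w
      have h1 : HasDerivAt (fun w => D (q ^ n * w)) (deriv D (q ^ n * w) * (q ^ n * 1)) w := by
        have e1 : HasDerivAt (fun w : ℂ => q ^ n * w) (q ^ n * 1) w :=
          (hasDerivAt_id w).const_mul _
        exact (hD (q ^ n * w)).hasDerivAt.comp w e1
      rw [(h1.const_mul K).deriv, hd]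
      have e2 : q * (q ^ n * w) = q ^ (n + 1) * w := by ring
      rw [e2]
      ring
  have ht := Complex.taylorSeries_eq_of_entire' (c := 0) (z := w) hD
  rw [← ht]
  have : ∀ n : ℕ, (n.factorial : ℂ)⁻¹ * iteratedDeriv n D 0 * (w - 0) ^ n = 0 := by
    intro n
    obtain ⟨K, hK⟩ := hit n
    rw [hK]
    simp [h0]
  simp only [this, tsum_zero]

theorem G_eq_F (hq0 : q ≠ 0) (hq : ‖q‖ < 1) (h1 : ∀ k, a k ≠ 0)
    (h2 : ∀ k, ‖a (k + 1)‖ ≤ ‖q‖ * ‖a k‖) (h3 : ∀ k, a (k + 1) ≠ q * a k)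
    (h4 : ∀ j, ∑' k, a k / (1 + a k * (-1 / (q * a j))) = 0) :
    ∃ c : ℂ, c ≠ 0 ∧ ∀ w, G a w = SokalF.F q (c * w) := by
  have hs := summable_a hq h2
  have hG := differentiable_G hs
  have hd := deriv_G_eq hq0 hq h1 h2 h3 h4
  set c := deriv (G a) 0 with hc
  have hc0 : c ≠ 0 := by
    intro h
    have h5 : ∀ w, deriv (G a) w = 0 := fun w => by rw [hd w, h, zero_mul]
    have h6 := is_const_of_deriv_eq_zero hG h5 (-1 / a 0) 0
    rw [G_zero, G_eq_zero (w := -1 / a 0) 0 (by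
      have := h1 0
      field_simp
      ring)] at h6
    exact zero_ne_one h6
  refine ⟨c, hc0, fun w => ?_⟩
  have hF : ∀ w, HasDerivAt (fun w => SokalF.F q (c * w)) (SokalF.F q (q * (c * w)) * (c * 1))
      w := fun w => by
    have e1 : HasDerivAt (fun w : ℂ => c * w) (c * 1) w := (hasDerivAt_id w).const_mul _
    exact (SokalF.hasDerivAt_F hq.le (c * w)).comp w e1
  have hD : Differentiable ℂ (fun w => G a w - SokalF.F q (c * w)) :=
    hG.sub fun w => (hF w).differentiableAt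
  have := eq_zero_of_deriv (q := q) (c := c) hD (by simp [G_zero, SokalF.F_zero]) (fun w => by
    have e1 := ((hG w).hasDerivAt.sub (hF w)).deriv
    have e2 : deriv (fun w => G a w - SokalF.F q (c * w)) w =
      deriv (G a) w - SokalF.F q (q * (c * w)) * (c * 1) := e1
    rw [e2, hd w]
    have e3 : q * (c * w) = c * (q * w) := by ring
    rw [e3]
    ring) w
  exact sub_eq_zero.1 this

/-- The zeros of `F(z;q)` from a solution of the Bethe equations. -/
theorem zeros_of_bethe (hq0 : q ≠ 0) (hq : ‖q‖ < 1) (h1 : ∀ k, a k ≠ 0)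
    (h2 : ∀ k, ‖a (k + 1)‖ < ‖q‖ * ‖a k‖)
    (h4 : ∀ j, ∑' k, a k / (1 + a k * (-1 / (q * a j))) = 0) :
    ∃ z : ℕ → ℂ, (∀ k, SokalF.F q (z k) = 0) ∧ (∀ w, SokalF.F q w = 0 → ∃ k, w = z k) ∧
      (∀ k, deriv (SokalF.F q) (z k) ≠ 0) ∧ (∀ k, ‖z k‖ < ‖q‖ * ‖z (k + 1)‖) := by
  have h3 : ∀ k, a (k + 1) ≠ q * a k := by
    intro k h
    have := h2 k
    rw [h, norm_mul] at this
    exact lt_irrefl _ this
  obtain ⟨c, hc, hcF⟩ := G_eq_F hq0 hq h1 (fun k => (h2 k).le) h3 h4
  have hs := summable_a hq (fun k => (h2 k).le)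
  refine ⟨fun k => -c / a k, fun k => ?_, fun w hw => ?_, fun k => ?_, fun k => ?_⟩
  · have hk := h1 k
    have e : -c / a k = c * (-1 / a k) := by ring
    beta_reduce
    rw [e, ← hcF]
    refine G_eq_zero k ?_
    field_simp
    ring
  · by_contra hcon
    push Not at hcon
    have e : w = c * (w / c) := by field_simp
    rw [e, ← hcF] at hw
    refine G_ne_zero hs (fun k hk => ?_) hw
    have := h1 k
    refine hcon k ?_
    field_simp at hk ⊢
    linear_combination hk
  · have hk := h1 k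
    have e : q * (-c / a k) = c * (q * (-1 / a k)) := by ring
    beta_reduce
    rw [SokalF.deriv_F hq.le, e, ← hcF]
    refine G_ne_zero hs (fun j hj => ?_)
    refine a_ne hq h1 (fun k => (h2 k).le) h3 hq0 k j ?_
    field_simp at hj
    linear_combination hj
  · have hk := norm_pos_iff.2 (h1 k)
    have hk1 := norm_pos_iff.2 (h1 (k + 1))
    have hc' := norm_pos_iff.2 hc
    beta_reduce
    rw [norm_div, norm_div, norm_neg, ← mul_div_assoc, div_lt_div_iff₀ hk hk1]
    have := mul_lt_mul_of_pos_left (h2 k) hc'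
    linarith

end SokalBethe
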