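import Pool.Agent.Lib_MP_af4de1_Bethe.Criterion

/-!
# The Bethe equations imply `G' (w) = G' (0) G (q w)`: the Liouville argument
-/

namespace SokalBethe

open Filter Topology Metric

variable {a : ℕ → ℂ} {q : ℂ}

theorem step_bound (hq0 : q ≠ 0) (hq : ‖q‖ < 1) (h1 : ∀ k, a k ≠ 0)
    (h2 : ∀ k, ‖a (k + 1)‖ ≤ ‖q‖ * ‖a k‖) (h3 : ∀ k, a (k + 1) ≠ q * a k)
    (h4 : ∀ j, ∑' k, a k / (1 + a k * (-1 / (q * a j))) = 0) :
    ∃ C : ℝ, 0 ≤ C ∧ ∀ n : ℕ, ∀ w : ℂ, ‖w‖ < 1 / (Real.sqrt ‖q‖ * ‖a n‖) →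
      ‖deriv (G a) w - deriv (G a) 0 * G a (q * w)‖ ≤
        ‖G a (q * w)‖ * ((C * (n + 1) + 1) * (Real.sqrt ‖q‖ * ‖a n‖) * ‖w‖) := by
  have hr : 0 < ‖q‖ := norm_pos_iff.2 hq0
  set s : ℝ := Real.sqrt ‖q‖ with hsdef
  have hs0 : 0 < s := Real.sqrt_pos.2 hr
  have hs : s ^ 2 = ‖q‖ := Real.sq_sqrt hr.le
  have hs1 : s < 1 := by
    rw [hsdef, show (1 : ℝ) = Real.sqrt 1 by simp]
    exact Real.sqrt_lt_sqrt hr.le hq
  have h6 : 0 < 1 - s := by linarith
  have hrr : 0 < 1 - s ^ 2 := by nlinarith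
  have ha := summable_a hq h2
  set C2 : ℝ := (1 + 1 / s) / (1 - s) *
        Real.exp (2 * (2 / (1 - s) * (s * (1 / (1 - s ^ 2))))) with hC2
  have hC2' : 0 ≤ C2 := by positivity
  set C1 : ℝ := (s + s ^ 2 / (1 - s ^ 2)) / (1 - s) with hC1
  have hC1' : 0 ≤ C1 := by positivity
  refine ⟨2 * (C1 * C2 * ‖a 0‖), by positivity, fun n w hw => ?_⟩
  have hn : 0 < ‖a n‖ := norm_pos_iff.2 (h1 n)
  set R : ℝ := 1 / (s * ‖a n‖) with hR
  have hR0 : 0 < R := by positivity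
  set M : ℝ := C1 * C2 * ‖a 0‖ * (n + 1) with hM
  have hM0 : 0 ≤ M := by positivity
  -- bound on the circle
  have hcirc : ∀ v : ℂ, ‖v‖ = R → ‖deriv (G a) v‖ ≤ M * ‖G a (q * v)‖ := by
    intro v hv
    rw [deriv_G ha (factor_ne hs0 hs1 hs h1 h2 hv), norm_mul]
    have b1 := G_cmp hs0 hs1 hs h1 h2 hv
    have b2 := logderiv_bound hs0 hs1 hs h1 h2 hv
    have b3 : ‖a n‖ ≤ (s ^ 2) ^ n * ‖a 0‖ := by
      have := norm_decay h2 0 n
      rw [zero_add, ← hs] at this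
      exact this
    have b4 : ((n + 1) * s + s ^ 2 / (1 - s ^ 2)) / (1 - s) ≤ C1 * (n + 1) := by
      rw [hC1, div_mul_eq_mul_div]
      have : 0 ≤ s ^ 2 / (1 - s ^ 2) := by positivity
      have hn0 : (0 : ℝ) ≤ n := Nat.cast_nonneg n
      gcongr
      nlinarith
    have b5 : ‖∑' k, a k / (1 + a k * v)‖ ≤ C1 * (n + 1) * ((s ^ 2) ^ n * ‖a 0‖) := by
      refine b2.trans ?_
      gcongr
    calc ‖G a v‖ * ‖∑' k, a k / (1 + a k * v)‖
        ≤ ((s ^ 2)⁻¹ ^ n * C2 * ‖G a (q * v)‖) * (C1 * (n + 1) * ((s ^ 2) ^ n * ‖a 0‖)) := by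
          gcongr
      _ = (((s ^ 2)⁻¹ * (s ^ 2)) ^ n) * (M * ‖G a (q * v)‖) := by
          rw [hM, mul_pow]; ring
      _ = M * ‖G a (q * v)‖ := by
          rw [inv_mul_cancel₀ (by positivity), one_pow, one_mul]
  -- division
  have hqa : ∀ k, q * a k ≠ 0 := fun k => mul_ne_zero hq0 (h1 k)
  have hinj : ∀ k < n, ∀ l < n, q * a k = q * a l → k = l := by
    intro k _ l _ h
    have h5 : a k = a l := mul_left_cancel₀ hq0 h
    have key : ∀ k l : ℕ, k < l → a k ≠ a l := by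
      intro k l hkl h7
      obtain ⟨m, rfl⟩ := Nat.exists_eq_add_of_lt hkl
      have h8 := norm_decay h2 k (m + 1)
      rw [show k + (m + 1) = k + m + 1 by omega, ← h7] at h8
      have h9 : ‖q‖ ^ (m + 1) ≤ ‖q‖ := pow_le_of_le_one hr.le hq.le (by omega)
      have h10 : 0 < ‖a k‖ := norm_pos_iff.2 (h1 k)
      nlinarith
    rcases lt_trichotomy k l with h7 | h7 | h7
    · exact absurd h5 (key k l h7)
    · exact h7
    · exact absurd h5.symm (key l k h7)
  obtain ⟨h, hh, he⟩ := exists_div (f := deriv (G a))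
    (by
      have := differentiable_G ha
      rw [← differentiableOn_univ] at this ⊢
      exact this.deriv isOpen_univ)
    (fun k => q * a k) n (fun k _ => hqa k) hinj
    (fun k _ => deriv_G_eq_zero hq0 hq h1 h2 h3 h4 k)
  set E : ℂ → ℂ := G (fun k => q * a (k + n)) with hE
  have haq : Summable fun k => ‖q * a k‖ := by
    simpa only [norm_mul] using ha.mul_left ‖q‖
  have hGq : ∀ v, G a (q * v) = (∏ k ∈ Finset.range n, (1 + (q * a k) * v)) * E v := by
    intro v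
    have e1 : G a (q * v) = G (fun k => q * a k) v := by
      unfold G
      refine tprod_congr fun k => ?_
      ring
    rw [e1, G_split haq n v]
  have haE : Summable fun k => ‖q * a (k + n)‖ :=
    (summable_nat_add_iff (f := fun k => ‖q * a k‖) n).2 haq
  have hEne : ∀ v : ℂ, ‖v‖ ≤ R → E v ≠ 0 := by
    intro v hv
    refine G_ne_zero haE fun k hk => ?_
    have h7 : ‖q * a (k + n) * v‖ < 1 := by
      have h8 := norm_decay h2 n k
      rw [add_comm n k] at h8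
      have h9 : ‖q‖ ^ k ≤ 1 := pow_le_one₀ hr.le hq.le
      have h10 : ‖a (k + n)‖ ≤ ‖a n‖ := by nlinarith
      calc ‖q * a (k + n) * v‖ = ‖q‖ * ‖a (k + n)‖ * ‖v‖ := by rw [norm_mul, norm_mul]
        _ ≤ ‖q‖ * ‖a n‖ * R := by gcongr
        _ = s := by rw [hR, ← hs]; field_simp
        _ < 1 := hs1
    have h11 : q * a (k + n) * v = -1 := by linear_combination hk
    rw [h11, norm_neg, norm_one] at h7
    exact lt_irrefl _ h7
  have hEd : Differentiable ℂ E := differentiable_G haE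
  set H : ℂ → ℂ := fun v => h v / E v with hH
  have hHd : DifferentiableOn ℂ H (closedBall 0 R) := by
    intro v hv
    have := hEne v (mem_closedBall_zero_iff.1 hv)
    exact ((hh v).div (hEd v) this).differentiableWithinAt
  have hHc : DiffContOnCl ℂ H (ball 0 R) := by
    refine ⟨hHd.mono ball_subset_closedBall, ?_⟩
    rw [closure_ball _ hR0.ne']
    exact hHd.continuousOn
  have hHb : ∀ v ∈ ball (0 : ℂ) R, ‖H v‖ ≤ M := by
    intro v hv
    refine Complex.norm_le_of_forall_mem_frontier_norm_le isBounded_ball hHc ?_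
      (subset_closure hv)
    intro u hu
    rw [frontier_ball _ hR0.ne', mem_sphere_zero_iff_norm] at hu
    have h7 := hcirc u hu
    rw [he u, hGq u, norm_mul, norm_mul] at h7
    have h8 : 0 < ‖∏ k ∈ Finset.range n, (1 + q * a k * u)‖ := by
      rw [norm_pos_iff, Finset.prod_ne_zero_iff]
      intro k hk h9
      rw [Finset.mem_range] at hk
      obtain ⟨m, hm⟩ := Nat.exists_eq_add_of_lt hk
      have h10 := x_ge hs0 hs h1 h2 hu (show n = k + (m + 1) by omega)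
      have h11 : q * a k * u = -1 := by linear_combination h9
      have h12 : s ^ 2 * (‖a k‖ * ‖u‖) = 1 := by
        rw [hs, ← mul_assoc, ← norm_mul, ← norm_mul, h11, norm_neg, norm_one]
      have h13 : s * (s ^ 2) ^ (m + 1) * (‖a k‖ * ‖u‖) = s * (s ^ 2) ^ m := by
        calc s * (s ^ 2) ^ (m + 1) * (‖a k‖ * ‖u‖)
            = s * (s ^ 2) ^ m * (s ^ 2 * (‖a k‖ * ‖u‖)) := by ring
          _ = s * (s ^ 2) ^ m := by rw [h12, mul_one]
      rw [h13] at h10
      have h14 : (s ^ 2) ^ m ≤ 1 := pow_le_one₀ (by positivity) (by nlinarith)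
      nlinarith
    have h9 : 0 < ‖E u‖ := norm_pos_iff.2 (hEne u hu.le)
    rw [hH]
    simp only
    rw [norm_div, div_le_iff₀ h9]
    nlinarith
  have h0b : (0 : ℂ) ∈ ball (0 : ℂ) R := mem_ball_self hR0
  have hwb : w ∈ ball (0 : ℂ) R := mem_ball_zero_iff.2 hw
  have hsch : dist (H w) (H 0) ≤ (2 * M + 1) / R * dist w 0 := by
    refine Complex.dist_le_div_mul_dist_of_mapsTo_ball (hHd.mono ball_subset_closedBall)
      ?_ hwb
    intro v hv
    rw [mem_closedBall]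
    calc dist (H v) (H 0) ≤ ‖H v‖ + ‖H 0‖ := by
          rw [dist_eq_norm]; exact norm_sub_le _ _
      _ ≤ M + M := add_le_add (hHb v hv) (hHb 0 h0b)
      _ ≤ 2 * M + 1 := by linarith
  rw [dist_eq_norm, dist_zero_right] at hsch
  have hH0 : H 0 = deriv (G a) 0 := by
    have e1 := he 0
    simp only [mul_zero, add_zero, Finset.prod_const_one, one_mul] at e1
    rw [hH]
    simp only
    rw [← e1, hE, G_zero, div_one]
  have hfin : deriv (G a) w - deriv (G a) 0 * G a (q * w) =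
      G a (q * w) * (H w - H 0) := by
    rw [hH0, he w, hGq w, hH]
    simp only
    have h15 := hEne w hw.le
    generalize (∏ k ∈ Finset.range n, (1 + q * a k * w)) = P
    have e6 : P * E w * (h w / E w) = P * h w := by field_simp
    rw [mul_sub, e6]
    ring
  rw [hfin, norm_mul]
  have e5 : (2 * M + 1) / R * ‖w‖ =
      (2 * (C1 * C2 * ‖a 0‖) * (n + 1) + 1) * (s * ‖a n‖) * ‖w‖ := by
    rw [hR, hM]
    field_simp
  rw [← e5]
  gcongr

/-- The Bethe equations imply the functional equation. -/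
theorem deriv_G_eq (hq0 : q ≠ 0) (hq : ‖q‖ < 1) (h1 : ∀ k, a k ≠ 0)
    (h2 : ∀ k, ‖a (k + 1)‖ ≤ ‖q‖ * ‖a k‖) (h3 : ∀ k, a (k + 1) ≠ q * a k)
    (h4 : ∀ j, ∑' k, a k / (1 + a k * (-1 / (q * a j))) = 0) (w : ℂ) :
    deriv (G a) w = deriv (G a) 0 * G a (q * w) := by
  obtain ⟨C, hC, hb⟩ := step_bound hq0 hq h1 h2 h3 h4
  have hr : 0 < ‖q‖ := norm_pos_iff.2 hq0
  have hd : ∀ n, ‖a n‖ ≤ ‖q‖ ^ n * ‖a 0‖ := fun n => by
    simpa using norm_decay h2 0 n
  have t1 : Tendsto (fun n : ℕ => ((n : ℝ) + 1) * ‖q‖ ^ n) atTop (𝓝 0) := by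
    have e1 := tendsto_self_mul_const_pow_of_lt_one hr.le hq
    have e2 := tendsto_pow_atTop_nhds_zero_of_lt_one hr.le hq
    have := e1.add e2
    rw [add_zero] at this
    exact this.congr fun n => by ring
  have t2 : Tendsto (fun n : ℕ => ‖G a (q * w)‖ * (((C + 1) * Real.sqrt ‖q‖ * ‖a 0‖ * ‖w‖) *
      (((n : ℝ) + 1) * ‖q‖ ^ n))) atTop (𝓝 0) := by
    simpa using (t1.const_mul ((C + 1) * Real.sqrt ‖q‖ * ‖a 0‖ * ‖w‖)).const_mul
      ‖G a (q * w)‖
  have hR : Tendsto (fun n : ℕ => 1 / (Real.sqrt ‖q‖ * ‖a n‖)) atTop atTop := by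
    have h0 : Tendsto (fun n => Real.sqrt ‖q‖ * ‖a n‖) atTop (𝓝[>] 0) := by
      rw [tendsto_nhdsWithin_iff]
      constructor
      · have h5 : Tendsto (fun n => ‖a n‖) atTop (𝓝 0) :=
          (summable_a hq h2).tendsto_atTop_zero
        simpa using h5.const_mul (Real.sqrt ‖q‖)
      · refine .of_forall fun n => ?_
        have := norm_pos_iff.2 (h1 n)
        have := Real.sqrt_pos.2 hr
        exact Set.mem_Ioi.2 (by positivity)
    have h01 := h0.inv_tendsto_nhdsGT_zero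
    refine h01.congr fun n => ?_
    simp [one_div]
  have h0 : ‖deriv (G a) w - deriv (G a) 0 * G a (q * w)‖ ≤ 0 := by
    refine ge_of_tendsto t2 ?_
    filter_upwards [hR.eventually_gt_atTop ‖w‖] with n hn
    refine (hb n w hn).trans ?_
    have h6 := hd n
    have h7 : C * ((n : ℝ) + 1) + 1 ≤ (C + 1) * ((n : ℝ) + 1) := by
      have : (0 : ℝ) ≤ n := Nat.cast_nonneg n
      nlinarith
    have h8 : 0 ≤ Real.sqrt ‖q‖ := Real.sqrt_nonneg _
    calc ‖G a (q * w)‖ * ((C * (n + 1) + 1) * (Real.sqrt ‖q‖ * ‖a n‖) * ‖w‖)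
        ≤ ‖G a (q * w)‖ * (((C + 1) * ((n : ℝ) + 1)) *
          (Real.sqrt ‖q‖ * (‖q‖ ^ n * ‖a 0‖)) * ‖w‖) := by gcongr
      _ = _ := by ring
  exact sub_eq_zero.1 (norm_le_zero_iff.1 h0)

end SokalBethe
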