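import Mathlib

/-!
# The entire functions `∏ (1 + a k w)` with `∑ |a k| < ∞`
-/

namespace SokalBethe

open Filter Topology

/-- The canonical product with the zeros `-1 / a k`. -/
noncomputable def G (a : ℕ → ℂ) (w : ℂ) : ℂ := ∏' k : ℕ, (1 + a k * w)

variable {a : ℕ → ℂ}

theorem summable_mul_right (ha : Summable fun k => ‖a k‖) (w : ℂ) :
    Summable fun k => ‖a k * w‖ := by
  simpa only [norm_mul] using ha.mul_right ‖w‖

theorem multipliable_G (ha : Summable fun k => ‖a k‖) (w : ℂ) :
    Multipliable fun k : ℕ => (1 + a k * w) :=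
  multipliable_one_add_of_summable (summable_mul_right ha w)

theorem G_zero (a : ℕ → ℂ) : G a 0 = 1 := by simp [G]

theorem G_ne_zero (ha : Summable fun k => ‖a k‖) {w : ℂ} (h : ∀ k, 1 + a k * w ≠ 0) :
    G a w ≠ 0 :=
  tprod_one_add_ne_zero_of_summable (f := fun k => a k * w) h (summable_mul_right ha w)

theorem G_eq_zero {w : ℂ} (k : ℕ) (h : 1 + a k * w = 0) : G a w = 0 :=
  tprod_of_exists_eq_zero ⟨k, h⟩

theorem mlu (ha : Summable fun k => ‖a k‖) (R : ℝ) :
    MultipliableLocallyUniformlyOn (fun (k : ℕ) (w : ℂ) => 1 + a k * w)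
      (Metric.ball (0 : ℂ) R) := by
  refine Summable.multipliableLocallyUniformlyOn_nat_one_add (f := fun k w => a k * w)
    (u := fun k => ‖a k‖ * R) Metric.isOpen_ball (ha.mul_right R) ?_ ?_
  · refine .of_forall fun k w hw => ?_
    rw [norm_mul]
    have : ‖w‖ ≤ R := (mem_ball_zero_iff.1 hw).le
    gcongr
  · intro k
    fun_prop

theorem differentiable_G (ha : Summable fun k => ‖a k‖) : Differentiable ℂ (G a) := by
  intro w
  have h : DifferentiableOn ℂ (G a) (Metric.ball (0 : ℂ) (‖w‖ + 1)) :=
    (mlu ha (‖w‖ + 1)).hasProdLocallyUniformlyOn.differentiableOn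
      (.of_forall fun s => by
        simpa [Finset.prod_fn] using DifferentiableOn.finsetProd (fun _ _ ↦ by fun_prop))
      Metric.isOpen_ball
  refine h.differentiableAt (Metric.isOpen_ball.mem_nhds ?_)
  rw [mem_ball_zero_iff]
  linarith

theorem summable_div (ha : Summable fun k => ‖a k‖) (w : ℂ) :
    Summable fun k => a k / (1 + a k * w) := by
  have h0 : Tendsto (fun k => 1 + a k * w) atTop (𝓝 1) := by
    have : Tendsto a atTop (𝓝 0) := by
      have := ha.of_norm.tendsto_atTop_zero
      exact this
    simpa using (this.mul_const w).const_add 1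
  have h1 : ∀ᶠ k in atTop, 1 / 2 ≤ ‖1 + a k * w‖ := by
    have := h0.norm
    rw [norm_one] at this
    exact this.eventually_const_le (by norm_num)
  refine Summable.of_norm_bounded_eventually_nat (ha.mul_left 2) ?_
  filter_upwards [h1] with k hk
  rw [norm_div, div_le_iff₀ (by linarith)]
  nlinarith [norm_nonneg (a k)]

theorem deriv_G (ha : Summable fun k => ‖a k‖) {w : ℂ} (h : ∀ k, 1 + a k * w ≠ 0) :
    deriv (G a) w = G a w * ∑' k, a k / (1 + a k * w) := by
  have hw : w ∈ Metric.ball (0 : ℂ) (‖w‖ + 1) := by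
    rw [mem_ball_zero_iff]; linarith
  have hl : ∀ k, logDeriv (fun z : ℂ => 1 + a k * z) w = a k / (1 + a k * w) := by
    intro k
    have hd : deriv (fun z : ℂ => 1 + a k * z) w = a k := by
      have : HasDerivAt (fun z : ℂ => 1 + a k * z) (a k * 1) w :=
        ((hasDerivAt_id w).const_mul (a k)).const_add 1
      rw [this.deriv, mul_one]
    rw [logDeriv_apply, hd]
  have h1 := logDeriv_tprod_eq_tsum (f := fun (k : ℕ) (z : ℂ) => 1 + a k * z)
    Metric.isOpen_ball hw h (fun k => by fun_prop)
    (by simpa only [hl] using summable_div ha w) (mlu ha _) (G_ne_zero ha h)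
  rw [logDeriv_apply] at h1
  simp only [hl] at h1
  have h2 : G a w ≠ 0 := G_ne_zero ha h
  have h3 : deriv (G a) w / G a w = ∑' k, a k / (1 + a k * w) := h1
  rw [← h3]
  field_simp

theorem G_split (ha : Summable fun k => ‖a k‖) (n : ℕ) (w : ℂ) :
    G a w = (∏ k ∈ Finset.range n, (1 + a k * w)) * G (fun k => a (k + n)) w := by
  have h : Multipliable fun k : ℕ => (1 + a (k + n) * w) :=
    multipliable_G (a := fun k => a (k + n))
      ((summable_nat_add_iff (f := fun k => ‖a k‖) n).2 ha) w
  exact (Multipliable.prod_mul_tprod_nat_mul' (f := fun k : ℕ => (1 + a k * w)) h).symm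

/-- Division of an entire function by finitely many of its zeros. -/
theorem exists_div {f : ℂ → ℂ} (hf : Differentiable ℂ f) (b : ℕ → ℂ) (n : ℕ)
    (hb : ∀ k < n, b k ≠ 0) (hinj : ∀ k < n, ∀ l < n, b k = b l → k = l)
    (h0 : ∀ k < n, f (-1 / b k) = 0) :
    ∃ h : ℂ → ℂ, Differentiable ℂ h ∧
      ∀ w, f w = (∏ k ∈ Finset.range n, (1 + b k * w)) * h w := by
  induction n with
  | zero => exact ⟨f, hf, by simp⟩
  | succ n ih =>
    obtain ⟨h, hh, he⟩ := ih (fun k hk => hb k (by omega))
      (fun k hk l hl => hinj k (by omega) l (by omega)) (fun k hk => h0 k (by omega))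
    have hbn := hb n (by omega)
    have hz : h (-1 / b n) = 0 := by
      have h1 := he (-1 / b n)
      rw [h0 n (by omega)] at h1
      have h2 : (∏ k ∈ Finset.range n, (1 + b k * (-1 / b n))) ≠ 0 := by
        rw [Finset.prod_ne_zero_iff]
        intro k hk h3
        rw [Finset.mem_range] at hk
        have h4 : b n = b k := by
          field_simp at h3
          linear_combination h3
        have := hinj n (by omega) k (by omega) h4
        omega
      exact (mul_eq_zero.1 h1.symm).resolve_left h2
    refine ⟨fun w => dslope h (-1 / b n) w / b n, ?_, ?_⟩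
    · have : Differentiable ℂ (dslope h (-1 / b n)) := by
        rw [← differentiableOn_univ] at hh ⊢
        exact (Complex.differentiableOn_dslope univ_mem).2 hh
      exact this.div_const _
    · intro w
      rw [he w, Finset.prod_range_succ]
      have h5 : (w - -1 / b n) * dslope h (-1 / b n) w = h w := by
        have := sub_smul_dslope h (-1 / b n) w
        rw [hz, sub_zero, smul_eq_mul] at this
        exact this
      rw [← h5]
      beta_reduce
      generalize (∏ k ∈ Finset.range n, (1 + b k * w)) = P
      generalize dslope h (-1 / b n) w = D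
      field_simp
      ring

end SokalBethe
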