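import Pool.Agent.Lib_MP_af4de1_Bethe.Cells

/-!
# The data for the circle `|q| = 13/16`
-/

namespace SokalBethe

open Finset

/-- The start polynomials (coefficients times `2^20`). -/
def polys : List (List ℤ) := [
  [
    1048576, 699051, 524288, 485452, 399689, 409398, 343646, 353391, 321205, 312829, 296996,
    293369, 276990],
  [
    2097152, 524288, 830123, 530113, 516339, 548722, 366200, 516440, 343324, 435546, 332179,
    417288, 295037],
  [
    3145728, 419430, 814394, 650700, 708629, 464987, 545442, 516647, 460088, 436343, 419926,
    495349, 287352],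
  [
    4194304, 349525, 751479, 681131, 822833, 496244, 693411, 465161, 545618, 479263, 494018,
    507495, 345163],
  [
    5242880, 299593, 685498, 671218, 869738, 536644, 812372, 459008, 623786, 501488, 546104,
    490536, 454385],
  [
    6291456, 262144, 625713, 645236, 877789, 563077, 893993, 475630, 699154, 528888, 594422,
    465245, 560494],
  [
    7340032, 233017, 573527, 613735, 865045, 575225, 943550, 496691, 764070, 561313, 644045,
    448890, 656657],
  [
    8388608, 209715, 528366, 581332, 841652, 576799, 969200, 514534, 814967, 593350, 691910,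
    443921, 743215],
  [
    9437184, 190650, 489239, 550028, 813214, 571290, 978030, 526985, 851965, 621353, 734676,
    447195, 819886],
  [
    10485760, 174763, 455177, 520639, 782833, 561282, 975370, 534100, 876832, 643811, 770580,
    455009, 886242],
  [
    11534336, 161319, 425344, 493423, 752224, 548552, 965017, 536675, 891768, 660536, 799196,
    464571, 942283],
  [
    12582912, 149797, 399046, 468381, 722320, 534292, 949628, 535648, 898855, 671993, 820893,
    474111, 988495],
  [
    13631488, 139810, 375721, 445399, 693610, 519285, 931042, 531872, 899877, 678895, 836412,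
    482634, 1025695],
  [
    14680064, 131072, 354909, 424316, 666328, 504046, 910532, 526060, 896284, 682000, 846617,
    489661, 1054865],
  [
    15728640, 123362, 336237, 404959, 640559, 488908, 888974, 518776, 889228, 682013, 852360,
    495027, 1077026],
  [
    16777216, 116508, 319399, 387160, 616302, 474081, 866973, 510461, 879609, 679550, 854418,
    498748, 1093159],
  [
    17825792, 110376, 304143, 370762, 593513, 459693, 844945, 501450, 868124, 675133, 853471,
    500936, 1104163],
  [
    18874368, 104858, 290259, 355623, 572117, 445822, 823170, 492000, 855313, 669193, 850097,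
    501749, 1110840],
  [
    19922944, 99864, 277574, 341614, 552032, 432505, 801836, 482303, 841591, 662083, 844782,
    501358, 1113889],
  [
    20971520, 95325, 265940, 328623, 533171, 419758, 781066, 472505, 827275, 654088, 837929,
    499932, 1113914]]

/-- The discs for `T_l`, `l ≥ 20`. -/
def tl : List Dsc := [
  ⟨22020096, 0, 22229902⟩, ⟨23068672, 0, 22229902⟩, ⟨24117248, 0, 22229902⟩,
  ⟨25165824, 0, 22229902⟩, ⟨26214400, 0, 22229902⟩, ⟨27262976, 0, 22229902⟩,
  ⟨28311552, 0, 22229902⟩, ⟨29360128, 0, 22229902⟩, ⟨30408704, 0, 22229902⟩,
  ⟨31457280, 0, 22229902⟩, ⟨32505856, 0, 22229902⟩, ⟨33554432, 0, 22229902⟩,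
  ⟨34603008, 0, 22229902⟩, ⟨35651584, 0, 22229902⟩, ⟨36700160, 0, 22229902⟩,
  ⟨37748736, 0, 22229902⟩, ⟨38797312, 0, 22229902⟩, ⟨39845888, 0, 22229902⟩,
  ⟨40894464, 0, 22229902⟩, ⟨41943040, 0, 22229902⟩]

theorem tl_eq : mkTail 22229902 20 polys.length = tl := rfl

/-- The whole check of one cell. -/
noncomputable def ok (c : CellT) : Bool :=
  Dsc.and' (decide (c.Geo 851968)) (Dsc.cell 13 16 19 polys tl c.q c.boxes)

end SokalBethe
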